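import Pool.Agent.Helper55.TZ.Coc3

/-!
# Layer LF, block LF1: equivariant maps to functions on the lattice

`inv_absI`: as `inv_abs` (`Helper78/BM/Coc0.lean`), for families `φ i : X → H`, `i ∈ Γ`. PROOF: copy the proof of `inv_abs`. The set `N = {p : G × X | ∀ i, φ i (p.1 • p.2) = φ ((r (p.1 * sec p.2))⁻¹ * i) p.2}` is measurable:
countable intersection over `i` and countable union over `l` of `{p | r (p.1 * sec p.2) = l} ∩ {p | φ i (p.1 • p.2) = φ (l⁻¹ * i) p.2}` (`StronglyMeasurable.measurableSet_eq_fun`, `hr`). By `Measure.ae_ae_comm` there is `x₀` with the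
identity for almost all `g`; translate on the right by `(sec x₀)⁻¹`: for almost all `g`, for all `i`: `φ i (g • o) = φ ((r g)⁻¹ * i) x₀`. Replace `g` by `g * j l` (`hrl`, `hj`): `φ ((r g)⁻¹ i) x₀ = φ (l⁻¹ (r g)⁻¹ i) x₀` for all `i`, so
`φ (l⁻¹ * i) x₀ = φ i x₀` for all `l`, `i`, so `φ i x₀ = φ 1 x₀ =: v`. Then `φ i (g • o) = v` for almost all `g`, all `i`; translate by `sec x`: `φ i (g • x) = v` for all `x`, almost all `g`; Fubini, one `g`, measure preserving.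

`exists_cocycle4`: `exists_cocycle3` (`Helper55/TZ/Coc3.lean`) with one more conclusion (the last one). PROOF: copy the proof of `exists_cocycle3`; the last conclusion is proved as the one for Hilbert spaces in `exists_cocycle3`, with `inv_absI` in place of `inv_abs`.
-/

set_option autoImplicit false
set_option linter.unusedSectionVars false

open MeasureTheory Filter Topology
open scoped Pointwise ENNReal

namespace Pool.Agent.Helper43.LF

open Pool.Agent.Helper66.FR Pool.Agent.Helper96.FR Pool.Agent.Helper78.BM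

section I

variable {G X Γ H : Type} [Group G] [TopologicalSpace G] [IsTopologicalGroup G] [MeasurableSpace G] [BorelSpace G]
  [SecondCountableTopology G] [LocallyCompactSpace G] [MeasurableSpace X] [MulAction G X] {ν : Measure X}
  [IsProbabilityMeasure ν] [Group Γ] [Countable Γ] [NormedAddCommGroup H]

theorem inv_absI (hmp : ∀ g : G, MeasurePreserving (fun x => g • x) ν ν)
    (hsm : Measurable fun p : G × X => p.1 • p.2) (o : X) (sec : X → G) (hsec : Measurable sec) (hso : ∀ x, sec x • o = x)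
    (j : Γ →* G) (hj : ∀ l, j l • o = o) (r : G → Γ) (hr : ∀ l, MeasurableSet (r ⁻¹' {l})) (hrl : ∀ g l, r (g * j l) = r g * l)
    {φ : Γ → X → H} (hφ : ∀ i, StronglyMeasurable (φ i))
    (h : ∀ g : G, ∀ᵐ x ∂ν, ∀ i, φ i (g • x) = φ ((r (g * sec x))⁻¹ * i) x) :
    ∃ v : H, ∀ᵐ x ∂ν, ∀ i, φ i x = v := by
  let m0 : Measure G := Measure.haar
  have hne : ∀ {p : G → Prop}, (∀ᵐ g ∂m0, p g) → ∃ g, p g := fun hp => hp.exists
  have hqr : ∀ (g : G) {p : G → Prop}, (∀ᵐ h ∂m0, p h) → ∀ᵐ h ∂m0, p (h * g) := fun g p hp =>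
    (quasiMeasurePreserving_mul_right m0 g).ae hp
  -- joint measurability
  have hm1 : ∀ i, StronglyMeasurable fun p : G × X => φ i (p.1 • p.2) := fun i => (hφ i).comp_measurable hsm
  have hm2 : ∀ i, StronglyMeasurable fun p : G × X => φ i p.2 := fun i => (hφ i).comp_measurable measurable_snd
  have hc : Measurable fun p : G × X => p.1 * sec p.2 := measurable_fst.mul (hsec.comp measurable_snd)
  have hN : MeasurableSet {p : G × X | ∀ i, φ i (p.1 • p.2) = φ ((r (p.1 * sec p.2))⁻¹ * i) p.2} := by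
    have e : {p : G × X | ∀ i, φ i (p.1 • p.2) = φ ((r (p.1 * sec p.2))⁻¹ * i) p.2} =
        ⋂ i, ⋃ l, (fun p : G × X => p.1 * sec p.2) ⁻¹' (r ⁻¹' {l}) ∩ {p : G × X | φ i (p.1 • p.2) = φ (l⁻¹ * i) p.2} := by
      ext p
      simp only [Set.mem_iInter, Set.mem_iUnion, Set.mem_inter_iff, Set.mem_preimage, Set.mem_singleton_iff]
      constructor
      · intro hp i
        exact ⟨r (p.1 * sec p.2), rfl, hp i⟩
      · intro hp i
        obtain ⟨l, hl, h2⟩ := hp i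
        have h2 : φ i (p.1 • p.2) = φ (l⁻¹ * i) p.2 := h2
        rw [← hl] at h2
        exact h2
    rw [e]
    exact MeasurableSet.iInter fun i => MeasurableSet.iUnion fun l =>
      (hc (hr l)).inter ((hm1 i).measurableSet_eq_fun (hm2 (l⁻¹ * i)))
  have h2 : ∀ᵐ x ∂ν, ∀ᵐ g ∂m0, ∀ i, φ i (g • x) = φ ((r (g * sec x))⁻¹ * i) x :=
    (Measure.ae_ae_comm hN).1 (Eventually.of_forall h)
  obtain ⟨x₀, hx₀⟩ := h2.exists
  have h3 : ∀ᵐ g ∂m0, ∀ i, φ i (g • o) = φ ((r g)⁻¹ * i) x₀ := by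
    have h4 := hqr (sec x₀)⁻¹ hx₀
    filter_upwards [h4] with g hg i
    have hg := hg i
    rw [mul_smul, inv_mul_cancel_right] at hg
    have h5 : (sec x₀)⁻¹ • x₀ = o := inv_smul_eq_iff.2 (hso x₀).symm
    rwa [h5] at hg
  have hT : ∀ l i, φ (l⁻¹ * i) x₀ = φ i x₀ := by
    intro l i
    have h4 := hqr (j l) h3
    obtain ⟨g, hg1, hg2⟩ := hne (h3.and h4)
    have hg1 := hg1 (r g * i)
    have hg2 := hg2 (r g * i)
    rw [mul_smul, hj, hrl] at hg2
    rw [hg1, mul_inv_rev, inv_mul_cancel_left] at hg2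
    have e : l⁻¹ * (r g)⁻¹ * (r g * i) = l⁻¹ * i := by group
    rw [e] at hg2
    exact hg2.symm
  have hT' : ∀ i, φ i x₀ = φ 1 x₀ := by
    intro i
    have h4 := hT i i
    rw [inv_mul_cancel] at h4
    exact h4.symm
  refine ⟨φ 1 x₀, ?_⟩
  have h6 : ∀ᵐ g ∂m0, ∀ i, φ i (g • o) = φ 1 x₀ := by
    filter_upwards [h3] with g hg i
    rw [hg i, hT']
  have h7 : ∀ x : X, ∀ᵐ g ∂m0, ∀ i, φ i (g • x) = φ 1 x₀ := by
    intro x
    filter_upwards [hqr (sec x) h6] with g hg i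
    have hg := hg i
    rwa [mul_smul, hso] at hg
  have hM : MeasurableSet {p : G × X | ∀ i, φ i (p.1 • p.2) = φ 1 x₀} := by
    have e : {p : G × X | ∀ i, φ i (p.1 • p.2) = φ 1 x₀} = ⋂ i, {p : G × X | φ i (p.1 • p.2) = φ 1 x₀} := by
      ext p
      simp
    rw [e]
    exact MeasurableSet.iInter fun i => (hm1 i).measurableSet_eq_fun stronglyMeasurable_const
  have h8 : ∀ᵐ g ∂m0, ∀ᵐ x ∂ν, ∀ i, φ i (g • x) = φ 1 x₀ := (Measure.ae_ae_comm hM).2 (Eventually.of_forall h7)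
  obtain ⟨g, hg⟩ := hne h8
  have hM2 : MeasurableSet {x : X | ∀ i, φ i x = φ 1 x₀} := by
    have e : {x : X | ∀ i, φ i x = φ 1 x₀} = ⋂ i, {x : X | φ i x = φ 1 x₀} := by
      ext p
      simp
    rw [e]
    exact MeasurableSet.iInter fun i => (hφ i).measurableSet_eq_fun stronglyMeasurable_const
  have h9 : ν ((fun x => g • x) ⁻¹' {x : X | ∀ i, φ i x = φ 1 x₀}ᶜ) = 0 := hg
  rw [(hmp g).measure_preimage hM2.compl.nullMeasurableSet] at h9
  exact h9

end I

theorem exists_cocycle4 {G : Type} [Group G] [TopologicalSpace G] [IsTopologicalGroup G] [LocallyCompactSpace G]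
    [SecondCountableTopology G] [T2Space G] (Γ : Subgroup G) (hΓ : Pool.Agent.Helper96.FR.Lattice Γ) :
    ∃ (X : Type) (_ : MeasurableSpace X) (_ : MulAction G X) (ν : Measure X) (_ : IsProbabilityMeasure ν)
      (a : G → X → Γ), (∀ g : G, MeasurePreserving (fun x => g • x) ν ν) ∧
      (∀ (g : G) (s : Set Γ), MeasurableSet {x | a g x ∈ s}) ∧
      (∀ (g k : G) (x : X), a (g * k) x = a g (k • x) * a k x) ∧
      (∀ l : Γ, Tendsto (fun g : G => ν {x | a g x = l}) (cocompact G) (𝓝 0)) ∧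
      Tendsto (fun g : G => ν {x | a g x ≠ 1}) (𝓝 1) (𝓝 0) ∧
      (∀ F : Subgroup G, DiscreteTopology F → ∃ p : X → Γ → F, (∀ (l : Γ) (s : Set F), MeasurableSet {x | p x l ∈ s}) ∧
        ∀ (f : F) (x : X) (l : Γ), p ((f : G) • x) (a f x * l) = f * p x l) ∧
      (∀ D : Set X, MeasurableSet D → Tendsto (fun g : G => ν (symmDiff ((fun x => g • x) ⁻¹' D) D)) (𝓝 1) (𝓝 0)) ∧
      (∀ (H : Type) (_ : NormedAddCommGroup H) (_ : InnerProductSpace ℂ H) (T : Γ →* (H ≃ₗᵢ[ℂ] H)) (φ : X → H),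
        StronglyMeasurable φ → (∀ g : G, ∀ᵐ x ∂ν, φ (g • x) = T (a g x) (φ x)) →
        ∃ v : H, (∀ l, T l v = v) ∧ ∀ᵐ x ∂ν, φ x = v) ∧
      (∃ σ : X → G, (∀ B : Set G, MeasurableSet[borel G] B → MeasurableSet (σ ⁻¹' B)) ∧
        ∀ (g : G) (x : X), g * σ x = σ (g • x) * (a g x : G)) ∧
      (∀ (H : Type) (_ : NormedAddCommGroup H) (_ : InnerProductSpace ℂ H) (φ : Γ → X → H),
        (∀ l, StronglyMeasurable (φ l)) → (∀ g : G, ∀ᵐ x ∂ν, ∀ l, φ l (g • x) = φ ((a g x)⁻¹ * l) x) →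
        ∃ v : H, ∀ᵐ x ∂ν, ∀ l, φ l x = v) := by
  have hd : DiscreteTopology Γ := hΓ.1
  have hcount : Countable Γ := countable_of_discrete Γ
  obtain ⟨ν₀, h0, hfin, hinv⟩ := hΓ.2
  let mG : MeasurableSpace G := borel G
  have bG : BorelSpace G := ⟨rfl⟩
  let mQ : MeasurableSpace (G ⧸ Γ) := borel (G ⧸ Γ)
  have bQ : @BorelSpace (G ⧸ Γ) _ mQ := @BorelSpace.mk _ _ mQ rfl
  obtain ⟨D, hD⟩ := exists_isSFD Γ
  have hsec : ∀ B : Set G, MeasurableSet B → MeasurableSet[mQ] (hD.sec ⁻¹' B) := by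
    intro B hB
    refine measurableSet_quot Γ ?_
    have e : ((↑) ⁻¹' (hD.sec ⁻¹' B) : Set G) = hD.rep ⁻¹' B := by
      ext g
      simp only [Set.mem_preimage, hD.sec_mk]
    rw [e]
    exact hD.measurable_rep hB
  have hsecm : @Measurable _ _ mQ _ hD.sec := fun B hB => hsec B hB
  have hsm : ∀ g : G, @Measurable _ _ mQ mQ (fun x : G ⧸ Γ => g • x) := by
    intro g
    have hc : Continuous (fun x : G ⧸ Γ => g • x) := continuous_const_smul g
    exact hc.borel_measurable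
  let ν : @Measure (G ⧸ Γ) mQ := (ν₀ Set.univ)⁻¹ • ν₀
  have hp : @IsProbabilityMeasure _ mQ ν := by
    refine @IsProbabilityMeasure.mk _ mQ _ ?_
    show (ν₀ Set.univ)⁻¹ * ν₀ Set.univ = 1
    exact ENNReal.inv_mul_cancel h0 hfin
  have hmp : ∀ g : G, @MeasurePreserving _ _ mQ mQ (fun x : G ⧸ Γ => g • x) ν ν := by
    intro g
    refine @MeasurePreserving.mk _ _ mQ mQ _ _ _ (hsm g) ?_
    refine @Measure.ext _ mQ _ _ fun s hs => ?_
    rw [Measure.map_apply (hsm g) hs]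
    show (ν₀ Set.univ)⁻¹ * ν₀ ((fun x : G ⧸ Γ => g • x) ⁻¹' s) = (ν₀ Set.univ)⁻¹ * ν₀ s
    rw [hinv g s hs]
  -- the image measure on `G`
  let m : Measure G := @Measure.map _ _ mQ _ hD.sec ν
  have hm : ∀ B : Set G, MeasurableSet B → m B = ν (hD.sec ⁻¹' B) := fun B hB =>
    Measure.map_apply hsecm hB
  have hmfin : IsFiniteMeasure m := by
    refine ⟨?_⟩
    rw [hm _ MeasurableSet.univ]
    exact measure_lt_top ν _
  have hcompact : ∀ ε : ℝ≥0∞, ε ≠ 0 → ∃ K : Set G, K ⊆ D ∧ IsCompact K ∧ ν {x | hD.sec x ∉ K} < ε := by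
    intro ε hε
    obtain ⟨K, hKD, hK, hKm⟩ := hD.meas.exists_isCompact_sdiff_lt (measure_ne_top m D) hε
    refine ⟨K, hKD, hK, ?_⟩
    have hDK : MeasurableSet (D \ K) := MeasurableSet.diff hD.meas hK.measurableSet
    rw [hm _ hDK] at hKm
    refine lt_of_le_of_lt (measure_mono ?_) hKm
    intro x hx
    exact ⟨hD.sec_mem x, hx⟩
  have hshift : ∀ (g : G) (K : Set G), IsCompact K → ν {x | hD.sec (g • x) ∉ K} = ν {x | hD.sec x ∉ K} := by
    intro g K hK
    have h1 : @MeasurableSet _ mQ {x | hD.sec x ∉ K} := hsec Kᶜ hK.measurableSet.compl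
    exact (hmp g).measure_preimage h1.nullMeasurableSet
  refine ⟨G ⧸ Γ, mQ, inferInstance, ν, hp, fun g x => hD.cc g x, hmp, ?_, hD.cc_mul, ?_, ?_, ?_, ?_, ?_,
    ⟨hD.sec, hsec, fun g x => (hD.sec_mul_cc g x).symm⟩, ?_⟩
  · intro g s
    have e : {x : G ⧸ Γ | hD.cc g x ∈ s} = hD.sec ⁻¹' ((fun y => g * y) ⁻¹' {y | hD.r y ∈ s}) := rfl
    rw [e]
    exact hsec _ (measurable_const_mul g (hD.measurableSet_r_mem s))
  · intro l
    rw [ENNReal.tendsto_nhds_zero]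
    intro ε hε
    have hε2 : ε / 2 ≠ 0 := (ENNReal.half_pos hε.ne').ne'
    obtain ⟨K, hKD, hK, hKm⟩ := hcompact (ε / 2) hε2
    have hKc : IsCompact (K * ({(l : G)} : Set G) * K⁻¹) := (hK.mul isCompact_singleton).mul hK.inv
    filter_upwards [hKc.compl_mem_cocompact] with g hg
    have hsub : {x : G ⧸ Γ | hD.cc g x = l} ⊆ {x | hD.sec x ∉ K} ∪ {x | hD.sec (g • x) ∉ K} := by
      intro x hx
      by_contra hn
      rw [Set.mem_union, not_or] at hn
      have h1 : hD.sec x ∈ K := not_not.1 hn.1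
      have h2 : hD.sec (g • x) ∈ K := not_not.1 hn.2
      have hx : hD.cc g x = l := hx
      have h3 := hD.sec_mul_cc g x
      rw [hx] at h3
      apply hg
      refine ⟨g * hD.sec x, ⟨hD.sec (g • x), h2, (l : G), rfl, h3⟩, (hD.sec x)⁻¹, Set.inv_mem_inv.2 h1, ?_⟩
      show g * hD.sec x * (hD.sec x)⁻¹ = g
      rw [mul_inv_cancel_right]
    calc ν {x : G ⧸ Γ | hD.cc g x = l} ≤ ν {x | hD.sec x ∉ K} + ν {x | hD.sec (g • x) ∉ K} :=
          (measure_mono hsub).trans (measure_union_le _ _)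
      _ = ν {x | hD.sec x ∉ K} + ν {x | hD.sec x ∉ K} := by rw [hshift g K hK]
      _ ≤ ε / 2 + ε / 2 := add_le_add hKm.le hKm.le
      _ = ε := ENNReal.add_halves ε
  · rw [ENNReal.tendsto_nhds_zero]
    intro ε hε
    have hε2 : ε / 2 ≠ 0 := (ENNReal.half_pos hε.ne').ne'
    obtain ⟨K, hKD, hK, hKm⟩ := hcompact (ε / 2) hε2
    obtain ⟨W, hW, hW1⟩ := exists_compact_mem_nhds (1 : G)
    -- the finitely many elements of `Γ` in `K⁻¹ W K`
    have hcl : IsClosed (Γ : Set G) := Subgroup.isClosed_of_discrete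
    have hfinite : ((Γ : Set G) ∩ (K⁻¹ * W * K)).Finite := by
      have hc : IsCompact ((Γ : Set G) ∩ (K⁻¹ * W * K)) :=
        ((hK.inv.mul hW).mul hK).inter_left hcl
      have hdisc : IsDiscrete ((Γ : Set G) ∩ (K⁻¹ * W * K)) :=
        (show IsDiscrete (Γ : Set G) from ⟨hd⟩).mono Set.inter_subset_left
      exact hc.finite hdisc
    have hnear : ∀ l ∈ ((Γ : Set G) ∩ (K⁻¹ * W * K)) \ {1}, ∀ᶠ g in 𝓝 (1 : G), g ∉ K * ({l} : Set G) * K⁻¹ := by
      rintro l ⟨⟨hlΓ, -⟩, hl1⟩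
      have hc : IsCompact (K * ({l} : Set G) * K⁻¹) := (hK.mul isCompact_singleton).mul hK.inv
      refine hc.isClosed.isOpen_compl.mem_nhds ?_
      rintro ⟨x, ⟨k, hk, l', hl', rfl⟩, y, hy, hxy⟩
      have hl' : l' = l := hl'
      subst hl'
      have hxy : k * l' * y = 1 := hxy
      have h1 : y⁻¹ ∈ K := Set.mem_inv.1 hy
      have h2 : y⁻¹ = k * l' := (mul_eq_one_iff_eq_inv.1 hxy).symm
      have h3 : k = y⁻¹ * (l'⁻¹) := by rw [h2, mul_inv_cancel_right]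
      have h4 := hD.uniq y⁻¹ 1 ⟨l', hlΓ⟩ (by
        rw [Subgroup.coe_one, inv_one, mul_one]
        exact hKD h1) (by
        show y⁻¹ * l'⁻¹ ∈ D
        rw [← h3]
        exact hKD hk)
      exact hl1 (congrArg Subtype.val h4).symm
    have hall : ∀ᶠ g in 𝓝 (1 : G), ∀ l ∈ ((Γ : Set G) ∩ (K⁻¹ * W * K)) \ {1}, g ∉ K * ({l} : Set G) * K⁻¹ :=
      ((hfinite.subset Set.sdiff_subset).eventually_all).2 hnear
    filter_upwards [hall, hW1] with g hg hgW
    have hsub : {x : G ⧸ Γ | hD.cc g x ≠ 1} ⊆ {x | hD.sec x ∉ K} ∪ {x | hD.sec (g • x) ∉ K} := by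
      intro x hx
      by_contra hn
      rw [Set.mem_union, not_or] at hn
      have h1 : hD.sec x ∈ K := not_not.1 hn.1
      have h2 : hD.sec (g • x) ∈ K := not_not.1 hn.2
      have h3 := hD.sec_mul_cc g x
      apply hx
      by_contra hne
      have h4 : (hD.cc g x : G) = (hD.sec (g • x))⁻¹ * g * hD.sec x := by
        rw [mul_assoc, ← h3, inv_mul_cancel_left]
      refine hg (hD.cc g x : G) ⟨⟨(hD.cc g x).2, ?_⟩, fun h5 => hne (Subtype.ext h5)⟩ ?_
      · rw [h4]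
        exact ⟨_, ⟨_, Set.inv_mem_inv.2 h2, g, hgW, rfl⟩, _, h1, rfl⟩
      · refine ⟨g * hD.sec x, ⟨hD.sec (g • x), h2, _, rfl, h3⟩, (hD.sec x)⁻¹, Set.inv_mem_inv.2 h1, ?_⟩
        show g * hD.sec x * (hD.sec x)⁻¹ = g
        rw [mul_inv_cancel_right]
    calc ν {x : G ⧸ Γ | hD.cc g x ≠ 1} ≤ ν {x | hD.sec x ∉ K} + ν {x | hD.sec (g • x) ∉ K} :=
          (measure_mono hsub).trans (measure_union_le _ _)
      _ = ν {x | hD.sec x ∉ K} + ν {x | hD.sec x ∉ K} := by rw [hshift g K hK]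
      _ ≤ ε / 2 + ε / 2 := add_le_add hKm.le hKm.le
      _ = ε := ENNReal.add_halves ε
  · intro F hF
    obtain ⟨p, hp1, hp2⟩ := exists_equi F
    refine ⟨fun x l => p (hD.sec x * (l : G)), fun l s => ?_, fun f x l => ?_⟩
    · have e : {x : G ⧸ Γ | p (hD.sec x * (l : G)) ∈ s} = hD.sec ⁻¹' ((fun y => y * (l : G)) ⁻¹' (p ⁻¹' s)) := rfl
      rw [e]
      exact hsec _ (measurable_mul_const (l : G) (hp2 s))
    · show p (hD.sec ((f : G) • x) * ((hD.cc f x * l : Γ) : G)) = f * p (hD.sec x * (l : G))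
      rw [← hp1, Subgroup.coe_mul, ← mul_assoc, hD.sec_mul_cc, mul_assoc]
  · intro B hB
    have hcl : IsClosed (Γ : Set G) := Subgroup.isClosed_of_discrete
    have hfν : @IsFiniteMeasure _ mQ ν := by infer_instance
    have hreg : @Measure.Regular _ mQ _ ν := by infer_instance
    exact @kcont_of G (G ⧸ Γ) _ _ _ _ _ _ mQ bQ ν hfν hreg _ hmp B hB
  · intro H _ _ T φ hφ h
    have hcl : IsClosed (Γ : Set G) := Subgroup.isClosed_of_discrete
    have hsm2 : @Measurable _ _ (@Prod.instMeasurableSpace G (G ⧸ Γ) mG mQ) mQ (fun p : G × (G ⧸ Γ) => p.1 • p.2) := by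
      have hc : Continuous (fun p : G × (G ⧸ Γ) => p.1 • p.2) := continuous_smul
      have hb : @BorelSpace (G × (G ⧸ Γ)) _ (@Prod.instMeasurableSpace G (G ⧸ Γ) mG mQ) :=
        @Prod.borelSpace G (G ⧸ Γ) _ mG bG _ mQ bQ _
      exact @Continuous.measurable _ _ _ (@Prod.instMeasurableSpace G (G ⧸ Γ) mG mQ)
        (@BorelSpace.opensMeasurable _ _ _ hb) _ mQ bQ _ hc
    refine @inv_abs G (G ⧸ Γ) Γ H _ _ _ mG bG _ _ mQ _ ν hp _ _ _ _ hmp hsm2 ((1 : G) : G ⧸ Γ) hD.sec hsecm (fun x => ?_)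
      Γ.subtype (fun l => ?_) hD.r (fun l => hD.measurableSet_r_mem {l}) (fun g l => hD.r_mul g l) T φ hφ h
    · conv_rhs => rw [← hD.mk_sec x]
      change ((hD.sec x * 1 : G) : G ⧸ Γ) = _
      rw [mul_one]
    · change (((l : G) * 1 : G) : G ⧸ Γ) = _
      rw [mul_one]
      exact (QuotientGroup.eq.2 (by rw [inv_one, one_mul]; exact l.2)).symm
  · intro H _ _ φ hφ h
    have hcl : IsClosed (Γ : Set G) := Subgroup.isClosed_of_discrete
    have hsm2 : @Measurable _ _ (@Prod.instMeasurableSpace G (G ⧸ Γ) mG mQ) mQ (fun p : G × (G ⧸ Γ) => p.1 • p.2) := by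
      have hc : Continuous (fun p : G × (G ⧸ Γ) => p.1 • p.2) := continuous_smul
      have hb : @BorelSpace (G × (G ⧸ Γ)) _ (@Prod.instMeasurableSpace G (G ⧸ Γ) mG mQ) :=
        @Prod.borelSpace G (G ⧸ Γ) _ mG bG _ mQ bQ _
      exact @Continuous.measurable _ _ _ (@Prod.instMeasurableSpace G (G ⧸ Γ) mG mQ)
        (@BorelSpace.opensMeasurable _ _ _ hb) _ mQ bQ _ hc
    refine @inv_absI G (G ⧸ Γ) Γ H _ _ _ mG bG _ _ mQ _ ν hp _ _ _ hmp hsm2 ((1 : G) : G ⧸ Γ) hD.sec hsecm (fun x => ?_)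
      Γ.subtype (fun l => ?_) hD.r (fun l => hD.measurableSet_r_mem {l}) (fun g l => hD.r_mul g l) φ hφ h
    · conv_rhs => rw [← hD.mk_sec x]
      change ((hD.sec x * 1 : G) : G ⧸ Γ) = _
      rw [mul_one]
    · change (((l : G) * 1 : G) : G ⧸ Γ) = _
      rw [mul_one]
      exact (QuotientGroup.eq.2 (by rw [inv_one, one_mul]; exact l.2)).symm

end Pool.Agent.Helper43.LF
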