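import Pool.Agent.Helper43.LF.Defs

/-!
# Layer LF, block LF5: properties of the spaces `NA`

PROOFS. `isClosed_NA`: intersection over `g` of kernels of continuous maps. `NA_V`: `Vq g (Vq h φ) = Vq (g h) φ` (`vg_mul`). `NA_xE`: `Vq g (xE D φ) = xE (g D) (Vq g φ)` (`vg_xE`, see the proof of `Tb_cen`), `Tb_xE`, and `(pyU μ b R).p D'` commutes with
`iUX R A = Mf (indicator)` (`Mf_ind`; `(hom_rst (xmU_hom b (mulop f)) _ _ fun _ hx => mulop_memX R hx).y D hD x`, see `adj_xE` in `Phi.lean`). `NA_W`: `Vq g` commutes with `Wk k` (see `e2` in the proof of `Tb_cen`), `Tb_W`,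
`XBU k (Mf f x) = Mf (fun γ => f (γ * k)) (XBU k x)` (`Mf_XBU`): if `φ ∈ NA B` then `Mf (1_B (· k)) (Tb (V_g (W_k φ))) = XBU k (Mf 1_B (Tb (V_g φ))) = 0`; and `1_A = 1_A(γ) 1_B(γ k)` at infinity by `Mv R k A B`, so (`Mf_congr`, `Mf_mul`) `Mf 1_A y = Mf 1_A (Mf (1_B (· k)) y)`.
`NA_top`: if `A` is covered at infinity by finitely many sets: `Mf` of the partition: let `F` be finite, `∀ n, ∀ᶠ γ in R.F n, ∃ q ∈ F, γ ∈ A q`, and `iUX (A q) x = 0` for all `q ∈ F`, then `x = 0` (induction on the finset: `x = iUX S x` at infinity with `S = ⋃ A q`;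
`1_S = 1_(A q) + 1_(S' \ A q)` etc.; or: `∏_q (1 - 1_(A q)) = 0` at infinity and `Mf (∏_q (1 - 1_(A q))) x = x`, by induction with `Mf_mul`, `Mf_sub`).
-/

set_option autoImplicit false
set_option linter.unusedSectionVars false

open MeasureTheory Filter Topology

namespace Pool.Agent.Helper43.LF

open Pool.Agent.Helper84 Pool.Agent.Helper84.GN Pool.Agent.Helper84.GN.S3 Pool.Agent.Helper84.GN.S3.X
open Pool.Agent.Helper84.NI Pool.Agent.Helper84.GVN Pool.Agent.Helper90.RK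
open Pool.Agent.Helper96.RK hiding toReg
open Pool.Agent.Helper66.FR Pool.Agent.Helper84.FR Pool.Agent.Helper55.FR
open Pool.Agent.Helper78.BM

variable {G1 X G Λ : Type} [Group G1] [TopologicalSpace G1] [IsTopologicalGroup G1] [MeasurableSpace X] [MulAction G1 X]
  [MeasurableConstSMul G1 X] [Group G] [Group Λ] [Countable Λ] {μ : Measure X} [SMulInvariantMeasure G1 X μ]
  [IsProbabilityMeasure μ] {a : Cocy G1 X Λ} {E : Emb Λ G} {R : Reg G} {b : ℕ → G1}

private theorem ind_le56 (A : Set G) (γ : G) : ‖(A.indicator fun _ => (1 : ℂ)) γ‖ ≤ 1 := by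
  classical
  unfold Set.indicator
  split_ifs <;> simp

theorem isClosed_NA (A : Set G) : IsClosed (NA μ a E R b A : Set (XL μ (L2 G))) := by
  have h : (NA μ a E R b A : Set (XL μ (L2 G))) =
      ⋂ g : G1, {φ | ((iUX R A).comp ((Tb μ a E R b).comp (Vq μ a E g))) φ = 0} := by
    ext φ
    simp only [Set.mem_iInter]
    exact mem_NA
  rw [h]
  exact isClosed_iInter fun g => isClosed_eq (ContinuousLinearMap.continuous _) continuous_const

theorem NA_V {A : Set G} {φ : XL μ (L2 G)} (h : φ ∈ NA μ a E R b A) (g : G1) : Vq μ a E g φ ∈ NA μ a E R b A := by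
  rw [mem_NA] at h ⊢
  intro g'
  have h1 := h (g' * g)
  rwa [vg_mul] at h1

theorem NA_xE {A : Set G} {φ : XL μ (L2 G)} (h : φ ∈ NA μ a E R b A) {D : Set X} (hD : MeasurableSet D) :
    xE μ (L2 G) D φ ∈ NA μ a E R b A := by
  rw [mem_NA] at h ⊢
  intro g
  have hD' : MeasurableSet ((fun x => g⁻¹ • x) ⁻¹' D) := (measurable_const_smul g⁻¹) hD
  rw [vg_xE a (jjR E) g hD, Tb_xE hD', Mf_ind]
  have h1 : Mf μ R (A.indicator fun _ => (1 : ℂ))
      ((pyU μ b R).p ((fun x => g⁻¹ • x) ⁻¹' D) (Tb μ a E R b (Vq μ a E g φ))) =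
      (pyU μ b R).p ((fun x => g⁻¹ • x) ⁻¹' D)
        (Mf μ R (A.indicator fun _ => (1 : ℂ)) (Tb μ a E R b (Vq μ a E g φ))) :=
    (hom_rst (xmU_hom b (mulop (A.indicator fun _ => (1 : ℂ)))) _ _
      fun _ hx => mulop_memX R hx).y _ hD' _
  have h2 := h g
  rw [Mf_ind] at h2
  rw [h1, h2, map_zero]

theorem NA_W {k : G} {A B : Set G} (hk : Mv R k A B) {φ : XL μ (L2 G)} (h : φ ∈ NA μ a E R b B) :
    Wk μ k φ ∈ NA μ a E R b A := by
  classical
  rw [mem_NA] at h ⊢
  intro g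
  have e2 : Vq μ a E g (Wk μ k φ) = Wk μ k (Vq μ a E g φ) :=
    (cl_vg a (A0 := jjR E) (A1 := jjR E)
      (T := ((lamU k).toContinuousLinearEquiv : L2 G →L[ℂ] L2 G))
      (fun l v => ((E.conj.comm l).jjU_lam k v).symm) g φ).symm
  rw [e2, Tb_W]
  have h1 := h g
  generalize Tb μ a E R b (Vq μ a E g φ) = y at h1 ⊢
  rw [Mf_ind] at h1 ⊢
  have h2 : Mf μ R (fun γ => (B.indicator fun _ => (1 : ℂ)) (γ * k)) (XBU R k y) = 0 := by
    rw [← Mf_XBU (ind_le56 B) k y, h1, map_zero]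
  have h3 : Mf μ R (A.indicator fun _ => (1 : ℂ)) (XBU R k y) =
      Mf μ R (fun γ => (A.indicator fun _ => (1 : ℂ)) γ * (B.indicator fun _ => (1 : ℂ)) (γ * k)) (XBU R k y) := by
    refine Mf_congr (C := 1) (D := 1) (ind_le56 A) (fun γ => ?_) (fun n => ?_) _
    · rw [norm_mul]
      exact mul_le_one₀ (ind_le56 A γ) (norm_nonneg _) (ind_le56 B _)
    · refine tendsto_const_nhds.congr' ?_
      filter_upwards [hk n] with γ hγ
      by_cases hA : γ ∈ A
      · rw [Set.indicator_of_mem hA, Set.indicator_of_mem (hγ hA)]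
        norm_num
      · rw [Set.indicator_of_notMem hA]
        norm_num
  rw [h3, ← Mf_mul (C := 1) (D := 1) (ind_le56 A) fun γ => ind_le56 B _, h2, map_zero]

theorem NA_anti {A B : Set G} (hk : ∀ n, ∀ᶠ γ in R.F n, γ ∈ A → γ ∈ B) {φ : XL μ (L2 G)} (h : φ ∈ NA μ a E R b B) :
    φ ∈ NA μ a E R b A := by
  have h1 : Mv R 1 A B := fun n => (hk n).mono fun γ h2 h3 => by
    rw [mul_one]
    exact h2 h3
  have h2 := NA_W h1 h
  rwa [Wk_one] at h2

private theorem prod_le56 {ι : Type} (F : Finset ι) (A : ι → Set G) (γ : G) :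
    ‖∏ q ∈ F, (1 - ((A q).indicator fun _ => (1 : ℂ)) γ)‖ ≤ 1 := by
  classical
  rw [norm_prod]
  refine Finset.prod_le_one (fun q _ => norm_nonneg _) fun q _ => ?_
  by_cases hA : γ ∈ A q
  · rw [Set.indicator_of_mem hA]
    norm_num
  · rw [Set.indicator_of_notMem hA]
    norm_num

theorem cover_zero {ι : Type} (F : Finset ι) (A : ι → Set G) (hF : ∀ n, ∀ᶠ γ in R.F n, ∃ q ∈ F, γ ∈ A q)
    {x : XUa μ R} (hx : ∀ q ∈ F, iUX R (A q) x = 0) : x = 0 := by
  classical
  have h1 : ∀ S : Finset ι, (∀ q ∈ S, iUX R (A q) x = 0) →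
      Mf μ R (fun γ => ∏ q ∈ S, (1 - ((A q).indicator fun _ => (1 : ℂ)) γ)) x = x := by
    intro S
    induction S using Finset.induction_on with
    | empty =>
      intro _
      simp only [Finset.prod_empty]
      rw [Mf_const, one_smul]
    | insert q S hq ih =>
      intro hS
      have h2 := ih fun q' hq' => hS q' (Finset.mem_insert_of_mem hq')
      have h3 := hS q (Finset.mem_insert_self q S)
      rw [Mf_ind] at h3
      simp only [Finset.prod_insert hq]
      rw [← Mf_mul (f := fun γ => 1 - ((A q).indicator fun _ => (1 : ℂ)) γ) (C := 2) (D := 1)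
        (fun γ => (norm_sub_le _ _).trans (by
          have := ind_le56 (A q) γ
          rw [norm_one]
          linarith)) (prod_le56 S A), h2,
        Mf_sub (f := fun _ => (1 : ℂ)) (C := 1) (D := 1) (fun _ => by simp) (ind_le56 (A q)), h3,
        Mf_const, one_smul, sub_zero]
  rw [← h1 F hx]
  refine Mf_zero (C := 1) (prod_le56 F A) (fun n => ?_) x
  refine tendsto_const_nhds.congr' ?_
  filter_upwards [hF n] with γ hγ
  obtain ⟨q, hq, hqA⟩ := hγ
  symm
  refine Finset.prod_eq_zero hq ?_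
  rw [Set.indicator_of_mem hqA, sub_self]

end Pool.Agent.Helper43.LF
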