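import Pool.Agent.Helper78.BM.Phi
import Pool.Agent.Helper78.BM.Erg
import Pool.Agent.Helper78.BM.Pos
import Pool.Agent.Helper55.OB.Defs

/-!
# Project OB (MP_0f6f3f_an, target `so(2,n)`), layer LF (Lemma F and matching): definitions

`CocI μ a`: the equivariant maps `X → (Λ → H)` are constant (ergodicity of `G₁` on `G₁ / Γ₁`, in the form needed for fields of operators). `Mv R k A B`: the right translation by `k` moves `A` into `B` at
infinity. `NA μ a E R b A`: the space of the `φ` such that `1_A T V_g φ = 0` for all `g`.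
Real frames: `FrR N r`: the real `N × r` matrices `a` with `aᵀ a = 1`, `aᵀ J a = 0` (`r = 1, 2`). `Vr r S γ`: the first `r` columns of `kR γ`. `Bl S a ρ`: the ball of the positions around `a`.
`hyp a w t`: the element of `O(J)` which is `e^t` on the span of `a`, `e^{-t}` on the span of `w`. `Prox P r`: up to small errors all `hyp a w t` are of the form `± (P k)ᵀ`, with arbitrarily large `t`.
-/

set_option autoImplicit false
set_option linter.unusedSectionVars false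

open MeasureTheory Filter Topology Matrix

namespace Pool.Agent.Helper43.LF

open Pool.Agent.Helper84 Pool.Agent.Helper84.GN Pool.Agent.Helper84.GN.S3 Pool.Agent.Helper84.GN.S3.X
open Pool.Agent.Helper84.NI Pool.Agent.Helper84.GVN Pool.Agent.Helper90.RK
open Pool.Agent.Helper96.RK hiding toReg
open Pool.Agent.Helper66.FR Pool.Agent.Helper84.FR Pool.Agent.Helper55.FR
open Pool.Agent.Helper78.BM Pool.Agent.Helper55.OB

section Ops

variable {G1 X G Λ : Type} [Group G1] [MeasurableSpace X] [MulAction G1 X]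
  [MeasurableConstSMul G1 X] [Group G] [Group Λ] [Countable Λ]

/-- The equivariant maps to the functions on `Λ` are constant. -/
def CocI (μ : Measure X) (a : Cocy G1 X Λ) : Prop :=
  ∀ (H : Type) (_ : NormedAddCommGroup H) (_ : InnerProductSpace ℂ H) (φ : Λ → X → H), (∀ l, StronglyMeasurable (φ l)) →
    (∀ g : G1, ∀ᵐ x ∂μ, ∀ l, φ l (g • x) = φ ((a.a g x)⁻¹ * l) x) → ∃ v : H, ∀ᵐ x ∂μ, ∀ l, φ l x = v

/-- The right translation by `k` moves `A` into `B` at infinity. -/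
def Mv (R : Reg G) (k : G) (A B : Set G) : Prop := ∀ n, ∀ᶠ γ in R.F n, γ ∈ A → γ * k ∈ B

/-- The space of the `φ` such that `1_A T V_g φ = 0` for all `g`. -/
noncomputable def NA (μ : Measure X) [SMulInvariantMeasure G1 X μ] [IsProbabilityMeasure μ] (a : Cocy G1 X Λ)
    (E : Emb Λ G) (R : Reg G) (b : ℕ → G1) (A : Set G) : Submodule ℂ (XL μ (L2 G)) where
  carrier := {φ | ∀ g : G1, iUX R A (Tb μ a E R b (Vq μ a E g φ)) = 0}
  add_mem' := by
    intro φ ψ hφ hψ g
    rw [map_add, map_add, map_add, hφ g, hψ g, add_zero]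
  zero_mem' := fun g => by rw [map_zero, map_zero, map_zero]
  smul_mem' := by
    intro c φ hφ g
    rw [map_smul, map_smul, map_smul, hφ g, smul_zero]

theorem mem_NA {μ : Measure X} [SMulInvariantMeasure G1 X μ] [IsProbabilityMeasure μ] {a : Cocy G1 X Λ}
    {E : Emb Λ G} {R : Reg G} {b : ℕ → G1} {A : Set G} {φ : XL μ (L2 G)} :
    φ ∈ NA μ a E R b A ↔ ∀ g : G1, iUX R A (Tb μ a E R b (Vq μ a E g φ)) = 0 := Iff.rfl

end Ops

section Geo

/-- Real orthonormal isotropic frames. -/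
def FrR (N r : ℕ) : Set (Matrix (Fin N) (Fin r) ℝ) := {a | aᵀ * a = 1 ∧ aᵀ * JR N * a = 0}

variable {G : Type} [Group G] {N : ℕ} {P : PH G N}

/-- The first `r` right singular vectors, real parts. -/
noncomputable def Vr (r : ℕ) (S : Sv P) (γ : G) : Matrix (Fin N) (Fin r) ℝ :=
  Matrix.of fun i j => if h : (j : ℕ) < N then (S.kR γ i ⟨j, h⟩).re else 0

/-- The real parts of the matrices of the representation. -/
noncomputable def PR (P : PH G N) (k : G) : Matrix (Fin N) (Fin N) ℝ := Matrix.of fun i j => (P.ι k i j).re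

/-- The square of the Frobenius norm. -/
noncomputable def nn {m r : ℕ} (A : Matrix (Fin m) (Fin r) ℝ) : ℝ := ∑ i, ∑ j, A i j ^ 2

/-- The balls of the positions. -/
def Bl {r : ℕ} (S : Sv P) (a : Matrix (Fin N) (Fin r) ℝ) (ρ : ℝ) : Set G :=
  {γ | nn (Vr r S γ - a * (aᵀ * Vr r S γ)) < ρ}

/-- The hyperbolic element with attracting space `a` and repelling space `w`. -/
noncomputable def hyp {r : ℕ} (a w : Matrix (Fin N) (Fin r) ℝ) (t : ℝ) : Matrix (Fin N) (Fin N) ℝ :=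
  1 + (Real.exp t - 1) • (a * (wᵀ * JR N * a)⁻¹ * wᵀ * JR N) + (Real.exp (-t) - 1) • (w * (aᵀ * JR N * w)⁻¹ * aᵀ * JR N)

/-- Up to small errors the `hyp a w t` are of the form `± (P k)ᵀ`. -/
def Prox (P : PH G N) (r : ℕ) : Prop :=
  ∀ a ∈ FrR N r, ∀ w ∈ FrR N r, (wᵀ * JR N * a).det ≠ 0 → ∀ ε : ℝ, 0 < ε → ∀ M : ℝ,
    ∃ (k : G) (t : ℝ) (u u' : Matrix (Fin N) (Fin N) ℝ) (c : ℝ), M ≤ t ∧ nn (u - 1) ≤ ε ∧ nn (u' - 1) ≤ ε ∧
      (c = 1 ∨ c = -1) ∧ (PR P k)ᵀ = c • (u * hyp a w t * u')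

/-- The first `r` indices are the first block of the stratum. -/
structure Sep {S : Sv P} (T : Str S) (r : ℕ) : Prop where
  lt : ∀ i j : Fin N, (i : ℕ) < r → r ≤ (j : ℕ) → T.b i < T.b j
  eq : ∀ i j : Fin N, (i : ℕ) < r → (j : ℕ) < r → T.b i = T.b j

/-- The pair of positions is transversal. -/
def Opp (r : ℕ) (S : Sv P) (c : ℝ) (γ γ' : G) : Prop := c ≤ |((Vr r S γ)ᵀ * JR N * Vr r S γ').det|

end Geo

section Zs

variable {G1 X G Λ : Type} [Group G1] [MeasurableSpace X] [MulAction G1 X]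
  [MeasurableConstSMul G1 X] [Group G] [Group Λ] [Countable Λ] {N : ℕ} {P : PH G N}

/-- The set of the `g` such that `⟨V_g T* f T φ, T'* f' T' ψ⟩ = 0` for all opposite `f`, `f'`. -/
def Zs (μ : Measure X) [SMulInvariantMeasure G1 X μ] [IsProbabilityMeasure μ] (a : Cocy G1 X Λ)
    (E : Emb Λ G) (R : Reg G) (pd : PD G) (b b' : ℕ → G1) (r : ℕ) (S : Sv P) : Set G1 :=
  {g | ∀ f f' : G → ℂ, UC pd f → UC pd f' → (∀ γ, ‖f γ‖ ≤ 1) → (∀ γ, ‖f' γ‖ ≤ 1) → ∀ c : ℝ, 0 < c →
    (∀ γ γ', f γ ≠ 0 → f' γ' ≠ 0 → Opp r S c γ γ') → ∀ φ ψ : XL μ (L2 G),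
      inner ℂ (Vq μ a E g (ContinuousLinearMap.adjoint (Tb μ a E R b) (Mf μ R f (Tb μ a E R b φ))))
        (ContinuousLinearMap.adjoint (Tb μ a E R b') (Mf μ R f' (Tb μ a E R b' ψ))) = (0 : ℂ)}

end Zs

end Pool.Agent.Helper43.LF
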