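import Pool.Agent.Helper43.LF.Pos

/-!
# Layer LF, block LF22: the transversality in terms of the projections

PROOF. `kR γ` is real (`hS.realR`), so `px S γ` is the complexification of `V Vᵀ`, `V = Vr 1 S γ` (`N × 1`), `pl S γ` that of `V Vᵀ`, `V = Vr 2 S γ` (`N × 2`), and `JJ N` that of `JR N` (all for `N ≥ 5`). `D = Vᵀ J V'` (`r × r`). `trace (V Vᵀ J V' V'ᵀ J) = trace ((Vᵀ J V') (V'ᵀ J V)) = trace (D Dᵀ)` (`J` symmetric, `Matrix.trace_mul_cycle`). `r = 1`: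
`= (det D)²`. `r = 2`: `(V Vᵀ J V' V'ᵀ J)² ` has trace `trace ((D Dᵀ)²)`, and `trace (A)² - trace (A²) = 2 det A` for a `2 × 2` matrix `A = D Dᵀ`, `det A = (det D)²`.
-/

set_option autoImplicit false

open Filter Topology Matrix

namespace Pool.Agent.Helper43.LF

open Pool.Agent.Helper84 Pool.Agent.Helper84.GN Pool.Agent.Helper84.GN.S3
open Pool.Agent.Helper84.NI Pool.Agent.Helper84.GVN Pool.Agent.Helper90.RK
open Pool.Agent.Helper55.OB

variable {G : Type} [Group G] {N : ℕ} {P : PH G N} {S : Sv P}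

private theorem mapmul43 {n : ℕ} (A B : Matrix (Fin n) (Fin n) ℝ) :
    A.map Complex.ofReal * B.map Complex.ofReal = (A * B).map Complex.ofReal := by
  ext i j
  rw [Matrix.mul_apply, Matrix.map_apply, Matrix.mul_apply, Complex.ofReal_sum]
  refine Finset.sum_congr rfl fun k _ => ?_
  rw [Matrix.map_apply, Matrix.map_apply, Complex.ofReal_mul]

private theorem kre43 (hS : SO2 P S) (γ : G) (i j : Fin N) : ((S.kR γ i j).re : ℂ) = S.kR γ i j :=
  Complex.conj_eq_iff_re.1 (congrFun (congrFun (hS.realR γ) i) j)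

private theorem proj43 (hS : SO2 P S) {r : ℕ} (hr : r ≤ N) (e : Fin N → ℂ) (he : ∀ k : Fin N, e k = if (k : ℕ) < r then 1 else 0) (γ : G) :
    S.kR γ * diagonal e * (S.kR γ)ᴴ = (Vr r S γ * (Vr r S γ)ᵀ).map Complex.ofReal := by
  ext i j
  rw [Matrix.mul_apply, Matrix.map_apply, Matrix.mul_apply, Complex.ofReal_sum]
  have h1 : ∀ k : Fin N, (S.kR γ * diagonal e) i k * (S.kR γ)ᴴ k j =
      if (k : ℕ) < r then (((S.kR γ i k).re * (S.kR γ j k).re : ℝ) : ℂ) else 0 := by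
    intro k
    rw [Matrix.mul_diagonal, Matrix.conjTranspose_apply, he]
    split_ifs with h
    · rw [mul_one, Complex.ofReal_mul, kre43 hS, kre43 hS]
      congr 1
      exact congrFun (congrFun (hS.realR γ) j) k
    · rw [mul_zero, zero_mul]
  rw [Finset.sum_congr rfl fun k _ => h1 k]
  rw [← Finset.sum_filter]
  symm
  refine Finset.sum_bij (fun (k : Fin r) _ => Fin.castLE hr k) (fun k _ => ?_) (fun k _ k' _ h => ?_) (fun k hk => ?_) (fun k _ => ?_)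
  · simp
  · exact Fin.castLE_injective hr h
  · rw [Finset.mem_filter] at hk
    exact ⟨⟨k, hk.2⟩, Finset.mem_univ _, Fin.ext rfl⟩
  · rw [Matrix.transpose_apply]
    have hk : (k : ℕ) < N := lt_of_lt_of_le k.2 hr
    have e1 : ∀ l : Fin N, Vr r S γ l k = (S.kR γ l (Fin.castLE hr k)).re := by
      intro l
      unfold Vr
      rw [Matrix.of_apply, dif_pos hk]
      rfl
    rw [e1, e1]

private theorem JJ_map43 (N : ℕ) : JJ N = (JR N).map Complex.ofReal := by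
  ext i j
  rw [Matrix.map_apply]
  unfold JJ JR
  rw [Matrix.of_apply, Matrix.of_apply]
  split_ifs
  · exact Complex.ofReal_one.symm
  · exact Complex.ofReal_zero.symm

private theorem map4_43 (A B C D : Matrix (Fin N) (Fin N) ℝ) :
    A.map Complex.ofReal * B.map Complex.ofReal * C.map Complex.ofReal * D.map Complex.ofReal =
      (A * B * C * D).map Complex.ofReal := by
  rw [mapmul43, mapmul43, mapmul43]

private theorem tr43 (A : Matrix (Fin N) (Fin N) ℝ) : (A.map Complex.ofReal).trace = ((A.trace : ℝ) : ℂ) := by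
  unfold Matrix.trace
  rw [Complex.ofReal_sum]
  rfl

/-- `tr (V Vᵀ J V' V'ᵀ J) = tr (D Dᵀ)`. -/
private theorem trD43 {r : ℕ} (V V' : Matrix (Fin N) (Fin r) ℝ) :
    (V * Vᵀ * JR N * (V' * V'ᵀ) * JR N).trace = ((Vᵀ * JR N * V') * (Vᵀ * JR N * V')ᵀ).trace := by
  have e : (Vᵀ * JR N * V')ᵀ = V'ᵀ * JR N * V := by
    rw [Matrix.transpose_mul, Matrix.transpose_mul, Matrix.transpose_transpose, JR_symm, Matrix.mul_assoc]
  rw [e]
  have e1 : V * Vᵀ * JR N * (V' * V'ᵀ) * JR N = V * (Vᵀ * JR N * V' * (V'ᵀ * JR N)) := by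
    simp only [Matrix.mul_assoc]
  rw [e1, Matrix.trace_mul_comm]
  congr 1
  simp only [Matrix.mul_assoc]

private theorem sqD43 {r : ℕ} (V V' : Matrix (Fin N) (Fin r) ℝ) :
    ((V * Vᵀ * JR N * (V' * V'ᵀ) * JR N) ^ 2).trace = (((Vᵀ * JR N * V') * (Vᵀ * JR N * V')ᵀ) ^ 2).trace := by
  have e : (Vᵀ * JR N * V')ᵀ = V'ᵀ * JR N * V := by
    rw [Matrix.transpose_mul, Matrix.transpose_mul, Matrix.transpose_transpose, JR_symm, Matrix.mul_assoc]
  rw [e]
  have e1 : V * Vᵀ * JR N * (V' * V'ᵀ) * JR N = V * (Vᵀ * JR N * V' * (V'ᵀ * JR N)) := by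
    simp only [Matrix.mul_assoc]
  rw [e1, pow_two, pow_two]
  have e2 : V * (Vᵀ * JR N * V' * (V'ᵀ * JR N)) * (V * (Vᵀ * JR N * V' * (V'ᵀ * JR N))) =
      V * ((Vᵀ * JR N * V' * (V'ᵀ * JR N)) * (V * (Vᵀ * JR N * V' * (V'ᵀ * JR N)))) := by
    simp only [Matrix.mul_assoc]
  rw [e2, Matrix.trace_mul_comm]
  congr 1
  simp only [Matrix.mul_assoc]

private theorem two43 (B : Matrix (Fin 2) (Fin 2) ℝ) : B.trace ^ 2 - (B ^ 2).trace = 2 * B.det := by
  rw [pow_two B, Matrix.trace_fin_two, Matrix.trace_fin_two, Matrix.det_fin_two, Matrix.mul_apply, Matrix.mul_apply,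
    Fin.sum_univ_two, Fin.sum_univ_two]
  ring

theorem op1_eq (hS : SO2 P S) (γ γ' : G) : ‖(px S γ * JJ N * px S γ' * JJ N).trace‖ = ((Vr 1 S γ)ᵀ * JR N * Vr 1 S γ').det ^ 2 := by
  have hN := hS.hN
  have h1 : ∀ γ, px S γ = (Vr 1 S γ * (Vr 1 S γ)ᵀ).map Complex.ofReal := by
    intro γ
    refine proj43 hS (by omega) _ (fun k => ?_) γ
    by_cases h : (k : ℕ) = 0
    · rw [if_pos h, if_pos (by omega)]
    · rw [if_neg h, if_neg (by omega)]
  rw [h1, h1, JJ_map43, map4_43, tr43, trD43]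
  rw [Complex.norm_real]
  have e : ((Vr 1 S γ)ᵀ * JR N * Vr 1 S γ' * ((Vr 1 S γ)ᵀ * JR N * Vr 1 S γ')ᵀ).trace = ((Vr 1 S γ)ᵀ * JR N * Vr 1 S γ').det ^ 2 := by
    rw [Matrix.trace_fin_one, Matrix.mul_apply, Fin.sum_univ_one, Matrix.transpose_apply, Matrix.det_fin_one]
    ring
  rw [e, Real.norm_eq_abs, abs_of_nonneg (sq_nonneg _)]

theorem op2_eq (hS : SO2 P S) (γ γ' : G) : ‖(pl S γ * JJ N * pl S γ' * JJ N).trace ^ 2 - ((pl S γ * JJ N * pl S γ' * JJ N) ^ 2).trace‖ =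
    2 * ((Vr 2 S γ)ᵀ * JR N * Vr 2 S γ').det ^ 2 := by
  have hN := hS.hN
  have h1 : ∀ γ, pl S γ = (Vr 2 S γ * (Vr 2 S γ)ᵀ).map Complex.ofReal := by
    intro γ
    refine proj43 hS (by omega) _ (fun k => ?_) γ
    by_cases h : (k : ℕ) ≤ 1
    · rw [if_pos h, if_pos (by omega)]
    · rw [if_neg h, if_neg (by omega)]
  rw [h1, h1, JJ_map43, map4_43]
  have e2 : (((Vr 2 S γ * (Vr 2 S γ)ᵀ * JR N * (Vr 2 S γ' * (Vr 2 S γ')ᵀ) * JR N).map Complex.ofReal) ^ 2 : MN N) =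
      ((Vr 2 S γ * (Vr 2 S γ)ᵀ * JR N * (Vr 2 S γ' * (Vr 2 S γ')ᵀ) * JR N) ^ 2).map Complex.ofReal := by
    rw [pow_two, pow_two, mapmul43]
  rw [e2, tr43, tr43, trD43, sqD43, ← Complex.ofReal_pow, ← Complex.ofReal_sub, two43, Complex.norm_real, Matrix.det_mul,
    Matrix.det_transpose, Real.norm_eq_abs, abs_of_nonneg (by nlinarith [sq_nonneg (((Vr 2 S γ)ᵀ * JR N * Vr 2 S γ').det)])]
  ring

end Pool.Agent.Helper43.LF
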