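import Pool.Agent.Helper43.LF.LM
import Pool.Agent.Helper43.LF.NAp

/-!
# Layer LF, block LF6: Lemma F, abstract form

PROOF. For `A ⊂ G` let `P_A` be the orthogonal projection of `XL μ (L2 G)` onto `NA A` (closed, `isClosed_NA`; complete; `Submodule.starProjection` or `orthogonalProjection`). It commutes with `xE D` (self-adjoint, `xE_symm`, and leaves `NA A` invariant) and with the
unitaries `Vq g` (both `Vq g` and `Vq g⁻¹` leave `NA A` invariant, `NA_V`; see `proj_comm`, used in `XPpr_sS`, `Helper78/BM/Bd.lean`). Let `e = cst δ_1`, `θ(A) = ‖P_A e‖²`.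
(1) `Mv R k A B → θ(B) ≤ θ(A)`, and if `θ(A) ≤ θ(B)` too, then `NA A = W_k (NA B)`, that is `ψ ∈ NA A → W_k⁻¹ ψ ∈ NA B`. Indeed let `P' = W_k P_B W_k⁻¹`, the projection onto `W_k (NA B) ⊂ NA A` (`NA_W`). `P'` commutes with `xE`, `Vq` (as `W_k` does), `P_A P' = P' = P' P_A`, so
`Z = P_A - P'` satisfies `‖P_A e‖² = ‖P' e‖² + ‖Z e‖²`, and `‖P' e‖ = ‖P_B W_k⁻¹ e‖ = ‖P_B (cst δ_(k⁻¹))‖ = ‖P_B e‖` by `lm`. If equality: `Z e = 0`, `Z = 0` by `lm_zero`.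
(2) For `q1`, `q2` let `ρ0` be as in `ha q1 q2`, and `ρ0'` as in `ha q2 q1`; for `ρ1, ρ2 < min`: `A1 = Bl q1 ρ1`, `A2 = Bl q2 ρ2`. `ha q1 q2`: `k` moves `A1`, `A2` into `A1`: `θ(A1) ≤ θ(A2)`. `ha q2 q1`: `θ(A2) ≤ θ(A1)`. So `θ(A1) = θ(A2)` and by (1)
(with the `k` of `ha q1 q2`, for `A = A1, B = A1` and `A = A2, B = A1`): `NA A1 = W_k (NA A1) = NA A2`.
(3) So for every `q` there is `ρ(q) > 0` such that `NA (Bl q ρ')` does not depend on `ρ' < ρ(q)` (case `q1 = q2 = q`), call it `N_q`, and `N_q = N_q'` for all `q`, `q'` (choose `ρ1`, `ρ2` small). Call it `N`. `NA (Bl q ρ) ≤ N` for all `q`, `ρ > 0` (`NA_anti`, `hmono`).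
(4) `W_k N ⊂ N` for all `k`: take `q`, `q'` from `hc k`, `ρ'` small, `ρ` from `hc`, smaller than `ρ(q)` (by `hmono` a smaller `ρ` also works: if `γ ∈ Bl q ρ1 ⊂ Bl q ρ`): `Mv R k (Bl q ρ) (Bl q' ρ')`, so `W_k (NA (Bl q' ρ')) ⊂ NA (Bl q ρ)`.
(5) The projection on `N` commutes with `xE`, `W_k` (all `k`), `Vq g` (all `g`): by `ErgU` it is a scalar `c`, so `N = 0` (then we are done by (3)) or (`c ≠ 0`) every `φ` is in `N`. In this case `φ = e`: `iUX (Bl q (ρ q)) (Tb (Vq 1 e)) = 0` for all `q`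
(with `ρ q` small), by `hb` and `cover_zero`: `Tb (Vq 1 e) = Tb e = XPpr R (vec μ a E b) = 0` (`vg_one`, `Tb_one`), contradiction.
-/

set_option autoImplicit false
set_option linter.unusedSectionVars false

open MeasureTheory Filter Topology

namespace Pool.Agent.Helper43.LF

open Pool.Agent.Helper84 Pool.Agent.Helper84.GN Pool.Agent.Helper84.GN.S3 Pool.Agent.Helper84.GN.S3.X
open Pool.Agent.Helper84.NI Pool.Agent.Helper84.GVN Pool.Agent.Helper90.RK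
open Pool.Agent.Helper96.RK hiding toReg
open Pool.Agent.Helper66.FR Pool.Agent.Helper84.FR Pool.Agent.Helper55.FR
open Pool.Agent.Helper78.BM

section Hilb

variable {H : Type} [NormedAddCommGroup H] [InnerProductSpace ℂ H]

private theorem inner_star93 {V : Submodule ℂ H} [V.HasOrthogonalProjection] {x : H} (hx : x ∈ V) (y : H) :
    inner ℂ x (V.starProjection y) = inner ℂ x y := by
  have h := (Submodule.mem_orthogonal _ _).1 (Submodule.sub_starProjection_mem_orthogonal (K := V) y) x hx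
  rw [inner_sub_right, sub_eq_zero] at h
  exact h.symm

private theorem abs193 (V1 V2 : Submodule ℂ H) [V1.HasOrthogonalProjection] [V2.HasOrthogonalProjection]
    {W W' : H →L[ℂ] H} (hW : ∀ x y, inner ℂ (W x) (W y) = inner ℂ x y) (h1 : ∀ x, W (W' x) = x)
    (h : ∀ x ∈ V2, W x ∈ V1) (e : H) :
    ‖V1.starProjection e‖ ^ 2 = ‖V2.starProjection (W' e)‖ ^ 2 +
      ‖V1.starProjection e - W (V2.starProjection (W' e))‖ ^ 2 := by
  set q := W (V2.starProjection (W' e)) with hq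
  have hqV : q ∈ V1 := h _ (Submodule.starProjection_apply_mem V2 _)
  have e1 : inner ℂ q (V1.starProjection e) = inner ℂ q e := inner_star93 hqV e
  have e2 : inner ℂ q e = inner ℂ (V2.starProjection (W' e)) (W' e) := by
    have h3 := hW (V2.starProjection (W' e)) (W' e)
    rw [h1] at h3
    exact h3
  have e3 : inner ℂ (V2.starProjection (W' e)) (V2.starProjection (W' e)) =
      inner ℂ (V2.starProjection (W' e)) (W' e) :=
    inner_star93 (Submodule.starProjection_apply_mem V2 _) _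
  have e4 : inner ℂ q q = inner ℂ (V2.starProjection (W' e)) (V2.starProjection (W' e)) := hW _ _
  have e5 : inner ℂ q (V1.starProjection e - q) = 0 := by
    rw [inner_sub_right, e1, e2, e4, e3, sub_self]
  have e6 : ‖q‖ = ‖V2.starProjection (W' e)‖ := by
    rw [inner_self_eq_norm_sq_to_K, inner_self_eq_norm_sq_to_K] at e4
    have e7 : ‖q‖ ^ 2 = ‖V2.starProjection (W' e)‖ ^ 2 := by exact_mod_cast e4
    exact (sq_eq_sq₀ (norm_nonneg _) (norm_nonneg _)).1 e7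
  have e8 := norm_add_sq_eq_norm_sq_add_norm_sq_of_inner_eq_zero q (V1.starProjection e - q) e5
  rw [add_sub_cancel] at e8
  rw [← e6, pow_two, pow_two, pow_two]
  exact e8

end Hilb

variable {G1 X G Λ : Type} [Group G1] [TopologicalSpace G1] [IsTopologicalGroup G1] [MeasurableSpace X] [MulAction G1 X]
  [MeasurableConstSMul G1 X] [Group G] [Group Λ] [Countable Λ] {μ : Measure X} [SMulInvariantMeasure G1 X μ]
  [IsProbabilityMeasure μ] {a : Cocy G1 X Λ} {E : Emb Λ G} {R : Reg G} {b : ℕ → G1}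

private theorem cl_xE93 (T : L2 G →L[ℂ] L2 G) {D : Set X} (hD : MeasurableSet D) (φ : XL μ (L2 G)) :
    cl μ T (xE μ (L2 G) D φ) = xE μ (L2 G) D (cl μ T φ) := by
  refine xl_ext ?_
  filter_upwards [cl_apply T (xE μ (L2 G) D φ), xE_apply hD φ, xE_apply hD (cl μ T φ), cl_apply T φ] with x h1 h2 h3 h4
  rw [h1, h2, h3, h4]
  by_cases h : x ∈ D
  · rw [Set.indicator_of_mem h, one_smul, one_smul]
  · rw [Set.indicator_of_notMem h, zero_smul, zero_smul, map_zero]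

private theorem Vq_Wk93 (q : G1) (k : G) (φ : XL μ (L2 G)) : Vq μ a E q (Wk μ k φ) = Wk μ k (Vq μ a E q φ) :=
  (cl_vg a (A0 := jjR E) (A1 := jjR E) (T := ((lamU k).toContinuousLinearEquiv : L2 G →L[ℂ] L2 G))
    (fun l v => ((E.conj.comm l).jjU_lam k v).symm) q φ).symm

private theorem Wk_dl93 (k : G) : Wk μ k (cst μ (dl 1 : L2 G)) = cst μ (dl k) := by
  rw [cl_cst]
  congr 1
  change lamU k (dl 1) = dl k
  rw [lamU_dl, mul_one]

noncomputable local instance complNA93 (A : Set G) : CompleteSpace (NA μ a E R b A) :=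
  (isClosed_NA A).completeSpace_coe

/-- The projection on `NA A`. -/
private noncomputable def Pj93 (μ : Measure X) [SMulInvariantMeasure G1 X μ] [IsProbabilityMeasure μ] (a : Cocy G1 X Λ)
    (E : Emb Λ G) (R : Reg G) (b : ℕ → G1) (A : Set G) : XL μ (L2 G) →L[ℂ] XL μ (L2 G) :=
  (NA μ a E R b A).starProjection

private theorem Pj_xE93 (A : Set G) (D : Set X) (hD : MeasurableSet D) (φ : XL μ (L2 G)) :
    Pj93 μ a E R b A (xE μ (L2 G) D φ) = xE μ (L2 G) D (Pj93 μ a E R b A φ) :=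
  proj_comm (V := NA μ a E R b A) (T := xE μ (L2 G) D) (T' := xE μ (L2 G) D) (xE_symm hD)
    (fun _ hx => NA_xE hx hD) (fun _ hx => NA_xE hx hD) φ

private theorem Pj_Vq93 (A : Set G) (g : G1) (φ : XL μ (L2 G)) :
    Pj93 μ a E R b A (Vq μ a E g φ) = Vq μ a E g (Pj93 μ a E R b A φ) :=
  proj_comm (V := NA μ a E R b A) (T := Vq μ a E g) (T' := Vq μ a E g⁻¹)
    (fun x y => by rw [← inner_Vq (a := a) (E := E) g x, Vq_inv'])
    (fun _ hx => NA_V hx g) (fun _ hx => NA_V hx g⁻¹) φ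

private theorem Pj_mem93 (A : Set G) (φ : XL μ (L2 G)) : Pj93 μ a E R b A φ ∈ NA μ a E R b A :=
  Submodule.starProjection_apply_mem _ _

private theorem Pj_eq93 {A : Set G} {φ : XL μ (L2 G)} (h : φ ∈ NA μ a E R b A) : Pj93 μ a E R b A φ = φ :=
  Submodule.starProjection_eq_self_iff.2 h

private theorem step193 (hI : CocI μ a) (hF : FullE E) {k : G} {A B : Set G} (hk : Mv R k A B) :
    ‖Pj93 μ a E R b B (cst μ (dl 1))‖ ^ 2 ≤ ‖Pj93 μ a E R b A (cst μ (dl 1))‖ ^ 2 ∧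
      (‖Pj93 μ a E R b A (cst μ (dl 1))‖ ^ 2 ≤ ‖Pj93 μ a E R b B (cst μ (dl 1))‖ ^ 2 →
        ∀ ψ ∈ NA μ a E R b A, Wk μ k⁻¹ ψ ∈ NA μ a E R b B) := by
  have h := abs193 (NA μ a E R b A) (NA μ a E R b B) (W := Wk μ k) (W' := Wk μ k⁻¹)
    (inner_Wk k) (Wk_inv' k) (fun x hx => NA_W hk hx) (cst μ (dl 1))
  change ‖Pj93 μ a E R b A (cst μ (dl 1))‖ ^ 2 = ‖Pj93 μ a E R b B (Wk μ k⁻¹ (cst μ (dl 1)))‖ ^ 2 +
    ‖Pj93 μ a E R b A (cst μ (dl 1)) - Wk μ k (Pj93 μ a E R b B (Wk μ k⁻¹ (cst μ (dl 1))))‖ ^ 2 at h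
  have h3 : ‖Pj93 μ a E R b B (Wk μ k⁻¹ (cst μ (dl 1)))‖ = ‖Pj93 μ a E R b B (cst μ (dl 1))‖ := by
    rw [Wk_dl93]
    exact lm hI hF (Y := Pj93 μ a E R b B) (Pj_xE93 B) (Pj_Vq93 B) k⁻¹
  rw [h3] at h
  have hnn := sq_nonneg ‖Pj93 μ a E R b A (cst μ (dl 1)) - Wk μ k (Pj93 μ a E R b B (Wk μ k⁻¹ (cst μ (dl 1))))‖
  refine ⟨by linarith, fun h4 ψ hψ => ?_⟩
  set Z : XL μ (L2 G) →L[ℂ] XL μ (L2 G) := Pj93 μ a E R b A -
    (Wk μ k).comp ((Pj93 μ a E R b B).comp (Wk μ k⁻¹)) with hZ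
  have hZa : ∀ φ, Z φ = Pj93 μ a E R b A φ - Wk μ k (Pj93 μ a E R b B (Wk μ k⁻¹ φ)) := fun φ => rfl
  have h5 : Z (cst μ (dl 1)) = 0 := by
    have h6 : ‖Z (cst μ (dl 1))‖ ^ 2 = 0 := by
      rw [hZa]
      linarith
    exact norm_eq_zero.1 (pow_eq_zero_iff (two_ne_zero)|>.1 h6)
  have h7 := lm_zero hI hF (Y := Z) (fun D hD φ => by
      rw [hZa, hZa, map_sub, Pj_xE93 A D hD, cl_xE93 _ hD, Pj_xE93 B D hD, cl_xE93 _ hD])
    (fun g φ => by
      rw [hZa, hZa, map_sub, Pj_Vq93 A g, ← Vq_Wk93, Pj_Vq93 B g, Vq_Wk93]) h5 ψ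
  rw [hZa, Pj_eq93 hψ, sub_eq_zero] at h7
  rw [h7, Wk_inv]
  exact Pj_mem93 B _

private theorem step293 (hI : CocI μ a) (hF : FullE E) {k k' : G} {A1 A2 : Set G} (h11 : Mv R k A1 A1)
    (h21 : Mv R k A2 A1) (h12 : Mv R k' A1 A2) : NA μ a E R b A1 = NA μ a E R b A2 := by
  have t1 := (step193 (b := b) hI hF h21).1
  have t2 := (step193 (b := b) hI hF h12).1
  apply le_antisymm
  · intro ψ hψ
    have h1 := (step193 (b := b) hI hF h11).2 le_rfl ψ hψ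
    have h2 := NA_W h21 h1
    rwa [Wk_inv'] at h2
  · intro ψ hψ
    have h1 := (step193 (b := b) hI hF h21).2 t2 ψ hψ
    have h2 := NA_W h11 h1
    rwa [Wk_inv'] at h2

/-- **Lemma F**, abstract form. -/
theorem lemF_abs (hI : CocI μ a) (hF : FullE E) {U : Set G1} (hE : ErgU μ a E U) (h0 : XPpr R (vec μ a E b) ≠ 0)
    {Q : Type} [Nonempty Q] (B : Q → ℝ → Set G) (hmono : ∀ q ρ ρ', ρ ≤ ρ' → B q ρ ⊆ B q ρ')
    (ha : ∀ q1 q2, ∃ ρ0 : ℝ, 0 < ρ0 ∧ ∀ ρ1 ρ2, 0 < ρ1 → ρ1 < ρ0 → 0 < ρ2 → ρ2 < ρ0 →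
      ∃ k : G, Mv R k (B q1 ρ1) (B q1 ρ1) ∧ Mv R k (B q2 ρ2) (B q1 ρ1))
    (hc : ∀ k : G, ∃ q q', ∀ ρ', 0 < ρ' → ∃ ρ, 0 < ρ ∧ Mv R k (B q ρ) (B q' ρ'))
    (hb : ∀ ρ : Q → ℝ, (∀ q, 0 < ρ q) → ∃ F : Finset Q, ∀ n, ∀ᶠ γ in R.F n, ∃ q ∈ F, γ ∈ B q (ρ q))
    (q : Q) {ρ : ℝ} (hρ : 0 < ρ) {φ : XL μ (L2 G)} (hφ : φ ∈ NA μ a E R b (B q ρ)) : φ = 0 := by
  -- (2)
  have h2 : ∀ q1 q2, ∃ ρ0 : ℝ, 0 < ρ0 ∧ ∀ ρ1 ρ2, 0 < ρ1 → ρ1 < ρ0 → 0 < ρ2 → ρ2 < ρ0 →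
      NA μ a E R b (B q1 ρ1) = NA μ a E R b (B q2 ρ2) := by
    intro q1 q2
    obtain ⟨r1, hr1, H1⟩ := ha q1 q2
    obtain ⟨r2, hr2, H2⟩ := ha q2 q1
    refine ⟨min r1 r2, lt_min hr1 hr2, fun ρ1 ρ2 p1 p2 p3 p4 => ?_⟩
    obtain ⟨k, k1, k2⟩ := H1 ρ1 ρ2 p1 (p2.trans_le (min_le_left _ _)) p3 (p4.trans_le (min_le_left _ _))
    obtain ⟨k', _, k4⟩ := H2 ρ2 ρ1 p3 (p4.trans_le (min_le_right _ _)) p1 (p2.trans_le (min_le_right _ _))
    exact step293 hI hF k1 k2 k4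
  -- (3)
  obtain ⟨A0, r, hr, hN⟩ : ∃ (A0 : Set G) (r : Q → ℝ), (∀ q, 0 < r q) ∧
      ∀ q ρ, 0 < ρ → ρ < r q → NA μ a E R b (B q ρ) = NA μ a E R b A0 := by
    choose r hr H using fun q' => h2 q q'
    refine ⟨B q (r q / 2), r, hr, fun q' ρ' p1 p2 => ?_⟩
    have hm : 0 < min (r q') (r q) / 2 := half_pos (lt_min (hr q') (hr q))
    have hm1 : min (r q') (r q) / 2 < r q' :=
      (half_lt_self (lt_min (hr q') (hr q))).trans_le (min_le_left _ _)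
    have hm2 : min (r q') (r q) / 2 < r q :=
      (half_lt_self (lt_min (hr q') (hr q))).trans_le (min_le_right _ _)
    rw [← H q' _ ρ' hm hm1 p1 p2]
    exact H q _ (r q / 2) hm hm2 (half_pos (hr q)) (half_lt_self (hr q))
  have hle : ∀ q ρ, 0 < ρ → ∀ φ ∈ NA μ a E R b (B q ρ), φ ∈ NA μ a E R b A0 := by
    intro q ρ hρ φ hφ
    have hm : 0 < min ρ (r q / 2) := lt_min hρ (half_pos (hr q))
    have hm1 : min ρ (r q / 2) < r q := (min_le_right _ _).trans_lt (half_lt_self (hr q))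
    rw [← hN q _ hm hm1]
    exact NA_anti (fun n => Eventually.of_forall fun γ hγ => hmono q _ _ (min_le_left _ _) hγ) hφ
  -- (4)
  have hW : ∀ (k : G), ∀ φ ∈ NA μ a E R b A0, Wk μ k φ ∈ NA μ a E R b A0 := by
    intro k φ hφ
    obtain ⟨q1, q2, H⟩ := hc k
    obtain ⟨ρ1, hρ1, hM⟩ := H (r q2 / 2) (half_pos (hr q2))
    rw [← hN q2 _ (half_pos (hr q2)) (half_lt_self (hr q2))] at hφ
    exact hle q1 ρ1 hρ1 _ (NA_W hM hφ)
  -- (5)
  obtain ⟨c, hcs⟩ := hE (Pj93 μ a E R b A0) (Pj_xE93 A0)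
    (fun k φ => proj_comm (V := NA μ a E R b A0) (T := Wk μ k) (T' := Wk μ k⁻¹)
      (fun x y => by rw [← inner_Wk k x, Wk_inv']) (hW k) (hW k⁻¹) φ)
    (fun u _ φ => Pj_Vq93 A0 u φ)
  by_cases hc0 : c = 0
  · have h3 := hcs φ
    rw [Pj_eq93 (hle q ρ hρ φ hφ), hc0, zero_smul] at h3
    exact h3
  · exfalso
    have hall : ∀ ψ : XL μ (L2 G), ψ ∈ NA μ a E R b A0 := by
      intro ψ
      have h3 := Pj_mem93 (μ := μ) (a := a) (E := E) (R := R) (b := b) A0 (c⁻¹ • ψ)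
      rw [hcs, smul_smul, mul_inv_cancel₀ hc0, one_smul] at h3
      exact h3
    obtain ⟨F, hF'⟩ := hb (fun q => r q / 2) fun q => half_pos (hr q)
    have h4 := cover_zero F (fun q => B q (r q / 2)) hF' (x := Tb μ a E R b (cst μ (dl 1))) (fun q' _ => by
      have h5 := hall (cst μ (dl 1))
      rw [← hN q' _ (half_pos (hr q')) (half_lt_self (hr q'))] at h5
      have h6 := h5 1
      rwa [vg_one] at h6)
    rw [Tb_one] at h4
    exact h0 h4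

end Pool.Agent.Helper43.LF
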