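import Pool.Agent.Helper43.LF.Pos

/-!
# Layer LF, block LF11b: the asymptotic action on the positions, the strata

`asym`: `S.m 1 k γ = (kR γ)ᴴ * P.ι k * kR (1⁻¹ * γ * k)`; by `T.tendsto_m 1 k n` (`Helper84/GN`, see `tendsto_upper` in `Helper84/GN/I2.lean`) its entries `(i, j)` with `T.b i < T.b j` tend to zero along `T.F n`, in particular those with
`i < r ≤ j` (`Sep.lt`). Let `M = (PR P k)ᵀ Vr γ` (`N × r`), `K = kR (γ k)` real orthogonal: the entries `(j, i)`, `r ≤ j`, of `Kᵀ M` are those entries `(i, j)` of `m` (real parts), and `Kᵀ (M - V (Vᵀ M))`, `V = Vr (γ k)`, has entries `0` for the rows `j < r` and `(Kᵀ M)_(j, i)` for the rows `j ≥ r`.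
`nn (Kᵀ A) = nn A` for orthogonal `K`. So `nn (M - V (Vᵀ M)) = ∑_(j ≥ r, i < r) (Kᵀ M)_(j,i)² → 0`.
-/

set_option autoImplicit false

open Filter Topology Matrix

namespace Pool.Agent.Helper43.LF

open Pool.Agent.Helper84 Pool.Agent.Helper84.GN Pool.Agent.Helper84.GN.S3
open Pool.Agent.Helper84.NI Pool.Agent.Helper84.GVN Pool.Agent.Helper90.RK
open Pool.Agent.Helper55.OB

variable {G : Type} [Group G] {N : ℕ} {P : PH G N} {S : Sv P}

private noncomputable def QR99 (S : Sv P) (γ : G) : Matrix (Fin N) (Fin N) ℝ :=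
  Matrix.of fun i j => (S.kR γ i j).re

private theorem re_of_conj99 {z : ℂ} (h : starRingEnd ℂ z = z) : ((z.re : ℝ) : ℂ) = z :=
  Complex.conj_eq_iff_re.1 h

private theorem kR_conj99 (hS : SO2 P S) (γ : G) (i j : Fin N) :
    starRingEnd ℂ (S.kR γ i j) = S.kR γ i j :=
  congrFun (congrFun (hS.realR γ) i) j

private theorem QR_map99 (hS : SO2 P S) (γ : G) :
    (QR99 S γ).map Complex.ofRealHom = S.kR γ := by
  ext i j
  exact re_of_conj99 (kR_conj99 hS γ i j)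

private theorem QR_mapH99 (hS : SO2 P S) (γ : G) :
    ((QR99 S γ)ᵀ).map Complex.ofRealHom = (S.kR γ)ᴴ := by
  ext i j
  have h1 := re_of_conj99 (kR_conj99 hS γ j i)
  have h2 := kR_conj99 hS γ j i
  change (((S.kR γ j i).re : ℝ) : ℂ) = starRingEnd ℂ (S.kR γ j i)
  rw [h2, h1]

private theorem PR_map99 (hS : SO2 P S) (k : G) :
    (PR P k).map Complex.ofRealHom = P.ι k := by
  ext i j
  have h2 : starRingEnd ℂ (P.ι k i j) = P.ι k i j := congrFun (congrFun (hS.real k) i) j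
  exact re_of_conj99 h2

private theorem map_inj99 {A B : Matrix (Fin N) (Fin N) ℝ}
    (h : A.map Complex.ofRealHom = B.map Complex.ofRealHom) : A = B := by
  ext i j
  have h1 := congrFun (congrFun h i) j
  exact Complex.ofReal_injective h1

private theorem QR_orth99 (hS : SO2 P S) (γ : G) : (QR99 S γ)ᵀ * QR99 S γ = 1 := by
  apply map_inj99
  rw [Matrix.map_mul, QR_map99 hS, QR_mapH99 hS, Matrix.map_one _ (map_zero _) (map_one _)]
  exact S.uR γ

private theorem m_map99 (hS : SO2 P S) (k γ : G) :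
    S.m 1 k γ = ((QR99 S γ)ᵀ * PR P k * QR99 S (γ * k)).map Complex.ofRealHom := by
  rw [Matrix.map_mul, Matrix.map_mul, QR_map99 hS, QR_mapH99 hS, PR_map99 hS]
  unfold Sv.m
  rw [inv_one, one_mul]

private theorem Vr_eq99 {r : ℕ} (hr : r ≤ N) (γ : G) :
    Vr r S γ = (QR99 S γ).submatrix id (Fin.castLE hr) := by
  ext i j
  have h : (j : ℕ) < N := lt_of_lt_of_le j.2 hr
  change (if h : (j : ℕ) < N then (S.kR γ i ⟨j, h⟩).re else 0) = (S.kR γ i (Fin.castLE hr j)).re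
  rw [dif_pos h]
  rfl

private theorem nn_eq99 {m r : ℕ} (A : Matrix (Fin m) (Fin r) ℝ) : nn A = (Aᵀ * A).trace := by
  unfold nn Matrix.trace
  rw [Finset.sum_comm]
  refine Finset.sum_congr rfl fun j _ => ?_
  rw [Matrix.diag_apply, Matrix.mul_apply]
  refine Finset.sum_congr rfl fun i _ => ?_
  rw [Matrix.transpose_apply, sq]

private theorem nn_orth99 {r : ℕ} {K : Matrix (Fin N) (Fin N) ℝ} (hK : Kᵀ * K = 1)
    (A : Matrix (Fin N) (Fin r) ℝ) : nn (Kᵀ * A) = nn A := by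
  have hK' : K * Kᵀ = 1 := mul_eq_one_comm.1 hK
  rw [nn_eq99, nn_eq99, Matrix.transpose_mul, Matrix.transpose_transpose]
  congr 1
  calc Aᵀ * K * (Kᵀ * A) = Aᵀ * (K * Kᵀ) * A := by simp only [Matrix.mul_assoc]
    _ = Aᵀ * A := by rw [hK', Matrix.mul_one]

private theorem proj99 {r : ℕ} (hr : r ≤ N) (W : Matrix (Fin N) (Fin r) ℝ) (j : Fin N) (i : Fin r) :
    ((1 : Matrix (Fin N) (Fin N) ℝ).submatrix id (Fin.castLE hr) *
      W.submatrix (Fin.castLE hr) id) j i = if (j : ℕ) < r then W j i else 0 := by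
  rw [Matrix.mul_apply]
  change ∑ l : Fin r, (1 : Matrix (Fin N) (Fin N) ℝ) j (Fin.castLE hr l) *
    W (Fin.castLE hr l) i = _
  split_ifs with h
  · rw [Finset.sum_eq_single ⟨j, h⟩]
    · have e : Fin.castLE hr ⟨j, h⟩ = j := Fin.ext rfl
      rw [e, Matrix.one_apply_eq, one_mul]
    · intro l _ hl
      rw [Matrix.one_apply_ne, zero_mul]
      intro h1
      apply hl
      apply Fin.ext
      exact (congrArg Fin.val h1).symm
    · intro h1
      exact absurd (Finset.mem_univ _) h1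
  · refine Finset.sum_eq_zero fun l _ => ?_
    rw [Matrix.one_apply_ne, zero_mul]
    intro h1
    apply h
    rw [h1]
    exact l.2

private theorem nn_proj99 (hS : SO2 P S) {r : ℕ} (hr : r ≤ N) (k γ : G) :
    nn ((PR P k)ᵀ * Vr r S γ - Vr r S (γ * k) * ((Vr r S (γ * k))ᵀ * ((PR P k)ᵀ * Vr r S γ))) =
      ∑ j : Fin N, ∑ i : Fin r, (if (j : ℕ) < r then 0 else (S.m 1 k γ (Fin.castLE hr i) j).re) ^ 2 := by
  obtain ⟨K, hKd⟩ : ∃ K, K = QR99 S (γ * k) := ⟨_, rfl⟩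
  have hK : Kᵀ * K = 1 := by rw [hKd]; exact QR_orth99 hS _
  obtain ⟨M, hM⟩ : ∃ M, M = (PR P k)ᵀ * Vr r S γ := ⟨_, rfl⟩
  rw [← hM, ← nn_orth99 hK]
  have hV : Vr r S (γ * k) = K.submatrix id (Fin.castLE hr) := by rw [hKd]; exact Vr_eq99 hr _
  have h1 : Kᵀ * (M - Vr r S (γ * k) * ((Vr r S (γ * k))ᵀ * M)) =
      Kᵀ * M - (1 : Matrix (Fin N) (Fin N) ℝ).submatrix id (Fin.castLE hr) *
        (Kᵀ * M).submatrix (Fin.castLE hr) id := by
    rw [Matrix.mul_sub, ← Matrix.mul_assoc Kᵀ, hV]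
    congr 2
    rw [← hK]
    rfl
  have h2 : ∀ (j : Fin N) (i : Fin r), (Kᵀ * M) j i = (S.m 1 k γ (Fin.castLE hr i) j).re := by
    intro j i
    rw [m_map99 hS, hM, Vr_eq99 hr, hKd]
    change _ = ((QR99 S γ)ᵀ * PR P k * QR99 S (γ * k)) (Fin.castLE hr i) j
    have h3 : (QR99 S (γ * k))ᵀ * ((PR P k)ᵀ * QR99 S γ) =
        ((QR99 S γ)ᵀ * PR P k * QR99 S (γ * k))ᵀ := by
      rw [Matrix.transpose_mul, Matrix.transpose_mul, Matrix.transpose_transpose]
    have h4 := congrFun (congrFun h3 j) (Fin.castLE hr i)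
    rw [Matrix.transpose_apply] at h4
    rw [← h4]
    rfl
  rw [h1]
  unfold nn
  refine Finset.sum_congr rfl fun j _ => Finset.sum_congr rfl fun i _ => ?_
  rw [Matrix.sub_apply, proj99, h2]
  split_ifs
  · rw [sub_self]
  · rw [sub_zero]

theorem asym (hS : SO2 P S) (T : Str S) {r : ℕ} (hr : r = 1 ∨ r = 2) (hT : Sep T r) (k : G) (n : ℕ) :
    Tendsto (fun γ => nn ((PR P k)ᵀ * Vr r S γ - Vr r S (γ * k) * ((Vr r S (γ * k))ᵀ * ((PR P k)ᵀ * Vr r S γ))))
      (T.F n) (𝓝 0) := by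
  have hN := hS.hN
  have hrN : r ≤ N := by rcases hr with rfl | rfl <;> omega
  simp only [nn_proj99 hS hrN k]
  suffices key : Tendsto (fun γ => ∑ j : Fin N, ∑ i : Fin r,
      (if (j : ℕ) < r then 0 else (S.m 1 k γ (Fin.castLE hrN i) j).re) ^ 2) (T.F n)
      (𝓝 (∑ _j : Fin N, ∑ _i : Fin r, (0 : ℝ) ^ 2)) by
    have h0 : ∑ _j : Fin N, ∑ _i : Fin r, (0 : ℝ) ^ 2 = 0 := by simp
    rwa [h0] at key
  refine tendsto_finsetSum _ fun j _ => tendsto_finsetSum _ fun i _ => Tendsto.pow ?_ 2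
  by_cases hj : (j : ℕ) < r
  · simp only [if_pos hj]
    exact (tendsto_const_nhds : Tendsto (fun _ : G => (0 : ℝ)) (T.F n) (𝓝 0))
  · simp only [if_neg hj]
    have h1 : T.b (Fin.castLE hrN i) < T.b j := hT.lt _ _ i.2 (not_lt.1 hj)
    have h2 := (Complex.continuous_re.tendsto (0 : ℂ)).comp (T.tendsto_m 1 k n h1)
    rw [Complex.zero_re] at h2
    exact h2

private theorem bJ_zero99 {J : Finset (Fin N)} {i : Fin N} (h : ∀ k, k < i → k ∈ J) :
    Pool.Agent.Helper96.RK.bJ J i = 0 := by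
  unfold Pool.Agent.Helper96.RK.bJ
  rw [Finset.card_eq_zero, Finset.filter_eq_empty_iff]
  intro k _ hk
  exact hk.2 (h k hk.1)

private theorem bJ_pos99 {J : Finset (Fin N)} {i k : Fin N} (h : k < i) (hk : k ∉ J) :
    0 < Pool.Agent.Helper96.RK.bJ J i := by
  unfold Pool.Agent.Helper96.RK.bJ
  exact Finset.card_pos.2 ⟨k, Finset.mem_filter.2 ⟨Finset.mem_univ _, h, hk⟩⟩

/-- The first block of the strata `R1`, `R2` has one, two elements. PROOF: `(chStr S J []).b = bJ J`, `bJ J i` is the number of the `k < i` which are not in `J` (`Helper96/RK/Ty1.lean`). -/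
theorem sep1 {N : ℕ} {P : PH G N} (S : Sv P) (hN : 5 ≤ N) : Sep (Pool.Agent.Helper96.RK.chStr S (K1 N) []) 1 := by
  have h0 : ∀ i : Fin N, (i : ℕ) < 1 → Pool.Agent.Helper96.RK.bJ (K1 N) i = 0 := by
    intro i hi
    apply bJ_zero99
    intro k hk
    have := Fin.lt_def.1 hk
    omega
  constructor
  · intro i j hi hj
    change Pool.Agent.Helper96.RK.bJ (K1 N) i < Pool.Agent.Helper96.RK.bJ (K1 N) j
    rw [h0 i hi]
    apply bJ_pos99 (k := ⟨0, by omega⟩)
    · rw [Fin.lt_def]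
      exact hj
    · intro h
      exact (Finset.mem_filter.1 h).2.1 rfl
  · intro i j hi hj
    change Pool.Agent.Helper96.RK.bJ (K1 N) i = Pool.Agent.Helper96.RK.bJ (K1 N) j
    rw [h0 i hi, h0 j hj]

theorem sep2 {N : ℕ} {P : PH G N} (S : Sv P) (hN : 5 ≤ N) : Sep (Pool.Agent.Helper96.RK.chStr S (K2 N) []) 2 := by
  have h0 : ∀ i : Fin N, (i : ℕ) < 2 → Pool.Agent.Helper96.RK.bJ (K2 N) i = 0 := by
    intro i hi
    apply bJ_zero99
    intro k hk
    have := Fin.lt_def.1 hk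
    refine Finset.mem_filter.2 ⟨Finset.mem_univ _, ?_, ?_⟩ <;> omega
  constructor
  · intro i j hi hj
    change Pool.Agent.Helper96.RK.bJ (K2 N) i < Pool.Agent.Helper96.RK.bJ (K2 N) j
    rw [h0 i hi]
    apply bJ_pos99 (k := ⟨1, by omega⟩)
    · rw [Fin.lt_def]
      exact hj
    · intro h
      exact (Finset.mem_filter.1 h).2.1 rfl
  · intro i j hi hj
    change Pool.Agent.Helper96.RK.bJ (K2 N) i = Pool.Agent.Helper96.RK.bJ (K2 N) j
    rw [h0 i hi, h0 j hj]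

end Pool.Agent.Helper43.LF
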