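import Pool.Agent.Helper43.LF.Pos

/-!
# Layer LF, block LF14b: bumps

`exists_bump`: `F γ = nn (Vr γ - a (aᵀ Vr γ))`, `h γ = max 0 (min 1 (2 - 2 F γ / ρ))` (real, as a complex number): `1` if `F γ ≤ ρ / 2`, `0` if `F γ ≥ ρ`. `F` is uniformly continuous for `posPD S T.b`: `F γ = trace ((1 - a aᵀ) p_γ)`, where `p_γ = Vr γ (Vr γ)ᵀ` is the real part of
`pos S T.b γ 0` (`kR diag(1 if b i = b 0) kRᴴ`; by `Sep` the block of `0` is `{i < r}`; `kR` is real), so `F γ` is a linear function of the entries of `pos S T.b γ 0`, and `|entry of (pos γ 0 - pos γ' 0)| ≤ √(ns (pos γ 0 - pos γ' 0)) ≤ pdist S T.b γ γ'`.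
(`a` any real matrix with `aᵀ a = 1`: `nn ((1 - a aᵀ) V) = trace (Vᵀ (1 - a aᵀ) V)`.)
-/

set_option autoImplicit false

open Filter Topology Matrix

namespace Pool.Agent.Helper43.LF

open Pool.Agent.Helper84 Pool.Agent.Helper84.GN Pool.Agent.Helper84.GN.S3
open Pool.Agent.Helper84.NI Pool.Agent.Helper84.GVN Pool.Agent.Helper90.RK
open Pool.Agent.Helper55.OB

variable {G : Type} [Group G] {N : ℕ} {P : PH G N} {S : Sv P}

private theorem nn_eq69 {r : ℕ} {a V : Matrix (Fin N) (Fin r) ℝ} (ha : aᵀ * a = 1) :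
    nn (V - a * (aᵀ * V)) = ((1 - a * aᵀ) * (V * Vᵀ)).trace := by
  have h1 : ∀ A : Matrix (Fin N) (Fin r) ℝ, nn A = (Aᵀ * A).trace := by
    intro A
    unfold nn
    rw [Matrix.trace, Finset.sum_comm]
    refine Finset.sum_congr rfl fun j _ => ?_
    rw [diag_apply, mul_apply]
    refine Finset.sum_congr rfl fun i _ => ?_
    rw [transpose_apply, sq]
  have h2 : V - a * (aᵀ * V) = (1 - a * aᵀ) * V := by
    rw [Matrix.sub_mul, Matrix.one_mul, Matrix.mul_assoc]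
  have h3 : (1 - a * aᵀ)ᵀ = 1 - a * aᵀ := by
    rw [transpose_sub, transpose_one, transpose_mul, transpose_transpose]
  have h4 : (1 - a * aᵀ) * (1 - a * aᵀ) = 1 - a * aᵀ := by
    have h5 : a * aᵀ * (a * aᵀ) = a * aᵀ := by
      calc a * aᵀ * (a * aᵀ) = a * (aᵀ * a) * aᵀ := by simp only [Matrix.mul_assoc]
        _ = a * aᵀ := by rw [ha, Matrix.mul_one]
    rw [Matrix.sub_mul, Matrix.one_mul, Matrix.mul_sub, Matrix.mul_one, h5, sub_self, sub_zero]
  rw [h1, h2, transpose_mul, h3, Matrix.mul_assoc, ← Matrix.mul_assoc (1 - a * aᵀ), h4,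
    trace_mul_comm, Matrix.mul_assoc]

private theorem pos_entry69 (hS : SO2 P S) (T : Str S) {r : ℕ} (hr : r = 1 ∨ r = 2) (hT : Sep T r)
    (γ : G) (z : Fin N) (hz : (z : ℕ) = 0) (i j : Fin N) :
    pos S T.b γ z i j = (((Vr r S γ * (Vr r S γ)ᵀ) i j : ℝ) : ℂ) := by
  have hN := hS.hN
  have hreal : ∀ i j, S.kR γ i j = ((S.kR γ i j).re : ℂ) := by
    intro i j
    have h1 : starRingEnd ℂ (S.kR γ i j) = S.kR γ i j := by
      have h2 := congrFun (congrFun (hS.realR γ) i) j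
      exact h2
    exact (Complex.conj_eq_iff_re.1 h1).symm
  have hb : ∀ k : Fin N, T.b k = T.b z ↔ (k : ℕ) < r := by
    intro k
    constructor
    · intro h
      by_contra hk
      have := hT.lt z k (by omega) (by omega)
      omega
    · intro h
      exact hT.eq k z h (by omega)
  have h1 : pos S T.b γ z i j = ∑ k : Fin N, if (k : ℕ) < r then
      (((S.kR γ i k).re * (S.kR γ j k).re : ℝ) : ℂ) else 0 := by
    unfold pos
    rw [mul_apply]
    refine Finset.sum_congr rfl fun k _ => ?_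
    rw [mul_diagonal, conjTranspose_apply]
    by_cases hk : (k : ℕ) < r
    · rw [if_pos ((hb k).2 hk), if_pos hk, mul_one, hreal i k, hreal j k]
      simp
    · rw [if_neg (fun h => hk ((hb k).1 h)), if_neg hk, mul_zero, zero_mul]
  rw [h1, mul_apply]
  push_cast
  rw [← Finset.sum_filter]
  symm
  refine Finset.sum_bij (fun (k : Fin r) _ => (⟨(k : ℕ), by have := k.2; omega⟩ : Fin N)) ?_ ?_ ?_ ?_
  · intro k _
    simp
  · intro k _ k' _ h
    exact Fin.ext (by simpa using h)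
  · intro k hk
    rw [Finset.mem_filter] at hk
    exact ⟨⟨(k : ℕ), hk.2⟩, Finset.mem_univ _, rfl⟩
  · intro k _
    have hk : (k : ℕ) < N := by have := k.2; omega
    rw [transpose_apply]
    unfold Vr
    rw [Matrix.of_apply, Matrix.of_apply, dif_pos hk, dif_pos hk]

private theorem F_lip69 (hS : SO2 P S) (T : Str S) {r : ℕ} (hr : r = 1 ∨ r = 2) (hT : Sep T r)
    {a : Matrix (Fin N) (Fin r) ℝ} (ha : a ∈ FrR N r) : ∃ C : ℝ, 0 ≤ C ∧ ∀ γ γ',
      |nn (Vr r S γ - a * (aᵀ * Vr r S γ)) - nn (Vr r S γ' - a * (aᵀ * Vr r S γ'))| ≤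
        C * pdist S T.b γ γ' := by
  have hN := hS.hN
  refine ⟨∑ i, ∑ j, |(1 - a * aᵀ : Matrix (Fin N) (Fin N) ℝ) i j|,
    Finset.sum_nonneg fun i _ => Finset.sum_nonneg fun j _ => abs_nonneg _, fun γ γ' => ?_⟩
  have hz : ((⟨0, by omega⟩ : Fin N) : ℕ) = 0 := rfl
  set z : Fin N := ⟨0, by omega⟩ with hzd
  -- entries
  have hent : ∀ i j, |(Vr r S γ * (Vr r S γ)ᵀ) i j - (Vr r S γ' * (Vr r S γ')ᵀ) i j| ≤
      pdist S T.b γ γ' := by
    intro i j
    have h1 : ‖(pos S T.b γ z - pos S T.b γ' z) i j‖ =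
        |(Vr r S γ * (Vr r S γ)ᵀ) i j - (Vr r S γ' * (Vr r S γ')ᵀ) i j| := by
      rw [Matrix.sub_apply, pos_entry69 hS T hr hT γ z hz, pos_entry69 hS T hr hT γ' z hz,
        ← Complex.ofReal_sub, Complex.norm_real, Real.norm_eq_abs]
    rw [← h1]
    have h2 : ‖(pos S T.b γ z - pos S T.b γ' z) i j‖ ^ 2 ≤ ns (pos S T.b γ z - pos S T.b γ' z) := by
      unfold ns
      refine le_trans ?_ (Finset.single_le_sum (f := fun i => ∑ j,
        ‖(pos S T.b γ z - pos S T.b γ' z) i j‖ ^ 2) (fun i _ => Finset.sum_nonneg fun j _ =>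
          sq_nonneg _) (Finset.mem_univ i))
      exact Finset.single_le_sum (f := fun j => ‖(pos S T.b γ z - pos S T.b γ' z) i j‖ ^ 2)
        (fun j _ => sq_nonneg _) (Finset.mem_univ j)
    have h3 : ‖(pos S T.b γ z - pos S T.b γ' z) i j‖ ≤
        Real.sqrt (ns (pos S T.b γ z - pos S T.b γ' z)) := Real.le_sqrt_of_sq_le h2
    refine h3.trans ?_
    unfold pdist
    exact Finset.single_le_sum (f := fun j => Real.sqrt (ns (pos S T.b γ j - pos S T.b γ' j)))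
      (fun j _ => Real.sqrt_nonneg _) (Finset.mem_univ z)
  rw [nn_eq69 ha.1, nn_eq69 ha.1, ← trace_sub, ← Matrix.mul_sub, Matrix.trace, Finset.sum_mul]
  refine (Finset.abs_sum_le_sum_abs _ _).trans (Finset.sum_le_sum fun i _ => ?_)
  rw [diag_apply, mul_apply, Finset.sum_mul]
  refine (Finset.abs_sum_le_sum_abs _ _).trans (Finset.sum_le_sum fun j _ => ?_)
  rw [abs_mul, Matrix.sub_apply (Vr r S γ * (Vr r S γ)ᵀ)]
  exact mul_le_mul_of_nonneg_left (hent j i) (abs_nonneg _)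

theorem exists_bump (hS : SO2 P S) (T : Str S) {r : ℕ} (hr : r = 1 ∨ r = 2) (hT : Sep T r) {a : Matrix (Fin N) (Fin r) ℝ}
    (ha : a ∈ FrR N r) {ρ : ℝ} (hρ : 0 < ρ) : ∃ h : G → ℝ, (∀ γ, 0 ≤ h γ ∧ h γ ≤ 1) ∧ (∀ γ ∈ Bl S a (ρ / 2), h γ = 1) ∧
      (∀ γ, h γ ≠ 0 → γ ∈ Bl S a ρ) ∧ UC (posPD S T.b) fun γ => (h γ : ℂ) := by
  obtain ⟨C, hC, hF⟩ := F_lip69 hS T hr hT ha
  obtain ⟨F, hFd⟩ : ∃ F : G → ℝ, F = fun γ => nn (Vr r S γ - a * (aᵀ * Vr r S γ)) := ⟨_, rfl⟩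
  have hF' : ∀ γ γ', |F γ - F γ'| ≤ C * pdist S T.b γ γ' := by
    intro γ γ'
    rw [hFd]
    exact hF γ γ'
  have hB : ∀ (c : ℝ) (γ : G), γ ∈ Bl S a c ↔ F γ < c := by
    intro c γ
    rw [hFd]
    rfl
  refine ⟨fun γ => max 0 (min 1 (2 - 2 * F γ / ρ)), fun γ => ⟨le_max_left _ _,
    max_le zero_le_one (min_le_left _ _)⟩, fun γ hγ => ?_, fun γ hγ => ?_, fun ε hε => ?_⟩
  · rw [hB] at hγ
    have h1 : 1 ≤ 2 - 2 * F γ / ρ := by
      have : 2 * F γ / ρ ≤ 1 := by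
        rw [div_le_one hρ]
        linarith
      linarith
    simp only
    rw [min_eq_left h1]
    exact max_eq_right zero_le_one
  · rw [hB]
    by_contra hcon
    rw [not_lt] at hcon
    apply hγ
    have h1 : 2 - 2 * F γ / ρ ≤ 0 := by
      have : 2 ≤ 2 * F γ / ρ := by
        rw [le_div_iff₀ hρ]
        linarith
      linarith
    simp only
    exact max_eq_left ((min_le_right _ _).trans h1)
  · refine ⟨ε * ρ / (2 * (C + 1)), by positivity, fun γ γ' hd => ?_⟩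
    have hd' : pdist S T.b γ γ' < ε * ρ / (2 * (C + 1)) := hd
    simp only
    rw [← Complex.ofReal_sub, Complex.norm_real, Real.norm_eq_abs]
    have h1 : |max 0 (min 1 (2 - 2 * F γ / ρ)) - max 0 (min 1 (2 - 2 * F γ' / ρ))| ≤
        |(2 - 2 * F γ / ρ) - (2 - 2 * F γ' / ρ)| := by
      refine (abs_max_sub_max_le_max _ _ _ _).trans ?_
      rw [sub_self, abs_zero]
      refine max_le (abs_nonneg _) ?_
      refine (abs_min_sub_min_le_max _ _ _ _).trans ?_
      rw [sub_self, abs_zero]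
      exact max_le (abs_nonneg _) le_rfl
    refine h1.trans ?_
    have h2 : (2 - 2 * F γ / ρ) - (2 - 2 * F γ' / ρ) = -(2 / ρ) * (F γ - F γ') := by ring
    rw [h2, abs_mul, abs_neg, abs_of_pos (by positivity : (0 : ℝ) < 2 / ρ)]
    have h3 : 0 ≤ pdist S T.b γ γ' := Finset.sum_nonneg fun j _ => Real.sqrt_nonneg _
    have h4 : |F γ - F γ'| ≤ (C + 1) * (ε * ρ / (2 * (C + 1))) :=
      (hF' γ γ').trans (mul_le_mul (by linarith) hd'.le h3 (by linarith))
    calc 2 / ρ * |F γ - F γ'| ≤ 2 / ρ * ((C + 1) * (ε * ρ / (2 * (C + 1)))) :=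
          mul_le_mul_of_nonneg_left h4 (by positivity)
      _ = ε := by
          field_simp

end Pool.Agent.Helper43.LF
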