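import Pool.Agent.Helper55.OB.Defs

/-!
# Layer LF, block LF19: the commutant of `so2 N`

`so2 N` is the set of the `J A`, `A` antisymmetric (`J = JR N`: `J` symmetric, `J² = 1` as `jj` is an involution). PROOF of `comm_so2`. Let `π = jj N` (involution, `J e_i = e_(π i)`), `A = e_i e_jᵀ - e_j e_iᵀ`, `i ≠ j`, `X = J A = e_(π i) e_jᵀ - e_(π j) e_iᵀ` (`Matrix.single (π i) j 1 - Matrix.single (π j) i 1`).
Entry `(k, l)` of `T X = X T`: `T k (π i) δ_(jl) - T k (π j) δ_(il) = δ_(k,π i) T j l - δ_(k,π j) T i l`. For `l ≠ i, j` and `k = π i`: `T j l = 0`. As `N ≥ 3`, for all `j ≠ l` there is `i ≠ j, l`: so `T` is diagonal. `l = j`, `k = π i`: `T (π i) (π i) = T j j` (for all `i ≠ j`). So for `j ≠ j'` choose `i ≠ j, j'`: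
`T j j = T (π i) (π i) = T j' j'`.
-/

set_option autoImplicit false

open Matrix

namespace Pool.Agent.Helper43.LF

open Pool.Agent.Helper55.OB

private theorem jj_jj47 {N : ℕ} (_ : 5 ≤ N) (i : Fin N) : jj N (jj N i) = i := by
  unfold jj
  by_cases h : (i : ℕ) < 2 ∨ N ≤ (i : ℕ) + 2
  · rw [if_pos h]
    have h2 : ((i.rev : Fin N) : ℕ) < 2 ∨ N ≤ ((i.rev : Fin N) : ℕ) + 2 := by
      have := i.2
      rw [Fin.val_rev]
      omega
    rw [if_pos h2, Fin.rev_rev]
  · rw [if_neg h, if_neg h]

private theorem exists47 {N : ℕ} (hN : 5 ≤ N) (j l : Fin N) : ∃ i : Fin N, i ≠ j ∧ i ≠ l := by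
  classical
  have h1 : ({j, l} : Finset (Fin N)).card < (Finset.univ : Finset (Fin N)).card := by
    rw [Finset.card_univ, Fintype.card_fin]
    exact lt_of_le_of_lt Finset.card_le_two (by omega)
  obtain ⟨i, _, hi⟩ := Finset.exists_mem_notMem_of_card_lt_card h1
  rw [Finset.mem_insert, Finset.mem_singleton, not_or] at hi
  exact ⟨i, hi.1, hi.2⟩

private theorem mem47 {N : ℕ} (hN : 5 ≤ N) (i j : Fin N) :
    Matrix.single (jj N i) j (1 : ℝ) - Matrix.single (jj N j) i 1 ∈ so2 N := by
  rw [mem_so2]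
  have e1 : ∀ a b : Fin N, (Matrix.single (jj N a) b (1 : ℝ))ᵀ * JR N = Matrix.single b a 1 := by
    intro a b
    rw [Matrix.transpose_single]
    ext k l
    rw [Matrix.mul_apply, Matrix.single_apply]
    simp only [Matrix.single_apply, JR, Matrix.of_apply]
    by_cases h1 : b = k
    · subst h1
      simp only [true_and, ite_mul, one_mul, zero_mul, Finset.sum_ite_eq, Finset.mem_univ, if_true, jj_jj47 hN]
      by_cases h2 : l = a
      · rw [if_pos h2, if_pos h2.symm]
      · rw [if_neg h2, if_neg (Ne.symm h2)]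
    · simp [h1]
  have e2 : ∀ a b : Fin N, JR N * Matrix.single (jj N a) b (1 : ℝ) = Matrix.single a b 1 := by
    intro a b
    ext k l
    rw [Matrix.mul_apply, Matrix.single_apply]
    simp only [Matrix.single_apply, JR, Matrix.of_apply]
    rw [Finset.sum_eq_single (jj N a)]
    · by_cases h1 : a = k
      · subst h1
        simp
      · have h2 : jj N a ≠ jj N k := fun h3 => h1 (by rw [← jj_jj47 hN a, h3, jj_jj47 hN])
        rw [if_neg h2, zero_mul, if_neg fun h3 => h1 h3.1]
    · intro m _ hm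
      have h3 : ¬(jj N a = m ∧ b = l) := fun h3 => hm h3.1.symm
      rw [if_neg h3, mul_zero]
    · intro h3
      exact absurd (Finset.mem_univ _) h3
  rw [Matrix.transpose_sub, Matrix.sub_mul, Matrix.mul_sub, e1, e1, e2, e2]
  abel

theorem comm_so2 {N : ℕ} (hN : 5 ≤ N) {T : Matrix (Fin N) (Fin N) ℝ} (h : ∀ X ∈ so2 N, T * X = X * T) : ∃ c : ℝ, T = c • 1 := by
  have key : ∀ i j k l : Fin N, T k (jj N i) * (if j = l then 1 else 0) - T k (jj N j) * (if i = l then 1 else 0) =
      (if jj N i = k then 1 else 0) * T j l - (if jj N j = k then 1 else 0) * T i l := by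
    intro i j k l
    have h1 := congrFun (congrFun (h _ (mem47 hN i j)) k) l
    have e1 : ∀ a b : Fin N, (T * Matrix.single a b (1 : ℝ)) k l = T k a * (if b = l then 1 else 0) := by
      intro a b
      rw [Matrix.mul_apply, Finset.sum_eq_single a]
      · rw [Matrix.single_apply]
        simp
      · intro m _ hm
        rw [Matrix.single_apply, if_neg fun h3 => hm h3.1.symm, mul_zero]
      · intro h3
        exact absurd (Finset.mem_univ _) h3
    have e2 : ∀ a b : Fin N, (Matrix.single a b (1 : ℝ) * T) k l = (if a = k then 1 else 0) * T b l := by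
      intro a b
      rw [Matrix.mul_apply, Finset.sum_eq_single b]
      · rw [Matrix.single_apply]
        simp
      · intro m _ hm
        rw [Matrix.single_apply, if_neg fun h3 => hm h3.2.symm, zero_mul]
      · intro h3
        exact absurd (Finset.mem_univ _) h3
    rw [Matrix.mul_sub, Matrix.sub_mul, Matrix.sub_apply, Matrix.sub_apply, e1, e1, e2, e2] at h1
    exact h1
  have hinj : ∀ i j : Fin N, i ≠ j → jj N i ≠ jj N j := fun i j hij h3 =>
    hij (by rw [← jj_jj47 hN i, h3, jj_jj47 hN])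
  have hoff : ∀ j l : Fin N, j ≠ l → T j l = 0 := by
    intro j l hjl
    obtain ⟨i, hij, hil⟩ := exists47 hN j l
    have h1 := key i j (jj N i) l
    rw [if_neg hjl, if_neg hil, if_pos rfl, if_neg (hinj j i hij.symm)] at h1
    linarith
  have hdiag : ∀ i j : Fin N, i ≠ j → T (jj N i) (jj N i) = T j j := by
    intro i j hij
    have h1 := key i j (jj N i) j
    rw [if_pos rfl, if_neg hij, if_pos rfl, if_neg (hinj j i hij.symm)] at h1
    linarith
  have hall : ∀ j j' : Fin N, T j j = T j' j' := by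
    intro j j'
    obtain ⟨i, hij, hil⟩ := exists47 hN j j'
    rw [← hdiag i j hij, ← hdiag i j' hil]
  refine ⟨T ⟨0, by omega⟩ ⟨0, by omega⟩, ?_⟩
  ext k l
  rw [Matrix.smul_apply, Matrix.one_apply, smul_eq_mul]
  by_cases h1 : k = l
  · rw [if_pos h1, mul_one, h1]
    exact hall _ _
  · rw [if_neg h1, mul_zero]
    exact hoff k l h1

end Pool.Agent.Helper43.LF
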