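import Pool.Agent.Helper43.LF.Pos

/-!
# Layer LF, block LF14: covers, bumps, opposite balls

`cover_fr`. PROOF: `FrR N r` is a compact subset of the matrices (closed, entries bounded by one); the sets `{v | nn (v - a (aᵀ v)) < ρ a}` are open and contain `a`; finite subcover; `Vr r S γ ∈ FrR`.
`J_mem`: `(J a)ᵀ (J a) = aᵀ a = 1`, `(J a)ᵀ J (J a) = aᵀ J a = 0` (`JR_symm`, `JR_sq`).
`opp_balls`. PROOF: for `γ ∈ Bl S (J a) ρ`, `γ' ∈ Bl S a ρ`: `v = J a β + s`, `v' = a β' + s'`, `nn s, nn s' < ρ`; `vᵀ J v' = βᵀ aᵀ J J a β' + ... = βᵀ β' + (small)`; `|det β|² = det (1 - sᵀ s)`, `|det β'|² = det (1 - s'ᵀ s')` are close to one for `ρ` small, the entries of all matrices are bounded by one, `r ≤ 2`, so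
`|det (vᵀ J v')| ≥ 1/2` for a small absolute constant `ρ` (explicit `r = 1, 2` computation or continuity of `det` and compactness).
-/

set_option autoImplicit false

open Filter Topology Matrix

namespace Pool.Agent.Helper43.LF

open Pool.Agent.Helper84 Pool.Agent.Helper84.GN Pool.Agent.Helper84.GN.S3
open Pool.Agent.Helper84.NI Pool.Agent.Helper84.GVN Pool.Agent.Helper90.RK
open Pool.Agent.Helper55.OB

variable {G : Type} [Group G] {N : ℕ} {P : PH G N} {S : Sv P}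

private theorem nn_nonneg47 {m r : ℕ} (A : Matrix (Fin m) (Fin r) ℝ) : 0 ≤ nn A :=
  Finset.sum_nonneg fun _ _ => Finset.sum_nonneg fun _ _ => sq_nonneg _

private theorem nn_eq_zero47 {m r : ℕ} {A : Matrix (Fin m) (Fin r) ℝ} (h : nn A = 0) : A = 0 := by
  ext i j
  have h1 := (Finset.sum_eq_zero_iff_of_nonneg fun i _ => Finset.sum_nonneg fun j _ => sq_nonneg (A i j)).1 h i
    (Finset.mem_univ _)
  have h2 := (Finset.sum_eq_zero_iff_of_nonneg fun j _ => sq_nonneg (A i j)).1 h1 j (Finset.mem_univ _)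
  exact pow_eq_zero_iff (two_ne_zero) |>.1 h2

private theorem cont_nn47 {m r : ℕ} : Continuous (nn : Matrix (Fin m) (Fin r) ℝ → ℝ) := by
  unfold nn
  exact continuous_finsetSum _ fun i _ => continuous_finsetSum _ fun j _ =>
    ((continuous_apply j).comp (continuous_apply i)).pow 2

private theorem entry47 {N r : ℕ} {a : Matrix (Fin N) (Fin r) ℝ} (ha : a ∈ FrR N r) (i : Fin N) (j : Fin r) :
    |a i j| ≤ 1 := by
  have h2 : (aᵀ * a) j j = 1 := by
    rw [ha.1, Matrix.one_apply_eq]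
  rw [Matrix.mul_apply] at h2
  have h3 : a i j ^ 2 ≤ 1 := by
    rw [← h2]
    have h4 : a i j ^ 2 = aᵀ j i * a i j := by
      rw [Matrix.transpose_apply, sq]
    rw [h4]
    exact Finset.single_le_sum (f := fun k => aᵀ j k * a k j)
      (fun k _ => mul_self_nonneg _) (Finset.mem_univ i)
  exact (sq_le_one_iff_abs_le_one _).1 h3

private theorem compact47 (N r : ℕ) : IsCompact (FrR N r) := by
  have h1 : IsCompact (Set.univ.pi fun _ : Fin N => Set.univ.pi fun _ : Fin r => Set.Icc (-1 : ℝ) 1) :=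
    isCompact_univ_pi fun _ => isCompact_univ_pi fun _ => isCompact_Icc
  have h0 : IsClosed (FrR N r) := by
    refine IsClosed.inter (s₁ := {a : Matrix (Fin N) (Fin r) ℝ | aᵀ * a = 1})
      (s₂ := {a : Matrix (Fin N) (Fin r) ℝ | aᵀ * JR N * a = 0}) ?_ ?_
    · exact isClosed_eq (continuous_id.matrix_transpose.matrix_mul continuous_id) continuous_const
    · exact isClosed_eq ((continuous_id.matrix_transpose.matrix_mul continuous_const).matrix_mul continuous_id)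
        continuous_const
  refine IsCompact.of_isClosed_subset (X := Fin N → Fin r → ℝ) h1 h0 ?_
  intro a ha i _ j _
  exact abs_le.1 (entry47 ha i j)

theorem cover_fr (hS : SO2 P S) {r : ℕ} (hr : r = 1 ∨ r = 2) (ρ : {a : Matrix (Fin N) (Fin r) ℝ // a ∈ FrR N r} → ℝ)
    (hρ : ∀ q, 0 < ρ q) : ∃ F : Finset {a : Matrix (Fin N) (Fin r) ℝ // a ∈ FrR N r}, ∀ γ : G, ∃ q ∈ F, γ ∈ Bl S q.1 (ρ q) := by
  have hcov : FrR N r ⊆ ⋃ q : {a : Matrix (Fin N) (Fin r) ℝ // a ∈ FrR N r},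
      {v : Matrix (Fin N) (Fin r) ℝ | nn (v - q.1 * (q.1ᵀ * v)) < ρ q} := by
    intro v hv
    refine Set.mem_iUnion.2 ⟨⟨v, hv⟩, ?_⟩
    change nn (v - v * (vᵀ * v)) < _
    rw [hv.1, Matrix.mul_one, sub_self]
    have h0 : nn (0 : Matrix (Fin N) (Fin r) ℝ) = 0 := by simp [nn]
    rw [h0]
    exact hρ _
  obtain ⟨F, hF⟩ := (compact47 N r).elim_finite_subcover
    (fun q : {a : Matrix (Fin N) (Fin r) ℝ // a ∈ FrR N r} =>
      {v : Matrix (Fin N) (Fin r) ℝ | nn (v - q.1 * (q.1ᵀ * v)) < ρ q})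
    (fun q => isOpen_lt (cont_nn47.comp (continuous_id.sub
      (continuous_const.matrix_mul (continuous_const.matrix_mul continuous_id)))) continuous_const) hcov
  refine ⟨F, fun γ => ?_⟩
  have h1 := hF (Vr_mem hS hr γ)
  rw [Set.mem_iUnion₂] at h1
  obtain ⟨q, hq, h2⟩ := h1
  exact ⟨q, hq, h2⟩

theorem J_mem {r : ℕ} (hN : 5 ≤ N) {a : Matrix (Fin N) (Fin r) ℝ} (ha : a ∈ FrR N r) : JR N * a ∈ FrR N r := by
  have h1 := JR_sq hN
  have h2 := JR_symm N
  constructor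
  · rw [Matrix.transpose_mul, h2, Matrix.mul_assoc, ← Matrix.mul_assoc (JR N), h1, Matrix.one_mul, ha.1]
  · rw [Matrix.transpose_mul, h2, Matrix.mul_assoc aᵀ, h1, Matrix.mul_one, ← Matrix.mul_assoc, ha.2]

theorem opp_balls (hS : SO2 P S) {r : ℕ} (hr : r = 1 ∨ r = 2) : ∃ ρ : ℝ, 0 < ρ ∧ ∀ a ∈ FrR N r,
    ∀ γ ∈ Bl S (JR N * a) ρ, ∀ γ' ∈ Bl S a ρ, Opp r S (1 / 2) γ γ' := by
  have hJ1 := JR_sq hS.hN
  have hJ2 := JR_symm N
  obtain ⟨C, hC⟩ : ∃ C : Set (Matrix (Fin N) (Fin r) ℝ × Matrix (Fin N) (Fin r) ℝ × Matrix (Fin N) (Fin r) ℝ),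
      C = (FrR N r ×ˢ (FrR N r ×ˢ FrR N r)) ∩ {p | |((p.2.1)ᵀ * JR N * p.2.2).det| ≤ 1 / 2} := ⟨_, rfl⟩
  have hdet : Continuous fun p : Matrix (Fin N) (Fin r) ℝ × Matrix (Fin N) (Fin r) ℝ × Matrix (Fin N) (Fin r) ℝ =>
      |((p.2.1)ᵀ * JR N * p.2.2).det| := by
    refine Continuous.abs (Continuous.matrix_det ?_)
    exact ((continuous_fst.comp continuous_snd).matrix_transpose.matrix_mul continuous_const).matrix_mul
      (continuous_snd.comp continuous_snd)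
  have hCc : IsCompact C := by
    rw [hC]
    exact ((compact47 N r).prod ((compact47 N r).prod (compact47 N r))).inter_right
      (isClosed_le hdet continuous_const)
  obtain ⟨f, hf⟩ : ∃ f : Matrix (Fin N) (Fin r) ℝ × Matrix (Fin N) (Fin r) ℝ × Matrix (Fin N) (Fin r) ℝ → ℝ,
      ∀ p, f p = nn (p.2.1 - (JR N * p.1) * ((JR N * p.1)ᵀ * p.2.1)) + nn (p.2.2 - p.1 * ((p.1)ᵀ * p.2.2)) :=
    ⟨_, fun p => rfl⟩
  have hfc : Continuous f := by
    have e : f = fun p => nn (p.2.1 - (JR N * p.1) * ((JR N * p.1)ᵀ * p.2.1)) + nn (p.2.2 - p.1 * ((p.1)ᵀ * p.2.2)) :=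
      funext hf
    rw [e]
    have c1 : Continuous fun p : Matrix (Fin N) (Fin r) ℝ × Matrix (Fin N) (Fin r) ℝ × Matrix (Fin N) (Fin r) ℝ =>
        JR N * p.1 := continuous_const.matrix_mul continuous_fst
    have c2 : Continuous fun p : Matrix (Fin N) (Fin r) ℝ × Matrix (Fin N) (Fin r) ℝ × Matrix (Fin N) (Fin r) ℝ =>
        p.2.1 := continuous_fst.comp continuous_snd
    have c3 : Continuous fun p : Matrix (Fin N) (Fin r) ℝ × Matrix (Fin N) (Fin r) ℝ × Matrix (Fin N) (Fin r) ℝ =>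
        p.2.2 := continuous_snd.comp continuous_snd
    exact (cont_nn47.comp (c2.sub (c1.matrix_mul (c1.matrix_transpose.matrix_mul c2)))).add
      (cont_nn47.comp (c3.sub (continuous_fst.matrix_mul (continuous_fst.matrix_transpose.matrix_mul c3))))
  have hpos : ∀ p ∈ C, 0 < f p := by
    rintro ⟨a, v, v'⟩ hp
    rw [hC] at hp
    obtain ⟨⟨ha, hv, hv'⟩, hd⟩ := hp
    have ha1 : aᵀ * a = 1 := ha.1
    have hv1 : vᵀ * v = 1 := hv.1
    have hv1' : v'ᵀ * v' = 1 := hv'.1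
    have hd' : |(vᵀ * JR N * v').det| ≤ 1 / 2 := hd
    have h0 : 0 ≤ f (a, v, v') := by
      rw [hf]
      exact add_nonneg (nn_nonneg47 _) (nn_nonneg47 _)
    refine lt_of_le_of_ne h0 fun h1 => ?_
    rw [hf] at h1
    have h2 := nn_nonneg47 (v - (JR N * a) * ((JR N * a)ᵀ * v))
    have h3 := nn_nonneg47 (v' - a * (aᵀ * v'))
    have h4 : v = (JR N * a) * ((JR N * a)ᵀ * v) := sub_eq_zero.1 (nn_eq_zero47 (le_antisymm (by
      change 0 = nn (v - (JR N * a) * ((JR N * a)ᵀ * v)) + nn (v' - a * (aᵀ * v')) at h1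
      linarith) h2))
    have h5 : v' = a * (aᵀ * v') := sub_eq_zero.1 (nn_eq_zero47 (le_antisymm (by
      change 0 = nn (v - (JR N * a) * ((JR N * a)ᵀ * v)) + nn (v' - a * (aᵀ * v')) at h1
      linarith) h3))
    obtain ⟨β, hβ⟩ : ∃ β : Matrix (Fin r) (Fin r) ℝ, β = (JR N * a)ᵀ * v := ⟨_, rfl⟩
    obtain ⟨β', hβ'⟩ : ∃ β' : Matrix (Fin r) (Fin r) ℝ, β' = aᵀ * v' := ⟨_, rfl⟩
    rw [← hβ] at h4
    rw [← hβ'] at h5
    have e1 : βᵀ * β = 1 := by
      have e : vᵀ * v = βᵀ * (aᵀ * ((JR N * JR N) * a)) * β := by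
        rw [h4, Matrix.transpose_mul, Matrix.transpose_mul, hJ2]
        simp only [Matrix.mul_assoc]
      rw [hJ1, Matrix.one_mul, ha1, Matrix.mul_one, hv1] at e
      exact e.symm
    have e2 : β'ᵀ * β' = 1 := by
      have e : v'ᵀ * v' = β'ᵀ * (aᵀ * a) * β' := by
        rw [h5, Matrix.transpose_mul]
        simp only [Matrix.mul_assoc]
      rw [ha1, Matrix.mul_one, hv1'] at e
      exact e.symm
    have e3 : vᵀ * JR N * v' = βᵀ * β' := by
      have e : vᵀ * JR N * v' = βᵀ * (aᵀ * ((JR N * JR N) * a)) * β' := by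
        rw [h4, h5, Matrix.transpose_mul, Matrix.transpose_mul, hJ2]
        simp only [Matrix.mul_assoc]
      rw [e, hJ1, Matrix.one_mul, ha1, Matrix.mul_one]
    have e4 : β.det ^ 2 = 1 := by
      have := congrArg Matrix.det e1
      rw [Matrix.det_mul, Matrix.det_transpose, Matrix.det_one] at this
      rw [sq, this]
    have e5 : β'.det ^ 2 = 1 := by
      have := congrArg Matrix.det e2
      rw [Matrix.det_mul, Matrix.det_transpose, Matrix.det_one] at this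
      rw [sq, this]
    have e6 : |β.det| = 1 := (pow_eq_one_iff_of_nonneg (abs_nonneg _) two_ne_zero).1 (by rw [sq_abs, e4])
    have e7 : |β'.det| = 1 := (pow_eq_one_iff_of_nonneg (abs_nonneg _) two_ne_zero).1 (by rw [sq_abs, e5])
    rw [e3, Matrix.det_mul, Matrix.det_transpose, abs_mul, e6, e7] at hd'
    norm_num at hd'
  obtain ⟨m, hm, hm2⟩ : ∃ m : ℝ, 0 < m ∧ ∀ p ∈ C, m ≤ f p := by
    rcases C.eq_empty_or_nonempty with h0 | h0
    · exact ⟨1, one_pos, fun p hp => by rw [h0] at hp; exact hp.elim⟩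
    · obtain ⟨p0, hp0, hmin⟩ := hCc.exists_isMinOn h0 hfc.continuousOn
      exact ⟨f p0, hpos p0 hp0, fun p hp => hmin hp⟩
  refine ⟨m / 2, half_pos hm, fun a ha γ hγ γ' hγ' => ?_⟩
  by_contra hcon
  unfold Opp at hcon
  have h1 : (a, Vr r S γ, Vr r S γ') ∈ C := by
    rw [hC]
    exact ⟨⟨ha, Vr_mem hS hr γ, Vr_mem hS hr γ'⟩, (not_le.1 hcon).le⟩
  have h2 := hm2 _ h1
  rw [hf] at h2
  have h3 : nn (Vr r S γ - (JR N * a) * ((JR N * a)ᵀ * Vr r S γ)) < m / 2 := hγ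
  have h4 : nn (Vr r S γ' - a * (aᵀ * Vr r S γ')) < m / 2 := hγ'
  change m ≤ nn (Vr r S γ - (JR N * a) * ((JR N * a)ᵀ * Vr r S γ)) + nn (Vr r S γ' - a * (aᵀ * Vr r S γ')) at h2
  linarith

end Pool.Agent.Helper43.LF
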