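import Pool.Agent.Helper43.LF.Defs

/-!
# Layer LF, block LF12: linear algebra of the contraction

`nn` is the square of the Frobenius norm: `nn (A B) ≤ nn A * nn B`, `nn (A + B) ≤ 2 (nn A + nn B)`; one can use `Matrix.frobenius_norm_mul` etc. (local instances `Matrix.frobeniusNormedAddCommGroup`, `Matrix.frobeniusNormedSpace`, `nn A = ‖A‖²`).
`lin_open`: `v = a (aᵀ v) + s`, `nn s < ρ`; `β = aᵀ v` satisfies `βᵀ β = vᵀ (a aᵀ) v = 1 - sᵀ s`, (`vᵀ v = 1`, `s = (1 - a aᵀ) v`), so `|det β|² = det (1 - sᵀ s) ≥ 1/2` for `ρ` small, and `det (wᵀ J v) = det (wᵀ J a β + wᵀ J s)` is close to `det (wᵀ J a) det β` (`det` is uniformly continuous on bounded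
sets). (A soft proof is also possible: `FrR N r` is compact; the set `{v ∈ FrR N r | det (wᵀ J v) = 0}` is compact and the continuous function `nn (v - a (aᵀ v))` does not vanish on it: if `v = a (aᵀ v)` then `β = aᵀ v` is invertible and `det (wᵀ J v) = det (wᵀ J a) det β ≠ 0`; so it has a positive minimum `2 ρ0` there
(or the set is empty), and on the compact set `{v ∈ FrR N r | nn (v - a aᵀ v) ≤ ρ0}` the function `|det (wᵀ J v)|` has a positive minimum.)
`lin_end`: `V, a ∈ FrR N r`, `nn (V B - a) ≤ η`: `V B = a + s`. `Bᵀ B = (V B)ᵀ (V B) = (a + s)ᵀ (a + s)` is close to `1`, so `B` is invertible and `B⁻¹` is bounded by a constant (depending on `r`); `(1 - a aᵀ) V = (1 - a aᵀ) (a + s) B⁻¹ = (1 - a aᵀ) s B⁻¹`, small.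
-/

set_option autoImplicit false

open Filter Topology Matrix

namespace Pool.Agent.Helper43.LF

open Pool.Agent.Helper55.OB

private theorem nn_trace52 {m r : ℕ} (A : Matrix (Fin m) (Fin r) ℝ) : nn A = (Aᵀ * A).trace := by
  unfold nn
  simp only [Matrix.trace, Matrix.diag_apply, Matrix.mul_apply, Matrix.transpose_apply]
  rw [Finset.sum_comm]
  exact Finset.sum_congr rfl fun j _ => Finset.sum_congr rfl fun i _ => sq _

private theorem nn_nonneg52 {m r : ℕ} (A : Matrix (Fin m) (Fin r) ℝ) : 0 ≤ nn A :=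
  Finset.sum_nonneg fun _ _ => Finset.sum_nonneg fun _ _ => sq_nonneg _

private theorem nn_zero52 {m r : ℕ} {A : Matrix (Fin m) (Fin r) ℝ} (h : nn A = 0) : A = 0 := by
  have h0 := (Finset.sum_eq_zero_iff_of_nonneg fun i _ => Finset.sum_nonneg fun j _ => sq_nonneg (A i j)).1 h
  ext i j
  have h1 := (Finset.sum_eq_zero_iff_of_nonneg fun j _ => sq_nonneg (A i j)).1 (h0 i (Finset.mem_univ i))
  exact (pow_eq_zero_iff two_ne_zero).1 (h1 j (Finset.mem_univ j))

private theorem cont_nn52 {m r : ℕ} : Continuous (nn : Matrix (Fin m) (Fin r) ℝ → ℝ) := by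
  unfold nn
  refine continuous_finsetSum _ fun i _ => continuous_finsetSum _ fun j _ => ?_
  exact (continuous_apply_apply i j).pow 2

private theorem compact52 (N r : ℕ) : IsCompact (FrR N r) := by
  have hK : IsCompact (Set.pi Set.univ fun _ : Fin N => Set.pi Set.univ fun _ : Fin r => Set.Icc (-1 : ℝ) 1) :=
    isCompact_univ_pi fun _ => isCompact_univ_pi fun _ => isCompact_Icc
  refine IsCompact.of_isClosed_subset hK ?_ ?_
  · have h1 : IsClosed {a : Matrix (Fin N) (Fin r) ℝ | aᵀ * a = 1} :=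
      isClosed_eq (continuous_id.matrix_transpose.matrix_mul continuous_id) continuous_const
    have h2 : IsClosed {a : Matrix (Fin N) (Fin r) ℝ | aᵀ * JR N * a = 0} :=
      isClosed_eq ((continuous_id.matrix_transpose.matrix_mul continuous_const).matrix_mul continuous_id) continuous_const
    exact h1.inter h2
  · rintro a ⟨ha, -⟩ i - j -
    have h1 : ∑ k, a k j * a k j = 1 := by
      have := congrFun (congrFun ha j) j
      rwa [Matrix.mul_apply, Matrix.one_apply_eq] at this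
    have h2 : a i j * a i j ≤ 1 := by
      rw [← h1]
      exact Finset.single_le_sum (f := fun k => a k j * a k j) (fun k _ => mul_self_nonneg _) (Finset.mem_univ i)
    constructor <;> nlinarith

theorem lin_open {N r : ℕ} {a w : Matrix (Fin N) (Fin r) ℝ} (ha : a ∈ FrR N r) (hw : (wᵀ * JR N * a).det ≠ 0) :
    ∃ ρ0 δ : ℝ, 0 < ρ0 ∧ 0 < δ ∧ ∀ v ∈ FrR N r, nn (v - a * (aᵀ * v)) < ρ0 → δ ≤ |(wᵀ * JR N * v).det| := by
  have hc : Continuous fun v : Matrix (Fin N) (Fin r) ℝ => nn (v - a * (aᵀ * v)) + |(wᵀ * JR N * v).det| := by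
    refine (cont_nn52.comp (continuous_id.sub (continuous_const.matrix_mul (continuous_const.matrix_mul continuous_id)))).add ?_
    exact (continuous_const.matrix_mul continuous_id).matrix_det.abs
  obtain ⟨v0, hv0, hmin⟩ := (compact52 N r).exists_isMinOn ⟨a, ha⟩ hc.continuousOn
  have hpos : 0 < nn (v0 - a * (aᵀ * v0)) + |(wᵀ * JR N * v0).det| := by
    have h1 := nn_nonneg52 (v0 - a * (aᵀ * v0))
    have h2 := abs_nonneg (wᵀ * JR N * v0).det
    by_contra hcon
    have h3 : nn (v0 - a * (aᵀ * v0)) = 0 := by linarith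
    have h4 : (wᵀ * JR N * v0).det = 0 := abs_eq_zero.1 (by linarith)
    have h5 : v0 = a * (aᵀ * v0) := sub_eq_zero.1 (nn_zero52 h3)
    have h6 : (aᵀ * v0)ᵀ * (aᵀ * v0) = 1 := by
      rw [Matrix.transpose_mul, Matrix.transpose_transpose, Matrix.mul_assoc, ← h5]
      exact hv0.1
    have h7 : (aᵀ * v0).det ≠ 0 := by
      intro h
      have := congrArg Matrix.det h6
      rw [Matrix.det_mul, h, mul_zero, Matrix.det_one] at this
      exact zero_ne_one this
    have h8 : wᵀ * JR N * v0 = (wᵀ * JR N * a) * (aᵀ * v0) := by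
      rw [Matrix.mul_assoc (wᵀ * JR N) a, ← h5]
    rw [h8, Matrix.det_mul] at h4
    rcases mul_eq_zero.1 h4 with h | h
    · exact hw h
    · exact h7 h
  obtain ⟨m, hm⟩ : ∃ m, m = nn (v0 - a * (aᵀ * v0)) + |(wᵀ * JR N * v0).det| := ⟨_, rfl⟩
  rw [← hm] at hpos
  refine ⟨m / 2, m / 2, half_pos hpos, half_pos hpos, fun v hv h => ?_⟩
  have h1 : m ≤ nn (v - a * (aᵀ * v)) + |(wᵀ * JR N * v).det| := by
    rw [hm]
    exact hmin hv
  linarith

theorem lin_end {N r : ℕ} {ρ : ℝ} (hρ : 0 < ρ) : ∃ η : ℝ, 0 < η ∧ ∀ a ∈ FrR N r, ∀ V ∈ FrR N r,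
    ∀ B : Matrix (Fin r) (Fin r) ℝ, nn (V * B - a) ≤ η → nn (V - a * (aᵀ * V)) < ρ := by
  refine ⟨ρ / 2, half_pos hρ, fun a ha V hV B h => ?_⟩
  obtain ⟨C, hC⟩ : ∃ C, C = Vᵀ * a := ⟨_, rfl⟩
  have hCt : Cᵀ = aᵀ * V := by
    rw [hC, Matrix.transpose_mul, Matrix.transpose_transpose]
  have e1 : (V * B - a)ᵀ * (V * B - a) = Bᵀ * B - Bᵀ * C - Cᵀ * B + 1 := by
    have s1 : (Bᵀ * Vᵀ) * (V * B) = Bᵀ * B := by
      rw [Matrix.mul_assoc, ← Matrix.mul_assoc Vᵀ V B, hV.1, Matrix.one_mul]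
    rw [Matrix.transpose_sub, Matrix.transpose_mul, Matrix.sub_mul, Matrix.mul_sub, Matrix.mul_sub, s1, ha.1, hCt, hC,
      Matrix.mul_assoc Bᵀ Vᵀ a, Matrix.mul_assoc aᵀ V B]
    abel
  have e2 : (B - C)ᵀ * (B - C) = Bᵀ * B - Bᵀ * C - Cᵀ * B + Cᵀ * C := by
    rw [Matrix.transpose_sub, Matrix.sub_mul, Matrix.mul_sub, Matrix.mul_sub]
    abel
  have e3 : (V - a * (aᵀ * V))ᵀ * (V - a * (aᵀ * V)) = 1 - C * Cᵀ := by
    rw [← hCt, Matrix.transpose_sub, Matrix.transpose_mul, Matrix.transpose_transpose, Matrix.sub_mul, Matrix.mul_sub,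
      Matrix.mul_sub, hV.1]
    have s1 : Vᵀ * (a * Cᵀ) = C * Cᵀ := by rw [← Matrix.mul_assoc, ← hC]
    have s2 : C * aᵀ * V = C * Cᵀ := by rw [Matrix.mul_assoc, ← hCt]
    have s3 : C * aᵀ * (a * Cᵀ) = C * Cᵀ := by
      rw [Matrix.mul_assoc, ← Matrix.mul_assoc aᵀ a, ha.1, Matrix.one_mul]
    rw [s1, s2, s3]
    abel
  have t1 := nn_trace52 (V * B - a)
  have t2 := nn_trace52 (B - C)
  have t3 := nn_trace52 (V - a * (aᵀ * V))
  rw [e1] at t1
  rw [e2] at t2
  rw [e3] at t3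
  rw [Matrix.trace_add, Matrix.trace_sub, Matrix.trace_sub] at t1 t2
  rw [Matrix.trace_sub, Matrix.trace_mul_comm] at t3
  have t4 := nn_nonneg52 (B - C)
  linarith

end Pool.Agent.Helper43.LF
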