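import Pool.Agent.Helper43.LF.Defs

/-!
# Layer LF, block LF12b: linear algebra of the contraction, the hyperbolic element

`nn` is the square of the Frobenius norm: `nn (A B) ≤ nn A * nn B`, `nn (A + B) ≤ 2 (nn A + nn B)`; one can use `Matrix.frobenius_norm_mul` etc. (local instances `Matrix.frobeniusNormedAddCommGroup`, `Matrix.frobeniusNormedSpace`, `nn A = ‖A‖²`).
`lin_hyp`: `hyp a w t = 1 + (e^t - 1) Π₊ + (e^(-t) - 1) Π₋`, `Π₊ = a m⁻¹ wᵀ J`, `m = wᵀ J a`. `u (hyp a w t) u' v = e^t (u a m⁻¹ (wᵀ J u' v)) + u (1 - Π₊ + (e^(-t) - 1) Π₋) u' v`. Let `D = m⁻¹ wᵀ J u' v`, `|det D| ≥ δ / (2 |det m|)` for `ε` small (uniformly in `v ∈ FrR`, bounded), so `D⁻¹` is bounded by a constant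
(adjugate / determinant). Take `β = (e^t D)⁻¹`: `(u hyp u' v) β = u a + u (1 - Π₊ + (e^(-t) - 1) Π₋) u' v D⁻¹ e^(-t)` is close to `a` for `ε` small and `t` large. Only `r ≤ N` arbitrary, constants may depend on `a`, `w`, `N`, `r`.
-/

set_option autoImplicit false

open Filter Topology Matrix

namespace Pool.Agent.Helper43.LF

open Pool.Agent.Helper55.OB

private theorem continuous_nn42 {m r : ℕ} : Continuous fun A : Matrix (Fin m) (Fin r) ℝ => nn A := by
  unfold nn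
  exact continuous_finsetSum _ fun i _ => continuous_finsetSum _ fun j _ => (continuous_id.matrix_elem i j).pow 2

private theorem nn_nhds42 {N : ℕ} {U : Set (Matrix (Fin N) (Fin N) ℝ)} (hU : U ∈ 𝓝 (1 : Matrix (Fin N) (Fin N) ℝ)) :
    ∃ ε : ℝ, 0 < ε ∧ ∀ u : Matrix (Fin N) (Fin N) ℝ, nn (u - 1) ≤ ε → u ∈ U := by
  have hc : Continuous fun f : Fin N → Fin N → ℝ => (Matrix.of f : Matrix (Fin N) (Fin N) ℝ) :=
    continuous_matrix fun i j => continuous_apply_apply i j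
  have hU' : (fun f : Fin N → Fin N → ℝ => (Matrix.of f : Matrix (Fin N) (Fin N) ℝ)) ⁻¹' U ∈
      𝓝 (fun i j => (1 : Matrix (Fin N) (Fin N) ℝ) i j) := hc.continuousAt.preimage_mem_nhds hU
  obtain ⟨δ, hδ, hb⟩ := Metric.nhds_basis_closedBall.mem_iff.1 hU'
  refine ⟨δ ^ 2, by positivity, fun u hu => ?_⟩
  have hb' : (fun i j => u i j) ∈ Metric.closedBall (fun i j => (1 : Matrix (Fin N) (Fin N) ℝ) i j) δ → u ∈ U :=
    fun h => hb h
  refine hb' ?_
  rw [Metric.mem_closedBall]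
  refine (dist_pi_le_iff hδ.le).2 fun i => (dist_pi_le_iff hδ.le).2 fun j => ?_
  rw [Real.dist_eq]
  refine abs_le_of_sq_le_sq ?_ hδ.le
  have h1 : (u i j - (1 : Matrix (Fin N) (Fin N) ℝ) i j) ^ 2 ≤ nn (u - 1) := by
    unfold nn
    refine le_trans ?_ (Finset.single_le_sum (f := fun i => ∑ j, (u - 1 : Matrix (Fin N) (Fin N) ℝ) i j ^ 2)
      (fun i _ => Finset.sum_nonneg fun j _ => sq_nonneg _) (Finset.mem_univ i))
    refine le_trans ?_ (Finset.single_le_sum (f := fun j => (u - 1 : Matrix (Fin N) (Fin N) ℝ) i j ^ 2)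
      (fun j _ => sq_nonneg _) (Finset.mem_univ j))
    rw [Matrix.sub_apply]
  exact h1.trans hu

private theorem compact42 {N r : ℕ} (w : Matrix (Fin N) (Fin r) ℝ) (δ : ℝ) :
    IsCompact {v : Matrix (Fin N) (Fin r) ℝ | v ∈ FrR N r ∧ δ ≤ |(wᵀ * JR N * v).det|} := by
  have hbox : IsCompact (Set.pi Set.univ fun _ : Fin N => Set.pi Set.univ fun _ : Fin r => Set.Icc (-1 : ℝ) 1) :=
    isCompact_univ_pi fun i => isCompact_univ_pi fun j => isCompact_Icc
  refine IsCompact.of_isClosed_subset (X := Matrix (Fin N) (Fin r) ℝ) hbox ?_ ?_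
  · have c1 : Continuous fun v : Matrix (Fin N) (Fin r) ℝ => vᵀ * v := continuous_id.matrix_transpose.matrix_mul continuous_id
    have c2 : Continuous fun v : Matrix (Fin N) (Fin r) ℝ => vᵀ * JR N * v :=
      (continuous_id.matrix_transpose.matrix_mul continuous_const).matrix_mul continuous_id
    have c3 : Continuous fun v : Matrix (Fin N) (Fin r) ℝ => |(wᵀ * JR N * v).det| :=
      (continuous_const.matrix_mul continuous_id).matrix_det.abs
    exact ((isClosed_eq c1 continuous_const).inter (isClosed_eq c2 continuous_const)).inter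
      (isClosed_le continuous_const c3)
  · rintro v ⟨⟨h1, -⟩, -⟩
    refine Set.mem_univ_pi.2 fun i => Set.mem_univ_pi.2 fun j => ?_
    have h2 : (vᵀ * v) j j = 1 := by rw [h1, Matrix.one_apply_eq]
    rw [Matrix.mul_apply] at h2
    have h3 : v i j ^ 2 ≤ 1 := by
      rw [← h2]
      refine le_trans (le_of_eq ?_) (Finset.single_le_sum (f := fun k => vᵀ j k * v k j)
        (fun k _ => by rw [Matrix.transpose_apply]; exact mul_self_nonneg _) (Finset.mem_univ i))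
      rw [Matrix.transpose_apply]
      ring
    have h4 : |v i j| ≤ 1 := by
      refine abs_le_of_sq_le_sq ?_ zero_le_one
      rw [one_pow]
      exact h3
    exact abs_le.1 h4

private noncomputable def be42 {N r : ℕ} (a w : Matrix (Fin N) (Fin r) ℝ) (u' : Matrix (Fin N) (Fin N) ℝ) (s : ℝ)
    (v : Matrix (Fin N) (Fin r) ℝ) : Matrix (Fin r) (Fin r) ℝ :=
  s • (((wᵀ * JR N * u' * v).det⁻¹ • (wᵀ * JR N * u' * v).adjugate) * (wᵀ * JR N * a))

private noncomputable def ff42 {N r : ℕ} (a w : Matrix (Fin N) (Fin r) ℝ) (P Q : Matrix (Fin N) (Fin N) ℝ)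
    (u u' : Matrix (Fin N) (Fin N) ℝ) (s : ℝ) (v : Matrix (Fin N) (Fin r) ℝ) : Matrix (Fin N) (Fin r) ℝ :=
  u * a + u * (1 - P + (s - 1) • Q) * u' * v * be42 a w u' s v - a

private theorem alg42 {N r : ℕ} {a w : Matrix (Fin N) (Fin r) ℝ} (hw : (wᵀ * JR N * a).det ≠ 0)
    (u u' : Matrix (Fin N) (Fin N) ℝ) (t : ℝ) (v : Matrix (Fin N) (Fin r) ℝ) (hE : (wᵀ * JR N * u' * v).det ≠ 0) :
    u * hyp a w t * u' * v * be42 a w u' (Real.exp (-t)) v - a =
      ff42 a w (a * (wᵀ * JR N * a)⁻¹ * wᵀ * JR N) (w * (aᵀ * JR N * w)⁻¹ * aᵀ * JR N) u u' (Real.exp (-t)) v := by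
  set m := wᵀ * JR N * a with hm
  set E := wᵀ * JR N * u' * v with hEd
  set P := a * m⁻¹ * wᵀ * JR N with hP
  set Q := w * (aᵀ * JR N * w)⁻¹ * aᵀ * JR N with hQ
  set s := Real.exp (-t) with hs
  have hts : Real.exp t * s = 1 := by rw [hs, ← Real.exp_add]; simp
  have hbe : be42 a w u' s v = s • (E⁻¹ * m) := by
    unfold be42
    rw [Matrix.inv_def, Ring.inverse_eq_inv']
  have hH : hyp a w t = Real.exp t • P + (1 - P + (s - 1) • Q) := by
    unfold hyp
    rw [← hm, ← hP, ← hQ, sub_smul, one_smul]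
    abel
  have hEE : E * E⁻¹ = 1 := Matrix.mul_nonsing_inv E (isUnit_iff_ne_zero.2 hE)
  have hmm : m⁻¹ * m = 1 := Matrix.nonsing_inv_mul m (isUnit_iff_ne_zero.2 hw)
  have hmain : u * (Real.exp t • P) * u' * v * (s • (E⁻¹ * m)) = u * a := by
    have e1 : u * (Real.exp t • P) * u' * v * (s • (E⁻¹ * m)) = (Real.exp t * s) • (u * a * (m⁻¹ * ((E * E⁻¹) * m))) := by
      rw [mul_comm (Real.exp t) s]
      simp only [Matrix.mul_smul, Matrix.smul_mul, smul_smul]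
      congr 1
      rw [hP, hEd]
      simp only [Matrix.mul_assoc]
    rw [e1, hts, one_smul, hEE, Matrix.one_mul, hmm, Matrix.mul_one]
  unfold ff42
  rw [hbe, hH, Matrix.mul_add, Matrix.add_mul, Matrix.add_mul, Matrix.add_mul, hmain]

theorem lin_hyp {N r : ℕ} {a w : Matrix (Fin N) (Fin r) ℝ} (ha : a ∈ FrR N r) (hw : (wᵀ * JR N * a).det ≠ 0)
    {δ η : ℝ} (hδ : 0 < δ) (hη : 0 < η) : ∃ ε M : ℝ, 0 < ε ∧ ∀ t, M ≤ t → ∀ u u' : Matrix (Fin N) (Fin N) ℝ,
      nn (u - 1) ≤ ε → nn (u' - 1) ≤ ε → ∃ C : ℝ, ∀ v ∈ FrR N r, δ ≤ |(wᵀ * JR N * v).det| →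
        ∃ β : Matrix (Fin r) (Fin r) ℝ, nn β ≤ C ∧ nn (u * hyp a w t * u' * v * β - a) ≤ η := by
  set P := a * (wᵀ * JR N * a)⁻¹ * wᵀ * JR N with hP
  set Q := w * (aᵀ * JR N * w)⁻¹ * aᵀ * JR N with hQ
  set K := {v : Matrix (Fin N) (Fin r) ℝ | v ∈ FrR N r ∧ δ ≤ |(wᵀ * JR N * v).det|} with hK
  have hKc : IsCompact K := compact42 w δ
  have hev : ∀ᶠ x : Matrix (Fin N) (Fin N) ℝ × Matrix (Fin N) (Fin N) ℝ × ℝ in
      𝓝 ((1 : Matrix (Fin N) (Fin N) ℝ), (1 : Matrix (Fin N) (Fin N) ℝ), (0 : ℝ)),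
      ∀ v ∈ K, (wᵀ * JR N * x.2.1 * v).det ≠ 0 ∧ nn (ff42 a w P Q x.1 x.2.1 x.2.2 v) ≤ η := by
    refine hKc.eventually_forall_of_forall_eventually fun v hv => ?_
    have hdet0 : (wᵀ * JR N * (1 : Matrix (Fin N) (Fin N) ℝ) * v).det ≠ 0 := by
      rw [Matrix.mul_one]
      intro h0
      have h1 := hv.2
      rw [h0, abs_zero] at h1
      linarith
    have cE : Continuous fun z : (Matrix (Fin N) (Fin N) ℝ × Matrix (Fin N) (Fin N) ℝ × ℝ) × Matrix (Fin N) (Fin r) ℝ =>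
        wᵀ * JR N * z.1.2.1 * z.2 :=
      (continuous_const.matrix_mul (continuous_fst.comp (continuous_snd.comp continuous_fst))).matrix_mul continuous_snd
    have cd : ContinuousAt (fun z : (Matrix (Fin N) (Fin N) ℝ × Matrix (Fin N) (Fin N) ℝ × ℝ) × Matrix (Fin N) (Fin r) ℝ =>
        (wᵀ * JR N * z.1.2.1 * z.2).det) (((1 : Matrix (Fin N) (Fin N) ℝ), (1 : Matrix (Fin N) (Fin N) ℝ), (0 : ℝ)), v) :=
      cE.matrix_det.continuousAt
    have cbe : ContinuousAt (fun z : (Matrix (Fin N) (Fin N) ℝ × Matrix (Fin N) (Fin N) ℝ × ℝ) × Matrix (Fin N) (Fin r) ℝ =>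
        be42 a w z.1.2.1 z.1.2.2 z.2) (((1 : Matrix (Fin N) (Fin N) ℝ), (1 : Matrix (Fin N) (Fin N) ℝ), (0 : ℝ)), v) := by
      unfold be42
      have c1 := (cd.inv₀ hdet0).smul cE.matrix_adjugate.continuousAt
      have c2 : Continuous fun z : Matrix (Fin r) (Fin r) ℝ => z * (wᵀ * JR N * a) := continuous_id.matrix_mul continuous_const
      have c3 : Continuous fun z : (Matrix (Fin N) (Fin N) ℝ × Matrix (Fin N) (Fin N) ℝ × ℝ) × Matrix (Fin N) (Fin r) ℝ =>
          z.1.2.2 := continuous_snd.comp (continuous_snd.comp continuous_fst)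
      exact c3.continuousAt.smul (c2.continuousAt.comp c1)
    have cff : ContinuousAt (fun z : (Matrix (Fin N) (Fin N) ℝ × Matrix (Fin N) (Fin N) ℝ × ℝ) × Matrix (Fin N) (Fin r) ℝ =>
        ff42 a w P Q z.1.1 z.1.2.1 z.1.2.2 z.2) (((1 : Matrix (Fin N) (Fin N) ℝ), (1 : Matrix (Fin N) (Fin N) ℝ), (0 : ℝ)), v) := by
      unfold ff42
      have d1 : Continuous fun z : (Matrix (Fin N) (Fin N) ℝ × Matrix (Fin N) (Fin N) ℝ × ℝ) × Matrix (Fin N) (Fin r) ℝ =>
          z.1.1 := continuous_fst.comp continuous_fst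
      have d2 : Continuous fun z : (Matrix (Fin N) (Fin N) ℝ × Matrix (Fin N) (Fin N) ℝ × ℝ) × Matrix (Fin N) (Fin r) ℝ =>
          z.1.2.1 := continuous_fst.comp (continuous_snd.comp continuous_fst)
      have d3 : Continuous fun z : (Matrix (Fin N) (Fin N) ℝ × Matrix (Fin N) (Fin N) ℝ × ℝ) × Matrix (Fin N) (Fin r) ℝ =>
          z.1.2.2 := continuous_snd.comp (continuous_snd.comp continuous_fst)
      have d4 : Continuous fun z : (Matrix (Fin N) (Fin N) ℝ × Matrix (Fin N) (Fin N) ℝ × ℝ) × Matrix (Fin N) (Fin r) ℝ =>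
          (1 - P + (z.1.2.2 - 1) • Q) := continuous_const.add ((d3.sub continuous_const).smul continuous_const)
      have d5 := ((d1.matrix_mul d4).matrix_mul d2).matrix_mul (continuous_snd (X := Matrix (Fin N) (Fin N) ℝ ×
        Matrix (Fin N) (Fin N) ℝ × ℝ) (Y := Matrix (Fin N) (Fin r) ℝ))
      have d6 : Continuous fun z : Matrix (Fin N) (Fin r) ℝ × Matrix (Fin r) (Fin r) ℝ => z.1 * z.2 :=
        continuous_fst.matrix_mul continuous_snd
      have d7 := d6.continuousAt.comp (d5.continuousAt.prodMk cbe)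
      exact ((d1.matrix_mul continuous_const).continuousAt.add d7).sub continuousAt_const
    have cnn := continuous_nn42.continuousAt.comp cff
    have h0 : nn (ff42 a w P Q 1 1 0 v) = 0 := by
      have : ff42 a w P Q 1 1 0 v = 0 := by
        unfold ff42 be42
        rw [zero_smul, Matrix.mul_zero, Matrix.one_mul, add_zero, sub_self]
      rw [this]
      simp [nn]
    have e1 := cd.eventually_ne hdet0
    have e2 : ∀ᶠ z : (Matrix (Fin N) (Fin N) ℝ × Matrix (Fin N) (Fin N) ℝ × ℝ) × Matrix (Fin N) (Fin r) ℝ in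
        𝓝 (((1 : Matrix (Fin N) (Fin N) ℝ), (1 : Matrix (Fin N) (Fin N) ℝ), (0 : ℝ)), v),
        nn (ff42 a w P Q z.1.1 z.1.2.1 z.1.2.2 z.2) < η := by
      refine cnn.eventually_lt continuousAt_const ?_
      simp only [Function.comp]
      rw [h0]
      exact hη
    filter_upwards [e1, e2] with z hz1 hz2
    exact ⟨hz1, hz2.le⟩
  obtain ⟨U, hU, V, hV, hUV⟩ := mem_nhds_prod_iff.1 hev
  obtain ⟨U', hU', S, hS, hUS⟩ := mem_nhds_prod_iff.1 hV
  obtain ⟨ε1, hε1, h1⟩ := nn_nhds42 hU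
  obtain ⟨ε2, hε2, h2⟩ := nn_nhds42 hU'
  obtain ⟨M, hM⟩ := eventually_atTop.1 (Real.tendsto_exp_neg_atTop_nhds_zero.eventually hS)
  refine ⟨min ε1 ε2, M, lt_min hε1 hε2, fun t ht u u' hu hu' => ?_⟩
  have hmem : (u, u', Real.exp (-t)) ∈ {x : Matrix (Fin N) (Fin N) ℝ × Matrix (Fin N) (Fin N) ℝ × ℝ |
      ∀ v ∈ K, (wᵀ * JR N * x.2.1 * v).det ≠ 0 ∧ nn (ff42 a w P Q x.1 x.2.1 x.2.2 v) ≤ η} :=
    hUV ⟨h1 u (hu.trans (min_le_left _ _)), hUS ⟨h2 u' (hu'.trans (min_le_right _ _)), hM t ht⟩⟩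
  have hb : ContinuousOn (fun v => nn (be42 a w u' (Real.exp (-t)) v)) K := by
    refine continuous_nn42.comp_continuousOn ?_
    unfold be42
    have cE : Continuous fun v : Matrix (Fin N) (Fin r) ℝ => wᵀ * JR N * u' * v :=
      continuous_const.matrix_mul continuous_id
    have c1 : ContinuousOn (fun v : Matrix (Fin N) (Fin r) ℝ => (wᵀ * JR N * u' * v).det⁻¹ • (wᵀ * JR N * u' * v).adjugate) K :=
      (cE.matrix_det.continuousOn.inv₀ fun v hv => (hmem v hv).1).smul cE.matrix_adjugate.continuousOn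
    have c0 : Continuous fun z : Matrix (Fin r) (Fin r) ℝ => z * (wᵀ * JR N * a) := continuous_id.matrix_mul continuous_const
    have c2 : Continuous fun z : Matrix (Fin r) (Fin r) ℝ => Real.exp (-t) • (z * (wᵀ * JR N * a)) := c0.const_smul (Real.exp (-t))
    exact c2.comp_continuousOn c1
  obtain ⟨C, hC⟩ := hKc.exists_bound_of_continuousOn hb
  refine ⟨C, fun v hv hvd => ⟨be42 a w u' (Real.exp (-t)) v, ?_, ?_⟩⟩
  · exact (Real.le_norm_self _).trans (hC v ⟨hv, hvd⟩)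
  · have h3 := hmem v ⟨hv, hvd⟩
    rw [alg42 hw u u' t v h3.1]
    exact h3.2

end Pool.Agent.Helper43.LF
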