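import Pool.Agent.Helper43.LF.Asy
import Pool.Agent.Helper43.LF.Lin
import Pool.Agent.Helper43.LF.Lin2

/-!
# Layer LF, block LF13: moving the positions

`nn (A B) ≤ nn A * nn B`, `nn (A + B) ≤ 2 (nn A + nn B)` (Frobenius norm). PROOF of `mov_pair`. `lin_open` for `(a1, w)` and `(a2, w)`: `ρ0 = min`, `δ = min`. Given `ρ1`, `ρ2`: `η` from `lin_end` for `ρ1`; `ε`, `M` from `lin_hyp` (`a1`, `w`, `δ`, `η / 4`); `k`, `t`, `u`, `u'`, `c` from `Prox` (`a1`, `w`, `ε`, `M`); `C` from `lin_hyp`.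
Let `γ ∈ Bl S a_i ρ_i`, `v = Vr r S γ ∈ FrR` (`Vr_mem`), `δ ≤ |det (wᵀ J v)|`, `β` as in `lin_hyp`; `A = (PR P k)ᵀ v = c • (u hyp u' v)`, `c² = 1`, so `nn (A (c • β) - a1) ≤ η / 4`, `nn (c • β) ≤ C`. With `V = Vr r S (γ k)`, `B = (Vᵀ A) (c • β)`:
`V B - a1 = (V (Vᵀ A) - A) (c • β) + (A (c • β) - a1)`, `nn ≤ 2 (nn (A - V (Vᵀ A)) * C + η / 4) ≤ η` as soon as `nn (A - V (Vᵀ A)) * C ≤ η / 4`, which holds eventually along `T.F n` by `asym`. `lin_end`: `nn (V - a1 (a1ᵀ V)) < ρ1`, that is `γ k ∈ Bl S a1 ρ1`.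
-/

set_option autoImplicit false

open Filter Topology Matrix

namespace Pool.Agent.Helper43.LF

open Pool.Agent.Helper84 Pool.Agent.Helper84.GN Pool.Agent.Helper84.GN.S3
open Pool.Agent.Helper84.NI Pool.Agent.Helper84.GVN Pool.Agent.Helper90.RK
open Pool.Agent.Helper55.OB

section NN

variable {m l r : ℕ}

private theorem nn_nonneg93 (A : Matrix (Fin m) (Fin r) ℝ) : 0 ≤ nn A :=
  Finset.sum_nonneg fun _ _ => Finset.sum_nonneg fun _ _ => sq_nonneg _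

private theorem nn_mul93 (A : Matrix (Fin m) (Fin l) ℝ) (B : Matrix (Fin l) (Fin r) ℝ) :
    nn (A * B) ≤ nn A * nn B := by
  have h1 : ∀ i j, (A * B) i j ^ 2 ≤ (∑ k, A i k ^ 2) * ∑ k, B k j ^ 2 := by
    intro i j
    rw [Matrix.mul_apply]
    exact Finset.sum_mul_sq_le_sq_mul_sq _ _ _
  calc nn (A * B) ≤ ∑ i, ∑ j, (∑ k, A i k ^ 2) * ∑ k, B k j ^ 2 :=
        Finset.sum_le_sum fun i _ => Finset.sum_le_sum fun j _ => h1 i j
    _ = (∑ i, ∑ k, A i k ^ 2) * ∑ j, ∑ k, B k j ^ 2 := by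
        rw [Finset.sum_mul_sum]
    _ = nn A * nn B := by
        unfold nn
        rw [Finset.sum_comm (f := fun j k => B k j ^ 2)]

private theorem nn_add93 (A B : Matrix (Fin m) (Fin r) ℝ) : nn (A + B) ≤ 2 * (nn A + nn B) := by
  unfold nn
  rw [← Finset.sum_add_distrib, Finset.mul_sum]
  refine Finset.sum_le_sum fun i _ => ?_
  rw [← Finset.sum_add_distrib, Finset.mul_sum]
  refine Finset.sum_le_sum fun j _ => ?_
  rw [Matrix.add_apply]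
  nlinarith [sq_nonneg (A i j - B i j)]

private theorem nn_sub_comm93 (A B : Matrix (Fin m) (Fin r) ℝ) : nn (A - B) = nn (B - A) := by
  unfold nn
  refine Finset.sum_congr rfl fun i _ => Finset.sum_congr rfl fun j _ => ?_
  rw [Matrix.sub_apply, Matrix.sub_apply]
  ring

private theorem nn_smul93 (c : ℝ) (A : Matrix (Fin m) (Fin r) ℝ) : nn (c • A) = c ^ 2 * nn A := by
  unfold nn
  rw [Finset.mul_sum]
  refine Finset.sum_congr rfl fun i _ => ?_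
  rw [Finset.mul_sum]
  refine Finset.sum_congr rfl fun j _ => ?_
  rw [Matrix.smul_apply, smul_eq_mul]
  ring

end NN

variable {G : Type} [Group G] {N : ℕ} {P : PH G N} {S : Sv P}

private theorem core93 (hS : SO2 P S) (T : Str S) {r : ℕ} (hr : r = 1 ∨ r = 2) (hT : Sep T r)
    {a : Matrix (Fin N) (Fin r) ℝ} (ha : a ∈ FrR N r) {ρ δ η C c : ℝ} {k : G}
    {X : Matrix (Fin N) (Fin N) ℝ} {w : Matrix (Fin N) (Fin r) ℝ} (hη : 0 < η)
    (Hη : ∀ V ∈ FrR N r, ∀ B : Matrix (Fin r) (Fin r) ℝ, nn (V * B - a) ≤ η → nn (V - a * (aᵀ * V)) < ρ)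
    (hc : c ^ 2 = 1) (hk : (PR P k)ᵀ = c • X)
    (HC : ∀ v ∈ FrR N r, δ ≤ |(wᵀ * JR N * v).det| →
        ∃ β : Matrix (Fin r) (Fin r) ℝ, nn β ≤ C ∧ nn (X * v * β - a) ≤ η / 4) (n : ℕ) :
    ∀ᶠ γ in T.F n, δ ≤ |(wᵀ * JR N * Vr r S γ).det| → γ * k ∈ Bl S a ρ := by
  have hC1 : 0 < |C| + 1 := by positivity
  have hlt : 0 < η / (4 * (|C| + 1)) := by positivity
  filter_upwards [(asym hS T hr hT k n).eventually_lt_const hlt] with γ hγ hδ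
  have hv := Vr_mem hS hr γ
  have hV := Vr_mem hS hr (γ * k)
  obtain ⟨β, hβ, hβ2⟩ := HC _ hv hδ
  set v := Vr r S γ with hvdef
  set V := Vr r S (γ * k) with hVdef
  set A := (PR P k)ᵀ * v with hA
  have hAc : A = c • (X * v) := by
    rw [hA, hk, Matrix.smul_mul]
  refine Hη V hV ((Vᵀ * A) * (c • β)) ?_
  have e1 : V * ((Vᵀ * A) * (c • β)) - a = (V * (Vᵀ * A) - A) * (c • β) + (A * (c • β) - a) := by
    rw [Matrix.sub_mul, ← Matrix.mul_assoc V]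
    abel
  have e2 : A * (c • β) = X * v * β := by
    rw [hAc, Matrix.smul_mul, Matrix.mul_smul, smul_smul, ← pow_two, hc, one_smul]
  have e3 : nn ((V * (Vᵀ * A) - A) * (c • β)) ≤ η / 4 := by
    have hβC : nn β ≤ |C| + 1 := hβ.trans ((le_abs_self C).trans (by linarith))
    calc nn ((V * (Vᵀ * A) - A) * (c • β)) ≤ nn (V * (Vᵀ * A) - A) * nn (c • β) := nn_mul93 _ _
      _ = nn (A - V * (Vᵀ * A)) * nn β := by rw [nn_sub_comm93, nn_smul93, hc, one_mul]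
      _ ≤ η / (4 * (|C| + 1)) * (|C| + 1) :=
          mul_le_mul hγ.le hβC (nn_nonneg93 _) hlt.le
      _ = η / 4 := by
          field_simp
  rw [e1, e2]
  refine (nn_add93 _ _).trans ?_
  linarith

theorem mov_pair (hS : SO2 P S) (T : Str S) {r : ℕ} (hr : r = 1 ∨ r = 2) (hT : Sep T r) (hP : Prox P r)
    {a1 a2 w : Matrix (Fin N) (Fin r) ℝ} (h1 : a1 ∈ FrR N r) (h2 : a2 ∈ FrR N r) (hw : w ∈ FrR N r)
    (hw1 : (wᵀ * JR N * a1).det ≠ 0) (hw2 : (wᵀ * JR N * a2).det ≠ 0) :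
    ∃ ρ0 : ℝ, 0 < ρ0 ∧ ∀ ρ1 ρ2, 0 < ρ1 → ρ1 < ρ0 → 0 < ρ2 → ρ2 < ρ0 →
      ∃ k : G, Mv (GN.toReg T) k (Bl S a1 ρ1) (Bl S a1 ρ1) ∧ Mv (GN.toReg T) k (Bl S a2 ρ2) (Bl S a1 ρ1) := by
  obtain ⟨r1, δ1, hr1, hδ1, H1⟩ := lin_open h1 hw1
  obtain ⟨r2, δ2, hr2, hδ2, H2⟩ := lin_open h2 hw2
  refine ⟨min r1 r2, lt_min hr1 hr2, fun ρ1 ρ2 p1 p2 p3 p4 => ?_⟩
  obtain ⟨η, hη, Hη⟩ := lin_end (N := N) (r := r) p1
  obtain ⟨ε, M, hε, H⟩ := lin_hyp h1 hw1 (lt_min hδ1 hδ2) (η := η / 4) (by positivity)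
  obtain ⟨k, t, u, u', c, hM, hu, hu', hc, hk⟩ := hP a1 h1 w hw hw1 ε hε M
  obtain ⟨C, HC⟩ := H t hM u u' hu hu'
  have hc2 : c ^ 2 = 1 := by
    rcases hc with rfl | rfl <;> norm_num
  have key := core93 hS T hr hT h1 hη (Hη a1 h1) hc2 hk HC
  refine ⟨k, fun n => ?_, fun n => ?_⟩
  · filter_upwards [key n] with γ hγ hb
    refine hγ ((min_le_left _ _).trans (H1 _ (Vr_mem hS hr γ) ?_))
    exact lt_trans hb (p2.trans_le (min_le_left _ _))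
  · filter_upwards [key n] with γ hγ hb
    refine hγ ((min_le_right _ _).trans (H2 _ (Vr_mem hS hr γ) ?_))
    exact lt_trans hb (p4.trans_le (min_le_right _ _))

end Pool.Agent.Helper43.LF
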