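import Pool.Agent.Helper43.LF.Defs

/-!
# Layer LF, block LF9: orthonormalisation

PROOF of `exists_ortho`: `r = 1`: divide by the norm of the column (`Aᵀ A` is the `1 × 1` matrix of the square of the norm, not zero). `r = 2`: Gram-Schmidt: columns `x`, `y` with `Aᵀ A` invertible, so `x ≠ 0`, `x' = x / ‖x‖`, `y' = y - (x' · y) x' ≠ 0` (otherwise the Gram determinant
vanishes), `y'' = y' / ‖y'‖`. (Or for all `r`: the positive definite square root: `S = (AᵀA)^(1/2)`, `β = S⁻¹`.) `exists_fr`: the matrix `A β` is also isotropic: `(A β)ᵀ J (A β) = βᵀ (Aᵀ J A) β = 0`.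
-/

set_option autoImplicit false

open Matrix

namespace Pool.Agent.Helper43.LF

open Pool.Agent.Helper55.OB

private theorem gram28 {N r : ℕ} (A : Matrix (Fin N) (Fin r) ℝ) (β : Matrix (Fin r) (Fin r) ℝ) :
    (A * β)ᵀ * (A * β) = βᵀ * (Aᵀ * A) * β := by
  rw [Matrix.transpose_mul]
  simp only [Matrix.mul_assoc]

private theorem one28 {S : Matrix (Fin 1) (Fin 1) ℝ} (hp : 0 < S 0 0) :
    ∃ β : Matrix (Fin 1) (Fin 1) ℝ, β.det ≠ 0 ∧ βᵀ * S * β = 1 := by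
  have h1 : √(S 0 0) ≠ 0 := (Real.sqrt_pos.2 hp).ne'
  have h2 : √(S 0 0) * √(S 0 0) = S 0 0 := Real.mul_self_sqrt hp.le
  refine ⟨Matrix.of fun _ _ => (√(S 0 0))⁻¹, ?_, ?_⟩
  · rw [Matrix.det_fin_one]
    exact inv_ne_zero h1
  · ext i j
    fin_cases i
    fin_cases j
    simp only [Matrix.mul_apply, Fin.sum_univ_one, Fin.zero_eta, Matrix.transpose_apply, Matrix.of_apply,
      Matrix.one_apply_eq]
    field_simp
    rw [sq, h2]

private theorem two28 {S : Matrix (Fin 2) (Fin 2) ℝ} (hs : S 1 0 = S 0 1) (hp : 0 < S 0 0)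
    (hD : 0 < S 0 0 * S 1 1 - S 0 1 * S 0 1) :
    ∃ β : Matrix (Fin 2) (Fin 2) ℝ, β.det ≠ 0 ∧ βᵀ * S * β = 1 := by
  obtain ⟨p, hp'⟩ : ∃ p, p = S 0 0 := ⟨_, rfl⟩
  obtain ⟨q, hq'⟩ : ∃ q, q = S 0 1 := ⟨_, rfl⟩
  obtain ⟨s, hs'⟩ : ∃ s, s = S 1 1 := ⟨_, rfl⟩
  have hS : S = !![p, q; q, s] := by
    ext i j
    fin_cases i <;> fin_cases j <;> simp [hp', hq', hs', hs]
  rw [← hp'] at hp
  rw [← hp', ← hq', ← hs'] at hD
  obtain ⟨a, ha⟩ : ∃ a, a = √p := ⟨_, rfl⟩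
  obtain ⟨d, hd⟩ : ∃ d, d = √(p * s - q * q) := ⟨_, rfl⟩
  have ha0 : a ≠ 0 := by
    rw [ha]
    exact (Real.sqrt_pos.2 hp).ne'
  have hd0 : d ≠ 0 := by
    rw [hd]
    exact (Real.sqrt_pos.2 hD).ne'
  have ha2 : p = a * a := by
    rw [ha]
    exact (Real.mul_self_sqrt hp.le).symm
  have hd2 : d * d = p * s - q * q := by
    rw [hd]
    exact Real.mul_self_sqrt hD.le
  have hd3 : a * a * s = d * d + q * q := by
    rw [← ha2]
    linarith
  refine ⟨!![1 / a, -q / (a * d); 0, a / d], ?_, ?_⟩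
  · rw [Matrix.det_fin_two_of]
    have h1 : 1 / a * (a / d) - -q / (a * d) * 0 = 1 / d := by
      field_simp
      ring
    rw [h1]
    exact one_div_ne_zero hd0
  · rw [hS, ha2]
    ext i j
    fin_cases i <;> fin_cases j
    · simp [Matrix.mul_apply, Fin.sum_univ_two]
      field_simp
    · simp [Matrix.mul_apply, Fin.sum_univ_two]
      field_simp
      ring
    · simp [Matrix.mul_apply, Fin.sum_univ_two]
      left
      field_simp
      ring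
    · simp [Matrix.mul_apply, Fin.sum_univ_two]
      field_simp
      linear_combination hd3

/-- Orthonormalisation of the columns. -/
theorem exists_ortho {N r : ℕ} (hr : r = 1 ∨ r = 2) {A : Matrix (Fin N) (Fin r) ℝ} (hA : (Aᵀ * A).det ≠ 0) :
    ∃ β : Matrix (Fin r) (Fin r) ℝ, β.det ≠ 0 ∧ (A * β)ᵀ * (A * β) = 1 := by
  have hE : ∀ i j, (Aᵀ * A) i j = ∑ k, A k i * A k j := fun i j => by
    simp [Matrix.mul_apply]
  rcases hr with rfl | rfl
  · have h0 : 0 ≤ (Aᵀ * A) 0 0 := by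
      rw [hE]
      exact Finset.sum_nonneg fun k _ => mul_self_nonneg _
    rw [Matrix.det_fin_one] at hA
    obtain ⟨β, h1, h2⟩ := one28 (lt_of_le_of_ne h0 (Ne.symm hA))
    exact ⟨β, h1, by rw [gram28, h2]⟩
  · have h0 : 0 ≤ (Aᵀ * A) 0 0 := by
      rw [hE]
      exact Finset.sum_nonneg fun k _ => mul_self_nonneg _
    have hs : (Aᵀ * A) 1 0 = (Aᵀ * A) 0 1 := by
      rw [hE, hE]
      exact Finset.sum_congr rfl fun k _ => mul_comm _ _
    have hcs : 0 ≤ (Aᵀ * A) 0 0 * (Aᵀ * A) 1 1 - (Aᵀ * A) 0 1 * (Aᵀ * A) 0 1 := by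
      rw [hE, hE, hE]
      have h := Finset.sum_mul_sq_le_sq_mul_sq Finset.univ (fun k => A k 0) (fun k => A k 1)
      simp only [sq] at h
      linarith
    rw [Matrix.det_fin_two, hs] at hA
    have hD := lt_of_le_of_ne hcs (Ne.symm hA)
    have hp : 0 < (Aᵀ * A) 0 0 := by
      refine lt_of_le_of_ne h0 fun h => ?_
      rw [← h] at hD
      nlinarith [mul_self_nonneg ((Aᵀ * A) 0 1)]
    obtain ⟨β, h1, h2⟩ := two28 hs hp hD
    exact ⟨β, h1, by rw [gram28, h2]⟩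

theorem exists_fr {N r : ℕ} (hr : r = 1 ∨ r = 2) {A : Matrix (Fin N) (Fin r) ℝ} (hA : (Aᵀ * A).det ≠ 0) (hJ : Aᵀ * JR N * A = 0) :
    ∃ β : Matrix (Fin r) (Fin r) ℝ, β.det ≠ 0 ∧ A * β ∈ FrR N r := by
  obtain ⟨β, h1, h2⟩ := exists_ortho hr hA
  refine ⟨β, h1, h2, ?_⟩
  have e : (A * β)ᵀ * JR N * (A * β) = βᵀ * (Aᵀ * JR N * A) * β := by
    rw [Matrix.transpose_mul]
    simp only [Matrix.mul_assoc]
  rw [e, hJ, Matrix.mul_zero, Matrix.zero_mul]

end Pool.Agent.Helper43.LF
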