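import Pool.Agent.Helper43.LF.Asy
import Pool.Agent.Helper43.LF.Ort
import Pool.Agent.Helper43.LF.Lin

/-!
# Layer LF, block LF13b: moving one position

`nn (A B) ≤ nn A * nn B`, `nn (A + B) ≤ 2 (nn A + nn B)` (Frobenius norm). PROOF of `mov_one`. `q = Vr r S 1` (in `FrR`), `A = (PR P k)ᵀ q`: `Aᵀ J A = qᵀ (PR J PRᵀ) q = 0` (`PR_form'`), `det (Aᵀ A) ≠ 0` (`PR P k` is invertible by `PR_form` and `JR_sq`, `q` is injective: `A x = 0 → x = 0`; e.g. `Aᵀ A` positive definite, or: `Aᵀ A x = 0` implies `‖A x‖² = 0`). `q' = A κ` by `exists_fr`.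
Given `ρ'`: `η` from `lin_end`. For `v ∈ FrR` with `nn (v - q qᵀ v) < ρ`: `β0 = qᵀ v`, `s = v - q β0`, `β0ᵀ β0 = 1 - sᵀ s`; for `ρ` small `β0` is invertible with `nn β0⁻¹ ≤ C0` (constant depending on `r`; e.g. `det (β0)² ≥ 1/2`, entries of `β0` bounded by one, `β0⁻¹ = adjugate / det`).
`(PR P k)ᵀ v β0⁻¹ κ = q' + (PR P k)ᵀ s β0⁻¹ κ`, and `nn ((PR P k)ᵀ s β0⁻¹ κ) ≤ η / 4` for `ρ` small. The end: let `γ ∈ Bl S q ρ`, `v = Vr r S γ`, `A = (PR P k)ᵀ v`, `β = β0⁻¹ κ`, `V = Vr r S (γ k)`, `B = (Vᵀ A) β`: `V B - q' = (V (Vᵀ A) - A) β + (A β - q')`, `nn ≤ 2 (nn (A - V (Vᵀ A)) * nn β + η / 4) ≤ η` eventually along `T.F n` (`asym`, `nn β` bounded); `lin_end`: `nn (V - q' (q'ᵀ V)) < ρ'`.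
-/

set_option autoImplicit false

open Filter Topology Matrix

namespace Pool.Agent.Helper43.LF

open Pool.Agent.Helper84 Pool.Agent.Helper84.GN Pool.Agent.Helper84.GN.S3
open Pool.Agent.Helper84.NI Pool.Agent.Helper84.GVN Pool.Agent.Helper90.RK
open Pool.Agent.Helper55.OB

variable {G : Type} [Group G] {N : ℕ} {P : PH G N} {S : Sv P}

private theorem h80_nn_nonneg {m r : ℕ} (A : Matrix (Fin m) (Fin r) ℝ) : 0 ≤ nn A :=
  Finset.sum_nonneg fun _ _ => Finset.sum_nonneg fun _ _ => sq_nonneg _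

private theorem h80_nn_eq_zero {m r : ℕ} {A : Matrix (Fin m) (Fin r) ℝ} (h : nn A = 0) : A = 0 := by
  ext i j
  have h0 : ∑ j, A i j ^ 2 ≤ nn A :=
    Finset.single_le_sum (f := fun i => ∑ j, A i j ^ 2)
      (fun _ _ => Finset.sum_nonneg fun _ _ => sq_nonneg _) (Finset.mem_univ i)
  have h1 : A i j ^ 2 ≤ ∑ j, A i j ^ 2 :=
    Finset.single_le_sum (f := fun j => A i j ^ 2) (fun _ _ => sq_nonneg _) (Finset.mem_univ j)
  have h2 : A i j ^ 2 = 0 := le_antisymm (by linarith) (sq_nonneg _)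
  exact (pow_eq_zero_iff (by norm_num)).1 h2

private theorem h80_nn_mul_le {m n r : ℕ} (A : Matrix (Fin m) (Fin n) ℝ) (B : Matrix (Fin n) (Fin r) ℝ) :
    nn (A * B) ≤ nn A * nn B := by
  have h1 : ∀ i j, (A * B) i j ^ 2 ≤ (∑ k, A i k ^ 2) * ∑ k, B k j ^ 2 := by
    intro i j
    rw [Matrix.mul_apply]
    exact Finset.sum_mul_sq_le_sq_mul_sq _ _ _
  calc nn (A * B) ≤ ∑ i, ∑ j, (∑ k, A i k ^ 2) * ∑ k, B k j ^ 2 :=
        Finset.sum_le_sum fun i _ => Finset.sum_le_sum fun j _ => h1 i j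
    _ = nn A * nn B := by
        have h2 : nn B = ∑ j, ∑ k, B k j ^ 2 := Finset.sum_comm
        rw [h2]
        unfold nn
        rw [Finset.sum_mul_sum]

private theorem h80_nn_add_le {m r : ℕ} (A B : Matrix (Fin m) (Fin r) ℝ) :
    nn (A + B) ≤ 2 * (nn A + nn B) := by
  unfold nn
  rw [← Finset.sum_add_distrib, Finset.mul_sum]
  refine Finset.sum_le_sum fun i _ => ?_
  rw [← Finset.sum_add_distrib, Finset.mul_sum]
  refine Finset.sum_le_sum fun j _ => ?_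
  rw [Matrix.add_apply]
  nlinarith [sq_nonneg (A i j - B i j)]

private theorem h80_nn_trace {m r : ℕ} (A : Matrix (Fin m) (Fin r) ℝ) : nn A = (Aᵀ * A).trace := by
  unfold nn Matrix.trace
  rw [Finset.sum_comm]
  refine Finset.sum_congr rfl fun j _ => ?_
  rw [Matrix.diag_apply, Matrix.mul_apply]
  refine Finset.sum_congr rfl fun i _ => ?_
  rw [Matrix.transpose_apply, sq]

private theorem h80_nn_isom {m r l : ℕ} {q : Matrix (Fin m) (Fin r) ℝ} (hq : qᵀ * q = 1)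
    (M : Matrix (Fin r) (Fin l) ℝ) : nn (q * M) = nn M := by
  rw [h80_nn_trace, h80_nn_trace, Matrix.transpose_mul, Matrix.mul_assoc, ← Matrix.mul_assoc qᵀ, hq,
    Matrix.one_mul]

private theorem h80_nn_one {r : ℕ} : nn (1 : Matrix (Fin r) (Fin r) ℝ) = r := by
  unfold nn
  simp [Matrix.one_apply]

private theorem h80_low {m r l : ℕ} {q v : Matrix (Fin m) (Fin r) ℝ} (hq : qᵀ * q = 1)
    (hv : vᵀ * v = 1) (hs : nn (v - q * (qᵀ * v)) ≤ 1 / 4) (M : Matrix (Fin r) (Fin l) ℝ) :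
    nn M ≤ 4 * nn ((qᵀ * v) * M) := by
  have e1 : v * M = q * ((qᵀ * v) * M) + (v - q * (qᵀ * v)) * M := by
    rw [Matrix.sub_mul, Matrix.mul_assoc q (qᵀ * v) M]
    abel
  have h1 : nn (v * M) ≤ 2 * (nn (q * ((qᵀ * v) * M)) + nn ((v - q * (qᵀ * v)) * M)) := by
    rw [e1]
    exact h80_nn_add_le _ _
  rw [h80_nn_isom hv, h80_nn_isom hq] at h1
  have h2 := h80_nn_mul_le (v - q * (qᵀ * v)) M
  have h3 := mul_le_mul_of_nonneg_right hs (h80_nn_nonneg M)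
  linarith

private theorem h80_inv {m r : ℕ} {q v : Matrix (Fin m) (Fin r) ℝ} (hq : qᵀ * q = 1)
    (hv : vᵀ * v = 1) (hs : nn (v - q * (qᵀ * v)) ≤ 1 / 4) :
    (qᵀ * v).det ≠ 0 ∧ nn (qᵀ * v)⁻¹ ≤ 4 * r := by
  have hdet : (qᵀ * v).det ≠ 0 := by
    intro h0
    obtain ⟨x, hx, hx0⟩ := Matrix.exists_mulVec_eq_zero_iff.2 h0
    apply hx
    have h1 := h80_low hq hv hs (Matrix.of fun (i : Fin r) (_ : Fin 1) => x i)
    have h2 : (qᵀ * v) * (Matrix.of fun (i : Fin r) (_ : Fin 1) => x i) = 0 := by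
      ext i j
      rw [Matrix.mul_apply]
      exact congrFun hx0 i
    have h4 : nn (0 : Matrix (Fin r) (Fin 1) ℝ) = 0 := by
      unfold nn
      simp
    rw [h2, h4, mul_zero] at h1
    have h3 := h80_nn_eq_zero (le_antisymm h1 (h80_nn_nonneg _))
    ext i
    exact congrFun (congrFun h3 i) 0
  refine ⟨hdet, ?_⟩
  have h1 := h80_low hq hv hs ((qᵀ * v)⁻¹)
  rw [Matrix.mul_nonsing_inv _ (isUnit_iff_ne_zero.2 hdet), h80_nn_one] at h1
  exact h1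

/-- `A = (PR P k)ᵀ q` has a left inverse -/
private theorem h80_det (hS : SO2 P S) {r : ℕ} (k : G) {q : Matrix (Fin N) (Fin r) ℝ}
    (hq : qᵀ * q = 1) : ((((PR P k)ᵀ * q)ᵀ) * ((PR P k)ᵀ * q)).det ≠ 0 := by
  intro h0
  obtain ⟨x, hx, hx0⟩ := Matrix.exists_mulVec_eq_zero_iff.2 h0
  apply hx
  obtain ⟨A, hA⟩ : ∃ A, A = (PR P k)ᵀ * q := ⟨_, rfl⟩
  rw [← hA] at hx0
  have h1 : A *ᵥ x = 0 := by
    have e : (A *ᵥ x) ⬝ᵥ (A *ᵥ x) = 0 := by
      rw [Matrix.dotProduct_mulVec, Matrix.vecMul_mulVec, ← Matrix.dotProduct_mulVec, hx0,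
        dotProduct_zero]
    exact dotProduct_self_eq_zero.1 e
  have h2 : (qᵀ * JR N * PR P k * JR N) * A = 1 := by
    have e1 : (qᵀ * JR N * PR P k * JR N) * A =
        qᵀ * (JR N * (PR P k * JR N * (PR P k)ᵀ)) * q := by
      rw [hA]
      simp only [Matrix.mul_assoc]
    rw [e1, PR_form' hS, JR_sq hS.hN, Matrix.mul_one, hq]
  have h3 : ((qᵀ * JR N * PR P k * JR N) * A) *ᵥ x = 0 := by
    rw [← Matrix.mulVec_mulVec, h1, Matrix.mulVec_zero]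
  rw [h2, Matrix.one_mulVec] at h3
  exact h3

theorem mov_one (hS : SO2 P S) (T : Str S) {r : ℕ} (hr : r = 1 ∨ r = 2) (hT : Sep T r) (k : G) :
    ∃ q ∈ FrR N r, ∃ q' ∈ FrR N r, ∀ ρ' : ℝ, 0 < ρ' → ∃ ρ : ℝ, 0 < ρ ∧ Mv (GN.toReg T) k (Bl S q ρ) (Bl S q' ρ') := by
  obtain ⟨q, hqd⟩ : ∃ q, q = Vr r S 1 := ⟨_, rfl⟩
  have hq : q ∈ FrR N r := by rw [hqd]; exact Vr_mem hS hr 1
  have hdet := h80_det hS k hq.1
  have hiso : ((PR P k)ᵀ * q)ᵀ * JR N * ((PR P k)ᵀ * q) = 0 := by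
    have e : ((PR P k)ᵀ * q)ᵀ * JR N * ((PR P k)ᵀ * q) = qᵀ * (PR P k * JR N * (PR P k)ᵀ) * q := by
      rw [Matrix.transpose_mul, Matrix.transpose_transpose]
      simp only [Matrix.mul_assoc]
    rw [e, PR_form' hS, hq.2]
  obtain ⟨κ, hκ, hq'⟩ := exists_fr hr hdet hiso
  refine ⟨q, hq, (PR P k)ᵀ * q * κ, hq', fun ρ' hρ' => ?_⟩
  obtain ⟨η, hη, hend⟩ := lin_end (N := N) (r := r) hρ'
  obtain ⟨C, hC⟩ : ∃ C, C = 8 * nn κ + 1 := ⟨_, rfl⟩
  obtain ⟨D, hD⟩ : ∃ D, D = nn (PR P k)ᵀ := ⟨_, rfl⟩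
  have hC0 : 0 < C := by
    have := h80_nn_nonneg κ
    linarith
  have hD0 : 0 ≤ D := by rw [hD]; exact h80_nn_nonneg _
  refine ⟨min (1 / 4) (η / (4 * (D * C + 1))), lt_min (by norm_num) (by positivity), fun n => ?_⟩
  have hev := (asym hS T hr hT k n).eventually (gt_mem_nhds (show (0 : ℝ) < η / (4 * C) by positivity))
  filter_upwards [hev] with γ hγ hB
  have hB' : nn (Vr r S γ - q * (qᵀ * Vr r S γ)) < min (1 / 4) (η / (4 * (D * C + 1))) := hB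
  obtain ⟨v, hvd⟩ : ∃ v, v = Vr r S γ := ⟨_, rfl⟩
  have hv : v ∈ FrR N r := by rw [hvd]; exact Vr_mem hS hr γ
  obtain ⟨V, hVd⟩ : ∃ V, V = Vr r S (γ * k) := ⟨_, rfl⟩
  have hV : V ∈ FrR N r := by rw [hVd]; exact Vr_mem hS hr _
  rw [← hvd] at hB' hγ
  rw [← hVd] at hγ
  have hB1 : nn (v - q * (qᵀ * v)) ≤ 1 / 4 := (hB'.trans_le (min_le_left _ _)).le
  have hB2 : nn (v - q * (qᵀ * v)) ≤ η / (4 * (D * C + 1)) := (hB'.trans_le (min_le_right _ _)).le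
  obtain ⟨hd, hi⟩ := h80_inv hq.1 hv.1 hB1
  obtain ⟨β0, hβ0⟩ : ∃ β0, β0 = qᵀ * v := ⟨_, rfl⟩
  rw [← hβ0] at hd hi hB1 hB2
  have hr2 : (r : ℝ) ≤ 2 := by
    rcases hr with rfl | rfl <;> norm_num
  obtain ⟨β, hβ⟩ : ∃ β, β = β0⁻¹ * κ := ⟨_, rfl⟩
  have hβC : nn β ≤ C := by
    have h1 := h80_nn_mul_le β0⁻¹ κ
    have h2 : nn β0⁻¹ * nn κ ≤ 8 * nn κ :=
      mul_le_mul_of_nonneg_right (by linarith) (h80_nn_nonneg κ)
    rw [hβ, hC]
    linarith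
  -- `A β - q' = PRᵀ s β`
  have h1 : (PR P k)ᵀ * v * β - (PR P k)ᵀ * q * κ = (PR P k)ᵀ * ((v - q * β0) * β) := by
    have e1 : q * β0 * β = q * κ := by
      rw [hβ, Matrix.mul_assoc, ← Matrix.mul_assoc β0, Matrix.mul_nonsing_inv _
        (isUnit_iff_ne_zero.2 hd), Matrix.one_mul]
    rw [Matrix.sub_mul, e1, Matrix.mul_sub, Matrix.mul_assoc, Matrix.mul_assoc]
  have h2 : nn ((PR P k)ᵀ * v * β - (PR P k)ᵀ * q * κ) ≤ η / 4 := by
    rw [h1]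
    have g1 := h80_nn_mul_le (PR P k)ᵀ ((v - q * β0) * β)
    have g2 := h80_nn_mul_le (v - q * β0) β
    have g3 : nn (v - q * β0) * nn β ≤ η / (4 * (D * C + 1)) * C :=
      mul_le_mul hB2 hβC (h80_nn_nonneg _) (by positivity)
    rw [← hD] at g1
    have g4 : D * nn ((v - q * β0) * β) ≤ D * (η / (4 * (D * C + 1)) * C) :=
      mul_le_mul_of_nonneg_left (g2.trans g3) hD0
    have g5 : D * (η / (4 * (D * C + 1)) * C) ≤ η / 4 := by
      have e : D * (η / (4 * (D * C + 1)) * C) = η / 4 * (D * C / (D * C + 1)) := by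
        field_simp
      rw [e]
      have : D * C / (D * C + 1) ≤ 1 := by
        rw [div_le_one (by positivity)]
        linarith
      have := mul_le_mul_of_nonneg_left this (by positivity : 0 ≤ η / 4)
      linarith
    linarith
  obtain ⟨A, hA⟩ : ∃ A, A = (PR P k)ᵀ * v := ⟨_, rfl⟩
  rw [← hA] at h2 hγ
  have h3 : V * (Vᵀ * A * β) - (PR P k)ᵀ * q * κ =
      (-(A - V * (Vᵀ * A))) * β + (A * β - (PR P k)ᵀ * q * κ) := by
    rw [Matrix.neg_mul, Matrix.sub_mul, ← Matrix.mul_assoc]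
    abel
  have h4 : nn (V * (Vᵀ * A * β) - (PR P k)ᵀ * q * κ) ≤ η := by
    rw [h3]
    have g1 := h80_nn_add_le ((-(A - V * (Vᵀ * A))) * β) (A * β - (PR P k)ᵀ * q * κ)
    have g2 := h80_nn_mul_le (-(A - V * (Vᵀ * A))) β
    have g3 : nn (-(A - V * (Vᵀ * A))) = nn (A - V * (Vᵀ * A)) := by
      unfold nn
      simp only [Matrix.neg_apply, neg_sq]
    rw [g3] at g2
    have g4 : nn (A - V * (Vᵀ * A)) * nn β ≤ η / (4 * C) * C :=
      mul_le_mul hγ.le hβC (h80_nn_nonneg _) (by positivity)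
    have g5 : η / (4 * C) * C = η / 4 := by
      field_simp
    linarith
  have h5 := hend _ hq' V hV _ h4
  rw [hVd] at h5
  exact h5

end Pool.Agent.Helper43.LF
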