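import Pool.Agent.Helper43.LF.Pos

/-!
# Layer LF, block LF15: sets of positions which contain balls

The sets `{γ | ε ≤ ns ((1 - P γ0) p γ)}`, `{γ | ε ≤ ns ((1 - P γ) p γ0)}`, `ε < 1`, contain balls: PROOF: with `x = Vr 1 S γ0`, `y = Vr 2 S γ0` (first column `x`)
take the ball around `a = J x` (`= J * Vr 1 S γ0`): `yᵀ J x = 0` (isotropic), so `ns ((1 - P γ0) a aᵀ) = 1`, and for `V = Vr 1 S γ` close to the span of `a`: `V = a β + s`, `nn s < ρ`: `ns ((1 - P γ0) p γ) = nn ((1 - y yᵀ) V) ≥ (|β| - √ρ)² ≥ (√(1 - ρ) - √ρ)² > ε` for `ρ` small. Second set: the ball around `a = J y`: for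
`V = Vr 2 S γ = a β + s`: `ns ((1 - P γ) p γ0) = nn (x - V Vᵀ x) = 1 - nn (Vᵀ x)`, `Vᵀ x = βᵀ aᵀ x + sᵀ x = sᵀ x`, so it is at least `1 - ρ`. (`px`, `pl` are the complex matrices with entries the real `Vr 1 (Vr 1)ᵀ`, `Vr 2 (Vr 2)ᵀ`.)
-/

set_option autoImplicit false

open Filter Topology Matrix

namespace Pool.Agent.Helper43.LF

open Pool.Agent.Helper84 Pool.Agent.Helper84.GN Pool.Agent.Helper84.GN.S3
open Pool.Agent.Helper84.NI Pool.Agent.Helper84.GVN Pool.Agent.Helper90.RK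
open Pool.Agent.Helper55.OB

variable {G : Type} [Group G] {N : ℕ} {P : PH G N} {S : Sv P}

private theorem sub_nn_mul {m k r : ℕ} (A : Matrix (Fin m) (Fin k) ℝ) (B : Matrix (Fin k) (Fin r) ℝ) :
    nn (A * B) ≤ nn A * nn B := by
  have h1 : nn A * nn B = ∑ i, ∑ j, (∑ l, A i l ^ 2) * (∑ l, B l j ^ 2) := by
    have hB : nn B = ∑ j, ∑ l, B l j ^ 2 := Finset.sum_comm
    rw [hB]
    unfold nn
    exact Finset.sum_mul_sum _ _ _ _
  rw [h1]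
  refine Finset.sum_le_sum fun i _ => Finset.sum_le_sum fun j _ => ?_
  rw [Matrix.mul_apply]
  exact Finset.sum_mul_sq_le_sq_mul_sq _ _ _

private theorem sub_nn_tr {m r : ℕ} (A : Matrix (Fin m) (Fin r) ℝ) : nn A = (Aᵀ * A).trace := by
  unfold nn
  rw [Finset.sum_comm, Matrix.trace]
  refine Finset.sum_congr rfl fun j _ => ?_
  rw [Matrix.diag_apply, Matrix.mul_apply]
  refine Finset.sum_congr rfl fun i _ => ?_
  rw [Matrix.transpose_apply, sq]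

private theorem sub_nn_t {m r : ℕ} (A : Matrix (Fin m) (Fin r) ℝ) : nn Aᵀ = nn A := Finset.sum_comm

private theorem sub_ns {m r : ℕ} (A : Matrix (Fin m) (Fin r) ℝ) : ns (A.map ((↑) : ℝ → ℂ)) = nn A := by
  unfold ns nn
  refine Finset.sum_congr rfl fun i _ => Finset.sum_congr rfl fun j _ => ?_
  rw [Matrix.map_apply, Complex.norm_real, Real.norm_eq_abs, sq_abs]

private theorem sub_main {N r : ℕ} (A : Matrix (Fin N) (Fin r) ℝ) (B : Matrix (Fin N) (Fin 1) ℝ)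
    (hA : Aᵀ * A = 1) (hB : Bᵀ * B = 1) :
    ns ((1 - (A * Aᵀ).map ((↑) : ℝ → ℂ)) * (B * Bᵀ).map ((↑) : ℝ → ℂ)) = 1 - nn (Aᵀ * B) := by
  have e : (1 - (A * Aᵀ).map ((↑) : ℝ → ℂ)) * (B * Bᵀ).map ((↑) : ℝ → ℂ) =
      ((B - A * (Aᵀ * B)) * Bᵀ).map ((↑) : ℝ → ℂ) := by
    have h1 : (B - A * (Aᵀ * B)) * Bᵀ = (1 - A * Aᵀ) * (B * Bᵀ) := by
      simp only [Matrix.sub_mul, Matrix.one_mul, Matrix.mul_assoc]
    rw [h1]
    have h2 := Matrix.map_mul (L := (1 - A * Aᵀ)) (M := (B * Bᵀ)) (f := Complex.ofRealHom)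
    have h3 : (1 - A * Aᵀ).map Complex.ofRealHom = 1 - (A * Aᵀ).map Complex.ofRealHom := by
      rw [Matrix.map_sub _ (by intro a b; exact map_sub _ a b), Matrix.map_one _ (map_zero _) (map_one _)]
    rw [h3] at h2
    exact h2.symm
  rw [e, sub_ns]
  have h4 : nn ((B - A * (Aᵀ * B)) * Bᵀ) = nn (B - A * (Aᵀ * B)) := by
    rw [sub_nn_tr, sub_nn_tr]
    rw [Matrix.trace_mul_comm, Matrix.transpose_mul, Matrix.transpose_transpose]
    rw [Matrix.mul_assoc, ← Matrix.mul_assoc Bᵀ B, hB, Matrix.one_mul, Matrix.trace_mul_comm]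
  rw [h4, sub_nn_tr]
  have h5 : (B - A * (Aᵀ * B))ᵀ * (B - A * (Aᵀ * B)) = 1 - (Aᵀ * B)ᵀ * (Aᵀ * B) := by
    have h6 : ∀ X : Matrix (Fin r) (Fin 1) ℝ, Aᵀ * (A * X) = X := fun X => by
      rw [← Matrix.mul_assoc, hA, Matrix.one_mul]
    simp only [Matrix.transpose_sub, Matrix.transpose_mul, Matrix.transpose_transpose, Matrix.sub_mul,
      Matrix.mul_sub, Matrix.mul_assoc, h6, hB]
    abel
  rw [h5, Matrix.trace_sub, ← sub_nn_tr]
  simp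

private theorem sub_orth {N r m : ℕ} (a V : Matrix (Fin N) (Fin r) ℝ) (B : Matrix (Fin N) (Fin m) ℝ)
    (h : aᵀ * B = 0) : Vᵀ * B = (V - a * (aᵀ * V))ᵀ * B := by
  rw [Matrix.transpose_sub, Matrix.sub_mul, Matrix.transpose_mul, Matrix.mul_assoc, h, Matrix.mul_zero, sub_zero]

private theorem sub_proj (hS : SO2 P S) {r : ℕ} (hr : r ≤ N) (γ : G) :
    S.kR γ * diagonal (fun i : Fin N => if (i : ℕ) < r then (1 : ℂ) else 0) * (S.kR γ)ᴴ =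
      (Vr r S γ * (Vr r S γ)ᵀ).map ((↑) : ℝ → ℂ) := by
  have hre : ∀ i j, ((S.kR γ i j).re : ℂ) = S.kR γ i j := fun i j => by
    have h1 : starRingEnd ℂ (S.kR γ i j) = S.kR γ i j := by
      have h2 := hS.realR γ
      exact congrFun (congrFun h2 i) j
    exact Complex.conj_eq_iff_re.1 h1
  ext i j
  rw [Matrix.mul_apply, Matrix.map_apply, Matrix.mul_apply]
  push_cast
  refine (Fintype.sum_of_injective (Fin.castLE hr) (Fin.castLE_injective hr) _ _ ?_ ?_).symm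
  · intro k hk
    have hk' : ¬ (k : ℕ) < r := fun h => hk ⟨⟨k, h⟩, rfl⟩
    rw [Matrix.mul_diagonal, if_neg hk', mul_zero, zero_mul]
  · intro k
    have hk' : ((Fin.castLE hr k : Fin N) : ℕ) < r := k.2
    have hk'' : (k : ℕ) < N := k.2.trans_le hr
    rw [Matrix.mul_diagonal, if_pos hk', mul_one, Matrix.conjTranspose_apply, Matrix.transpose_apply]
    have hc : star (S.kR γ j (Fin.castLE hr k)) = S.kR γ j (Fin.castLE hr k) := by
      rw [← hre]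
      exact Complex.conj_ofReal _
    rw [hc]
    unfold Vr
    simp only [Matrix.of_apply, dif_pos hk'']
    rw [hre, hre]
    rfl

private theorem sub_px (hS : SO2 P S) (γ : G) :
    px S γ = (Vr 1 S γ * (Vr 1 S γ)ᵀ).map ((↑) : ℝ → ℂ) := by
  rw [← sub_proj hS (by have := hS.hN; omega) γ]
  unfold px
  simp only [Nat.lt_one_iff]

private theorem sub_pl (hS : SO2 P S) (γ : G) :
    pl S γ = (Vr 2 S γ * (Vr 2 S γ)ᵀ).map ((↑) : ℝ → ℂ) := by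
  rw [← sub_proj hS (by have := hS.hN; omega) γ]
  unfold pl
  have h : ∀ i : Fin N, (i : ℕ) ≤ 1 ↔ (i : ℕ) < 2 := fun i => by omega
  simp only [h]

private theorem sub_J (hS : SO2 P S) {r : ℕ} {a : Matrix (Fin N) (Fin r) ℝ} (ha : a ∈ FrR N r) :
    JR N * a ∈ FrR N r := by
  have h1 : (JR N * a)ᵀ = aᵀ * JR N := by rw [Matrix.transpose_mul, JR_symm]
  have h2 : ∀ X : Matrix (Fin N) (Fin r) ℝ, JR N * (JR N * X) = X := fun X => by
    rw [← Matrix.mul_assoc, JR_sq hS.hN, Matrix.one_mul]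
  refine ⟨?_, ?_⟩
  · rw [h1, Matrix.mul_assoc, h2]
    exact ha.1
  · rw [h1, Matrix.mul_assoc, Matrix.mul_assoc, h2, ← Matrix.mul_assoc]
    exact ha.2

private theorem sub_xy (hS : SO2 P S) (γ : G) : (Vr 1 S γ)ᵀ * JR N * Vr 2 S γ = 0 := by
  have h := (Vr_mem hS (r := 2) (Or.inr rfl) γ).2
  ext i j
  have h1 := congrFun (congrFun h 0) j
  have e : ∀ k, Vr 1 S γ k i = Vr 2 S γ k 0 := fun k => by
    unfold Vr
    simp [Fin.eq_zero i]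
  rw [Matrix.mul_assoc, Matrix.mul_apply] at h1 ⊢
  simp only [Matrix.transpose_apply, e, Matrix.zero_apply] at h1 ⊢
  exact h1

private theorem sub_nn1 {r : ℕ} {a : Matrix (Fin N) (Fin r) ℝ} (ha : a ∈ FrR N r) : nn a = r := by
  rw [sub_nn_tr, ha.1, Matrix.trace_one, Fintype.card_fin]

private theorem sub_nn0 {m r : ℕ} (A : Matrix (Fin m) (Fin r) ℝ) : 0 ≤ nn A :=
  Finset.sum_nonneg fun _ _ => Finset.sum_nonneg fun _ _ => sq_nonneg _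

theorem sub_pt (hS : SO2 P S) {ε : ℝ} (hε : ε < 1) (γ0 : G) : ∃ q ∈ FrR N 1, ∃ ρ : ℝ, 0 < ρ ∧
    Bl S q ρ ⊆ {γ | ε ≤ ns ((1 - pl S γ0) * px S γ)} := by
  have hx := Vr_mem hS (r := 1) (Or.inl rfl) γ0
  have hy := Vr_mem hS (r := 2) (Or.inr rfl) γ0
  refine ⟨JR N * Vr 1 S γ0, sub_J hS hx, (1 - ε) / 2, by linarith, ?_⟩
  intro γ hγ
  have hγ' : nn (Vr 1 S γ - (JR N * Vr 1 S γ0) * ((JR N * Vr 1 S γ0)ᵀ * Vr 1 S γ)) < (1 - ε) / 2 := hγ
  have hV := Vr_mem hS (r := 1) (Or.inl rfl) γ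
  have horth : (JR N * Vr 1 S γ0)ᵀ * Vr 2 S γ0 = 0 := by
    rw [Matrix.transpose_mul, JR_symm]
    exact sub_xy hS γ0
  change ε ≤ ns ((1 - pl S γ0) * px S γ)
  rw [sub_pl hS, sub_px hS, sub_main _ _ hy.1 hV.1]
  have e : nn ((Vr 2 S γ0)ᵀ * Vr 1 S γ) = nn ((Vr 1 S γ)ᵀ * Vr 2 S γ0) := by
    rw [← sub_nn_t, Matrix.transpose_mul, Matrix.transpose_transpose]
  rw [e, sub_orth _ _ _ horth]
  have h1 := sub_nn_mul (Vr 1 S γ - (JR N * Vr 1 S γ0) * ((JR N * Vr 1 S γ0)ᵀ * Vr 1 S γ))ᵀ (Vr 2 S γ0)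
  rw [sub_nn_t, sub_nn1 hy] at h1
  push_cast at h1
  linarith

theorem sub_ln (hS : SO2 P S) {ε : ℝ} (hε : ε < 1) (γ0 : G) : ∃ q ∈ FrR N 2, ∃ ρ : ℝ, 0 < ρ ∧
    Bl S q ρ ⊆ {γ | ε ≤ ns ((1 - pl S γ) * px S γ0)} := by
  have hx := Vr_mem hS (r := 1) (Or.inl rfl) γ0
  have hy := Vr_mem hS (r := 2) (Or.inr rfl) γ0
  refine ⟨JR N * Vr 2 S γ0, sub_J hS hy, (1 - ε) / 2, by linarith, ?_⟩
  intro γ hγ
  have hγ' : nn (Vr 2 S γ - (JR N * Vr 2 S γ0) * ((JR N * Vr 2 S γ0)ᵀ * Vr 2 S γ)) < (1 - ε) / 2 := hγ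
  have hV := Vr_mem hS (r := 2) (Or.inr rfl) γ
  have horth : (JR N * Vr 2 S γ0)ᵀ * Vr 1 S γ0 = 0 := by
    have h1 := congrArg Matrix.transpose (sub_xy hS γ0)
    rw [Matrix.transpose_mul, Matrix.transpose_mul, Matrix.transpose_transpose, JR_symm, Matrix.transpose_zero] at h1
    rw [Matrix.transpose_mul, JR_symm, Matrix.mul_assoc]
    exact h1
  change ε ≤ ns ((1 - pl S γ) * px S γ0)
  rw [sub_pl hS, sub_px hS, sub_main _ _ hV.1 hx.1, sub_orth _ _ _ horth]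
  have h1 := sub_nn_mul (Vr 2 S γ - (JR N * Vr 2 S γ0) * ((JR N * Vr 2 S γ0)ᵀ * Vr 2 S γ))ᵀ (Vr 1 S γ0)
  rw [sub_nn_t, sub_nn1 hx] at h1
  push_cast at h1
  have h2 := sub_nn0 (Vr 2 S γ - (JR N * Vr 2 S γ0) * ((JR N * Vr 2 S γ0)ᵀ * Vr 2 S γ))
  linarith

end Pool.Agent.Helper43.LF
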