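import Pool.Agent.Helper43.LF.Defs

/-!
# Layer LF, block LF8: a common transversal isotropic line

`J = JR N` is symmetric, `J² = 1`, `Jᵀ J = 1`. For `v, v' : Fin N → ℝ` write `v · v'` for the Euclidean product, `N × 1` matrices are vectors. PROOF of `trv1`. Let `x`, `y` be the vectors of `a1`, `a2` (isotropic: `x · J x = 0`, unit). It is enough to find an isotropic vector
`h ≠ 0` with `h · x ≠ 0`, `h · y ≠ 0`: then `w = J h / ‖h‖` (`wᵀ J x = h · x / ‖h‖`; `w` isotropic as `J` preserves the form; the determinant of a `1 × 1` matrix is its entry).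
Let `α = x · y`, `β = J x · y`.
Case `α ≠ 0`: `h = x` (`h · x = 1`, `h · y = α`).
Case `α = 0`, `β = 0`: `h = x + y`: isotropic, as `(x + y) · J (x + y) = 2 J x · y = 0`; `h · x = 1 = h · y`.
Case `α = 0`, `β ≠ 0`: choose `z` with `z · x = 0`, `z · J x = 0`, `z · J z ≠ 0`. For `s ∈ ℝ` let `h_s = x + s z + c_s J x`, `c_s = - s² (z · J z) / 2`: isotropic: `h · J h = s² z · J z + 2 c_s (x · J J x) + ... = s² z · J z + 2 c_s = 0` (the other terms vanish:
`x · J x = 0`, `x · J z = J x · z = 0`, `z · x = 0`, `J x · J J x = 0`). `h_s · x = 1 + c_s (J x · x) = 1`. `h_s · y = s (z · y) + c_s β = s ((z · y) - s (z · J z) β / 2)`: not zero for `s = 1` or for `s = 2`.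
Existence of `z`: otherwise `z · J z = 0` for all `z` in the space `M` of the `z` with `z · x = z · J x = 0`, of dimension at least `N - 2 ≥ 3`; `M` is stable by `J` (`J z · x = z · J x`), and for `z ∈ M` the vector `z + J z ∈ M` satisfies
`(z + J z) · J (z + J z) = ‖z + J z‖²`, so `J z = - z` on `M`. But the space `J z = - z` is two dimensional (`z_i = 0` for `2 ≤ i ≤ N - 3`, `z_(N-1) = - z_0`, `z_(N-2) = - z_1`) (`N ≥ 5`), contradiction. (Or explicitly: `J e_2 = e_2`; more generally the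
positive space `J z = z` has dimension `N - 2 ≥ 3` and contains the vectors `e_2`, `e_0 + e_(N-1)`, `e_1 + e_(N-2)`; for `z` positive, `z · x = z · J x`, so only one linear condition `z · x = 0`: among three independent positive vectors a nonzero combination `z` satisfies it;
`z · J z = z · z > 0`.)
-/

set_option autoImplicit false

open Matrix

namespace Pool.Agent.Helper43.LF

open Pool.Agent.Helper55.OB

private theorem jj68 (N : ℕ) (i : Fin N) : jj N (jj N i) = i := by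
  have hi := i.isLt
  unfold jj
  by_cases h : (i : ℕ) < 2 ∨ N ≤ (i : ℕ) + 2
  · rw [if_pos h]
    have h2 : ((i.rev : Fin N) : ℕ) < 2 ∨ N ≤ ((i.rev : Fin N) : ℕ) + 2 := by
      rw [Fin.val_rev]
      omega
    rw [if_pos h2, Fin.rev_rev]
  · rw [if_neg h, if_neg h]

/-- the action of `J` on vectors -/
private def jv68 {N : ℕ} (f : Fin N → ℝ) : Fin N → ℝ := fun i => f (jj N i)

private theorem jv_jv68 {N : ℕ} (f : Fin N → ℝ) : jv68 (jv68 f) = f := by
  funext i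
  show f (jj N (jj N i)) = f i
  rw [jj68]

private theorem dot_jv68 {N : ℕ} (f g : Fin N → ℝ) : jv68 f ⬝ᵥ jv68 g = f ⬝ᵥ g := by
  show ∑ i, f (jj N i) * g (jj N i) = ∑ i, f i * g i
  exact Function.Bijective.sum_comp (Function.Involutive.bijective (jj68 N)) (fun i => f i * g i)

private theorem dot_jv68' {N : ℕ} (f g : Fin N → ℝ) : jv68 f ⬝ᵥ g = f ⬝ᵥ jv68 g := by
  have h := dot_jv68 f (jv68 g)
  rwa [jv_jv68] at h

private theorem entry68 {N : ℕ} (u v : Matrix (Fin N) (Fin 1) ℝ) :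
    (uᵀ * JR N * v) 0 0 = (fun i => u i 0) ⬝ᵥ jv68 (fun i => v i 0) := by
  rw [Matrix.mul_assoc, Matrix.mul_apply]
  refine Finset.sum_congr rfl fun i _ => ?_
  rw [Matrix.transpose_apply, Matrix.mul_apply]
  congr 1
  unfold JR
  simp [jv68]

private theorem entry68' {N : ℕ} (u v : Matrix (Fin N) (Fin 1) ℝ) :
    (uᵀ * v) 0 0 = (fun i => u i 0) ⬝ᵥ (fun i => v i 0) := by
  rw [Matrix.mul_apply]
  rfl

private theorem fr68 {N : ℕ} {a : Matrix (Fin N) (Fin 1) ℝ} (h : a ∈ FrR N 1) :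
    (fun i => a i 0) ⬝ᵥ (fun i => a i 0) = 1 ∧ (fun i => a i 0) ⬝ᵥ jv68 (fun i => a i 0) = 0 := by
  obtain ⟨h1, h2⟩ := h
  constructor
  · rw [← entry68', h1]
    simp
  · rw [← entry68, h2]
    simp

private theorem fin68 {N : ℕ} {a1 a2 : Matrix (Fin N) (Fin 1) ℝ} {f : Fin N → ℝ} (h0 : f ⬝ᵥ jv68 f = 0)
    (h1 : f ⬝ᵥ (fun i => a1 i 0) ≠ 0) (h2 : f ⬝ᵥ (fun i => a2 i 0) ≠ 0) :
    ∃ w ∈ FrR N 1, (wᵀ * JR N * a1).det ≠ 0 ∧ (wᵀ * JR N * a2).det ≠ 0 := by
  have hf : f ≠ 0 := by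
    intro h
    rw [h, zero_dotProduct] at h1
    exact h1 rfl
  have hpos : 0 < f ⬝ᵥ f := by
    rcases (Finset.sum_nonneg fun i _ => mul_self_nonneg (f i) : 0 ≤ ∑ i, f i * f i).lt_or_eq with h | h
    · exact h
    · exact absurd (dotProduct_self_eq_zero.1 h.symm) hf
  set c : ℝ := (√(f ⬝ᵥ f))⁻¹ with hc
  have hc0 : c ≠ 0 := inv_ne_zero (Real.sqrt_pos.2 hpos).ne'
  have hcc : c * c * (f ⬝ᵥ f) = 1 := by
    rw [hc]
    have := Real.mul_self_sqrt hpos.le
    have h3 := (Real.sqrt_pos.2 hpos).ne'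
    field_simp
    nlinarith
  set w : Matrix (Fin N) (Fin 1) ℝ := Matrix.of fun i _ => c * f (jj N i) with hw
  have hwv : (fun i => w i 0) = c • jv68 f := by
    funext i
    rfl
  refine ⟨w, ⟨?_, ?_⟩, ?_, ?_⟩
  · ext i j
    rw [Subsingleton.elim i 0, Subsingleton.elim j 0, entry68', hwv, smul_dotProduct, dotProduct_smul, dot_jv68,
      smul_eq_mul, smul_eq_mul, ← mul_assoc, hcc]
    simp
  · ext i j
    rw [Subsingleton.elim i 0, Subsingleton.elim j 0, entry68, hwv]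
    have e : jv68 (c • jv68 f) = c • jv68 (jv68 f) := rfl
    rw [e, smul_dotProduct, dotProduct_smul, dot_jv68, h0]
    simp
  · rw [Matrix.det_fin_one, entry68, hwv, smul_dotProduct, dot_jv68, smul_eq_mul]
    exact mul_ne_zero hc0 h1
  · rw [Matrix.det_fin_one, entry68, hwv, smul_dotProduct, dot_jv68, smul_eq_mul]
    exact mul_ne_zero hc0 h2

private theorem exz68 {N : ℕ} (hN : 5 ≤ N) (x : Fin N → ℝ) :
    ∃ z : Fin N → ℝ, jv68 z = z ∧ z ⬝ᵥ x = 0 ∧ 0 < z ⬝ᵥ z := by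
  classical
  set i0 : Fin N := ⟨0, by omega⟩ with hi0
  set i1 : Fin N := ⟨N - 1, by omega⟩ with hi1
  set i2 : Fin N := ⟨2, by omega⟩ with hi2
  have hs0 : jj N i0 = i1 := by
    unfold jj
    rw [if_pos (Or.inl (by rw [hi0]; norm_num))]
    apply Fin.ext
    rw [Fin.val_rev]
  have hs1 : jj N i1 = i0 := by rw [← hs0, jj68]
  have hs2 : jj N i2 = i2 := by
    unfold jj
    rw [if_neg]
    show ¬ (2 < 2 ∨ N ≤ 2 + 2)
    omega
  have hinj : ∀ a b : Fin N, jj N a = b ↔ a = jj N b := fun a b =>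
    ⟨fun h => by rw [← h, jj68], fun h => by rw [h, jj68]⟩
  have hsing : ∀ a : Fin N, jv68 (Pi.single a (1 : ℝ)) = Pi.single (jj N a) 1 := by
    intro a
    funext i
    show (Pi.single a (1 : ℝ) : Fin N → ℝ) (jj N i) = _
    by_cases h : i = jj N a
    · subst h
      rw [jj68, Pi.single_eq_same, Pi.single_eq_same]
    · rw [Pi.single_eq_of_ne h, Pi.single_eq_of_ne]
      intro h'
      exact h ((hinj i a).1 h')
  set p : Fin N → ℝ := Pi.single i2 1 with hp
  set r : Fin N → ℝ := Pi.single i0 1 + Pi.single i1 1 with hr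
  have hjp : jv68 p = p := by rw [hp, hsing, hs2]
  have hjr : jv68 r = r := by
    have e : jv68 r = jv68 (Pi.single i0 (1 : ℝ)) + jv68 (Pi.single i1 (1 : ℝ)) := rfl
    rw [e, hsing, hsing, hs0, hs1, hr, add_comm]
  have h02 : i2 ≠ i0 := by
    intro h
    have h' := congrArg Fin.val h
    have e1 : (i2 : ℕ) = 2 := rfl
    have e2 : (i0 : ℕ) = 0 := rfl
    omega
  have h12 : i2 ≠ i1 := by
    intro h
    have h' := congrArg Fin.val h
    have e1 : (i2 : ℕ) = 2 := rfl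
    have e2 : (i1 : ℕ) = N - 1 := rfl
    omega
  have h01 : i0 ≠ i1 := by
    intro h
    have h' := congrArg Fin.val h
    have e1 : (i0 : ℕ) = 0 := rfl
    have e2 : (i1 : ℕ) = N - 1 := rfl
    omega
  have hposz : ∀ z : Fin N → ℝ, z ≠ 0 → 0 < z ⬝ᵥ z := by
    intro z hz
    rcases (Finset.sum_nonneg fun i _ => mul_self_nonneg (z i) : 0 ≤ ∑ i, z i * z i).lt_or_eq with h | h
    · exact h
    · exact absurd (dotProduct_self_eq_zero.1 h.symm) hz
  by_cases hpx : p ⬝ᵥ x = 0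
  · refine ⟨p, hjp, hpx, hposz p ?_⟩
    intro h
    have := congrFun h i2
    rw [hp, Pi.single_eq_same] at this
    norm_num at this
  · refine ⟨(r ⬝ᵥ x) • p - (p ⬝ᵥ x) • r, ?_, ?_, hposz _ ?_⟩
    · have e : jv68 ((r ⬝ᵥ x) • p - (p ⬝ᵥ x) • r) = (r ⬝ᵥ x) • jv68 p - (p ⬝ᵥ x) • jv68 r := rfl
      rw [e, hjp, hjr]
    · rw [sub_dotProduct, smul_dotProduct, smul_dotProduct, smul_eq_mul, smul_eq_mul]
      ring
    · intro h
      have h3 := congrFun h i0
      rw [Pi.sub_apply, Pi.smul_apply, Pi.smul_apply, hp, Pi.single_eq_of_ne h02.symm, hr, Pi.add_apply,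
        Pi.single_eq_same, Pi.single_eq_of_ne h01] at h3
      simp only [smul_eq_mul, mul_zero, add_zero, mul_one, zero_sub, Pi.zero_apply, neg_eq_zero] at h3
      exact hpx h3

theorem trv1 {N : ℕ} (hN : 5 ≤ N) {a1 a2 : Matrix (Fin N) (Fin 1) ℝ} (h1 : a1 ∈ FrR N 1) (h2 : a2 ∈ FrR N 1) :
    ∃ w ∈ FrR N 1, (wᵀ * JR N * a1).det ≠ 0 ∧ (wᵀ * JR N * a2).det ≠ 0 := by
  obtain ⟨hx1, hx0⟩ := fr68 h1
  obtain ⟨hy1, hy0⟩ := fr68 h2
  set x : Fin N → ℝ := fun i => a1 i 0 with hx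
  set y : Fin N → ℝ := fun i => a2 i 0 with hy
  by_cases hα : x ⬝ᵥ y = 0
  · by_cases hβ : jv68 x ⬝ᵥ y = 0
    · refine fin68 (f := x + y) ?_ ?_ ?_
      · have e : jv68 (x + y) = jv68 x + jv68 y := rfl
        have h3 : x ⬝ᵥ jv68 y = 0 := by rw [← dot_jv68', hβ]
        have h4 : y ⬝ᵥ jv68 x = 0 := by rw [dotProduct_comm, hβ]
        rw [e, dotProduct_add, add_dotProduct, add_dotProduct, hx0, hy0, h3, h4]
        norm_num
      · rw [← hx, add_dotProduct, hx1, dotProduct_comm y x, hα]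
        norm_num
      · rw [← hy, add_dotProduct, hy1, hα]
        norm_num
    · obtain ⟨z, hjz, hzx, hzz⟩ := exz68 hN x
      have hzJx : z ⬝ᵥ jv68 x = 0 := by rw [← dot_jv68', hjz, hzx]
      have hxz : x ⬝ᵥ z = 0 := by rw [dotProduct_comm, hzx]
      have hJxz : jv68 x ⬝ᵥ z = 0 := by rw [dotProduct_comm, hzJx]
      have hJxx : jv68 x ⬝ᵥ x = 0 := by rw [dotProduct_comm, hx0]
      have hJJ : jv68 x ⬝ᵥ jv68 x = 1 := by rw [dot_jv68, hx1]
      have key : ∀ s : ℝ, s * (z ⬝ᵥ y) - s ^ 2 * (z ⬝ᵥ z) / 2 * (jv68 x ⬝ᵥ y) ≠ 0 →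
          ∃ w ∈ FrR N 1, (wᵀ * JR N * a1).det ≠ 0 ∧ (wᵀ * JR N * a2).det ≠ 0 := by
        intro s hs
        refine fin68 (f := x + s • z + (-(s ^ 2 * (z ⬝ᵥ z) / 2)) • jv68 x) ?_ ?_ ?_
        · have e : jv68 (x + s • z + (-(s ^ 2 * (z ⬝ᵥ z) / 2)) • jv68 x) =
              jv68 x + s • jv68 z + (-(s ^ 2 * (z ⬝ᵥ z) / 2)) • jv68 (jv68 x) := rfl
          rw [e, jv_jv68, hjz]
          simp only [add_dotProduct, dotProduct_add, smul_dotProduct, dotProduct_smul, smul_eq_mul, hx1, hx0,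
            hzx, hzJx, hxz, hJxz, hJxx, hJJ]
          ring
        · rw [← hx]
          simp only [add_dotProduct, smul_dotProduct, smul_eq_mul, hx1, hzx, hJxx]
          norm_num
        · rw [← hy]
          simp only [add_dotProduct, smul_dotProduct, smul_eq_mul, hα]
          intro h5
          apply hs
          linarith
      by_cases h3 : (1 : ℝ) * (z ⬝ᵥ y) - 1 ^ 2 * (z ⬝ᵥ z) / 2 * (jv68 x ⬝ᵥ y) = 0
      · refine key 2 ?_
        intro h4
        have h5 : (z ⬝ᵥ z) * (jv68 x ⬝ᵥ y) = 0 := by linarith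
        rcases mul_eq_zero.1 h5 with h6 | h6
        · exact hzz.ne' h6
        · exact hβ h6
      · exact key 1 h3
  · refine fin68 (f := x) hx0 ?_ ?_
    · rw [← hx, hx1]
      norm_num
    · rw [← hy]
      exact hα

end Pool.Agent.Helper43.LF
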