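import Pool.Agent.Helper43.LF.Ort

/-!
# Layer LF, block LF10: a common transversal isotropic plane

`J = JR N` is symmetric, `J² = 1`. All matrices with two columns. PROOF of `trv2`. It is enough to find `h` (`N × 2`) with `hᵀ J h = 0`, `det (hᵀ a1) ≠ 0`, `det (hᵀ a2) ≠ 0`: then `det (hᵀ h) ≠ 0` (`h x = 0` implies `hᵀ`... : if `h x = 0` then `a1ᵀ h x = 0`, so `x = 0`; positive definite), `w = J h β` with `β` from
`exists_fr` for `J h` (`(J h)ᵀ J (J h) = hᵀ J h = 0`, `(J h)ᵀ (J h) = hᵀ h`); `wᵀ J a = βᵀ hᵀ a`.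
Let `A0 = a1ᵀ a2`, `B = (J a1)ᵀ a2 = a1ᵀ J a2` (`2 × 2`), `A1 = a2 - a1 A0 - J a1 B` (`N × 2`). As `a1ᵀ a1 = 1 = (J a1)ᵀ (J a1)`, `a1ᵀ J a1 = 0`: `a1ᵀ A1 = 0`, `(J a1)ᵀ A1 = 0`. FACT: if `v` is a vector with `a1ᵀ v = 0`, `(J a1)ᵀ v = 0` then `J v = v`: the space `V⁻ = {J z = - z}` is two dimensional
(`z_i = 0` for `2 ≤ i ≤ N - 3`, `z_(N-1) = - z_0`, `z_(N-2) = - z_1`) and contains the columns of `a1 - J a1`, which are independent (`(a1 - J a1)ᵀ (a1 - J a1) = 2`), so they span it; `v` is orthogonal to them, and `v - J v ∈ V⁻` satisfies `‖v - J v‖² = 2 v · (v - J v) = 0`.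
So `J A1 = A1`. From `a2ᵀ J a2 = 0`: `A0ᵀ B + Bᵀ A0 + A1ᵀ A1 = 0` (*).
Let `z` be a vector with `a1ᵀ z = 0 = (J a1)ᵀ z`, `‖z‖ = 1` (exists as `N ≥ 5 > 4`), `J z = z`. For `x ∈ ℝ²`, `s, t ∈ ℝ` let `Z = s z xᵀ` (`N × 2`), `ε = !![0, 1; -1, 0]`, `C = - (1/2) Zᵀ Z + t ε`, `h = a1 + Z + J a1 C`. Then `hᵀ J h = C + Cᵀ + Zᵀ Z = 0` and `hᵀ a1 = 1`
(`a1ᵀ a1 = 1`, the others vanish), `hᵀ a2 = A0 + Zᵀ A1 + Cᵀ B`, `Cᵀ = - (s²/2) x xᵀ - t ε` (`zᵀ z = 1`). We need `s`, `t`, `x` with `det (A0 + Zᵀ A1 + Cᵀ B) ≠ 0`.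
Case `det B ≠ 0`: `s = 0`: `det (A0 - t ε B)` is a polynomial in `t` with leading coefficient `det (ε B) = det B ≠ 0` (`t²`), so it is not zero for some `t ∈ {0, 1, 2}`.
Case `det B = 0`, `B ≠ 0`: there is an invertible `2 × 2` matrix `g` with `(B g)` having second column zero and first column `b ≠ 0` (`g`: a vector of the kernel of `B` as second column); replace `a2` by `a2 g` (only multiplies the determinant; (*) becomes `gᵀ(*)g`, `A0 → A0 g`,
`B → B g`, `A1 → A1 g`). From (*) entry `(2,2)`: `‖A1 e2‖² = 0`, so `A1 e2 = 0`; entry `(1,2)`: `b · c = 0` with `c = A0 e2`. `c ≠ 0` because `a2 g e2 = a1 c` and `a2 g` has rank two. Take `t = 0`, `x = b + c`: `x · b = ‖b‖²`.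
The matrix has columns `A0 e1 + s x (z · A1 e1) - (s²/2) x (x · b)` and `c`; its determinant is a polynomial in `s` with coefficient of `s²` equal to `- (1/2) ‖b‖² det(b + c, c) = - (1/2) ‖b‖² det(b, c) ≠ 0` (`b`, `c` orthogonal and nonzero); so some `s ∈ {0, 1, 2}` works.
Case `B = 0`: (*) gives `A1 = 0`, so `a2 = a1 A0` and `det A0 ≠ 0` (rank); `s = t = 0`.
-/

set_option autoImplicit false

open Matrix

namespace Pool.Agent.Helper43.LF

open Pool.Agent.Helper55.OB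

private theorem jj_jj82 {N : ℕ} (i : Fin N) : jj N (jj N i) = i := by
  unfold jj
  have hi := i.2
  by_cases h : (i : ℕ) < 2 ∨ N ≤ (i : ℕ) + 2
  · rw [if_pos h, if_pos, Fin.rev_rev]
    rw [Fin.val_rev]
    omega
  · rw [if_neg h, if_neg h]

private theorem sum_jj82 {N : ℕ} (f : Fin N → ℝ) : ∑ i, f (jj N i) = ∑ i, f i :=
  Equiv.sum_comp (Function.Involutive.toPerm (jj N) jj_jj82) f

private theorem J_mul82 {N : ℕ} {m : Type} (A : Matrix (Fin N) m ℝ) (i : Fin N) (j : m) :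
    (JR N * A) i j = A (jj N i) j := by
  rw [Matrix.mul_apply, Finset.sum_eq_single (jj N i)]
  · simp [JR]
  · intro k _ hk
    simp [JR, hk]
  · intro h
    exact absurd (Finset.mem_univ _) h

private theorem J_J82 {N : ℕ} {m : Type} (A : Matrix (Fin N) m ℝ) : JR N * (JR N * A) = A := by
  ext i j
  rw [J_mul82, J_mul82, jj_jj82]

private theorem J_T82 {N : ℕ} : (JR N)ᵀ = JR N := by
  ext i j
  rw [Matrix.transpose_apply]
  simp only [JR, Matrix.of_apply]
  refine if_congr ?_ rfl rfl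
  constructor
  · intro h
    rw [h, jj_jj82]
  · intro h
    rw [h, jj_jj82]

/-- the product of two antiinvariant vectors -/
private theorem dot82 {N : ℕ} (hN : 5 ≤ N) {u w : Fin N → ℝ} (hu : ∀ i, u (jj N i) = -u i)
    (hw : ∀ i, w (jj N i) = -w i) :
    ∑ i, u i * w i = 2 * (u ⟨0, by omega⟩ * w ⟨0, by omega⟩ + u ⟨1, by omega⟩ * w ⟨1, by omega⟩) := by
  have h0 : jj N ⟨0, by omega⟩ = ⟨N - 1, by omega⟩ := by
    unfold jj
    rw [if_pos (Or.inl (by simp))]
    apply Fin.ext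
    rw [Fin.val_rev]
  have h1 : jj N ⟨1, by omega⟩ = ⟨N - 2, by omega⟩ := by
    unfold jj
    rw [if_pos (Or.inl (by simp))]
    apply Fin.ext
    rw [Fin.val_rev]
  have hsub : ∑ i ∈ ({⟨0, by omega⟩, ⟨1, by omega⟩, ⟨N - 1, by omega⟩, ⟨N - 2, by omega⟩} : Finset (Fin N)),
      u i * w i = ∑ i, u i * w i := by
    refine Finset.sum_subset (Finset.subset_univ _) fun i _ hi => ?_
    simp only [Finset.mem_insert, Finset.mem_singleton, Fin.ext_iff, not_or] at hi
    have hj : jj N i = i := by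
      unfold jj
      rw [if_neg]
      have := i.2
      omega
    have h2 := hu i
    rw [hj] at h2
    have h3 : u i = 0 := by linarith
    rw [h3, zero_mul]
  rw [← hsub, Finset.sum_insert, Finset.sum_insert, Finset.sum_insert, Finset.sum_singleton]
  · have e0 := hu ⟨0, by omega⟩
    have e1 := hu ⟨1, by omega⟩
    have e2 := hw ⟨0, by omega⟩
    have e3 := hw ⟨1, by omega⟩
    rw [h0] at e0 e2
    rw [h1] at e1 e3
    rw [e0, e1, e2, e3]
    ring
  · simp only [Finset.mem_singleton, Fin.ext_iff]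
    omega
  · simp only [Finset.mem_insert, Finset.mem_singleton, Fin.ext_iff]
    omega
  · simp only [Finset.mem_insert, Finset.mem_singleton, Fin.ext_iff]
    omega

private theorem two82 {p q r s z0 z1 : ℝ} (h1 : p * p + r * r = 1) (h2 : q * q + s * s = 1)
    (h3 : p * q + r * s = 0) (h4 : z0 * p + z1 * r = 0) (h5 : z0 * q + z1 * s = 0) :
    z0 = 0 ∧ z1 = 0 := by
  have hd : (p * s - q * r) ^ 2 = 1 := by
    have : (p * s - q * r) ^ 2 = (p * p + r * r) * (q * q + s * s) - (p * q + r * s) ^ 2 := by ring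
    rw [this, h1, h2, h3]
    ring
  have hne : p * s - q * r ≠ 0 := by
    intro h
    rw [h] at hd
    norm_num at hd
  have e0 : z0 * (p * s - q * r) = 0 := by
    have : z0 * (p * s - q * r) = (z0 * p + z1 * r) * s - (z0 * q + z1 * s) * r := by ring
    rw [this, h4, h5]
    ring
  have e1 : z1 * (p * s - q * r) = 0 := by
    have : z1 * (p * s - q * r) = (z0 * q + z1 * s) * p - (z0 * p + z1 * r) * q := by ring
    rw [this, h4, h5]
    ring
  exact ⟨(mul_eq_zero.1 e0).resolve_right hne, (mul_eq_zero.1 e1).resolve_right hne⟩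

/-- the orthogonal vectors are invariant -/
private theorem fact82 {N : ℕ} (hN : 5 ≤ N) {a : Matrix (Fin N) (Fin 2) ℝ} (h1 : a ∈ FrR N 2)
    {y : Fin N → ℝ} (hy : ∀ j, ∑ i, a i j * y i = 0) (hy' : ∀ j, ∑ i, a (jj N i) j * y i = 0)
    (i : Fin N) : y (jj N i) = y i := by
  obtain ⟨ha, hb⟩ := h1
  have haa : ∀ j k, ∑ i, a i j * a i k = if j = k then 1 else 0 := by
    intro j k
    have h := congrFun (congrFun ha j) k
    rw [Matrix.mul_apply, Matrix.one_apply] at h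
    exact h
  have hab : ∀ j k, ∑ i, a i j * a (jj N i) k = 0 := by
    intro j k
    have h := congrFun (congrFun hb j) k
    rw [Matrix.mul_assoc, Matrix.mul_apply] at h
    simp only [J_mul82, Matrix.transpose_apply, Matrix.zero_apply] at h
    exact h
  obtain ⟨K, hK⟩ : ∃ K : Fin 2 → Fin N → ℝ, K = fun j i => a i j - a (jj N i) j := ⟨_, rfl⟩
  obtain ⟨z, hz⟩ : ∃ z : Fin N → ℝ, z = fun i => y i - y (jj N i) := ⟨_, rfl⟩
  have hKj : ∀ j i, K j (jj N i) = -K j i := fun j i => by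
    rw [hK]
    simp only [jj_jj82]
    ring
  have hzj : ∀ i, z (jj N i) = -z i := fun i => by
    rw [hz]
    simp only [jj_jj82]
    ring
  have hKK : ∀ j k, ∑ i, K j i * K k i = 2 * if j = k then 1 else 0 := by
    intro j k
    have e : ∀ i, K j i * K k i = a i j * a i k - a i j * a (jj N i) k - a i k * a (jj N i) j +
        a (jj N i) j * a (jj N i) k := fun i => by
      rw [hK]
      ring
    rw [Finset.sum_congr rfl fun i _ => e i, Finset.sum_add_distrib, Finset.sum_sub_distrib,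
      Finset.sum_sub_distrib, haa, hab, hab, sum_jj82 fun i => a i j * a i k, haa]
    ring
  have hKz : ∀ j, ∑ i, K j i * z i = 0 := by
    intro j
    have e : ∀ i, K j i * z i = a i j * y i - a i j * y (jj N i) - a (jj N i) j * y i +
        a (jj N i) j * y (jj N i) := fun i => by
      rw [hK, hz]
      ring
    have e2 : ∑ i, a i j * y (jj N i) = 0 := by
      have := sum_jj82 fun i => a (jj N i) j * y i
      simp only [jj_jj82] at this
      rw [this, hy']
    rw [Finset.sum_congr rfl fun i _ => e i, Finset.sum_add_distrib, Finset.sum_sub_distrib,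
      Finset.sum_sub_distrib, hy, hy', e2, sum_jj82 fun i => a i j * y i, hy]
    ring
  have d00 := dot82 hN (hKj 0) (hKj 0)
  have d11 := dot82 hN (hKj 1) (hKj 1)
  have d01 := dot82 hN (hKj 0) (hKj 1)
  have dz0 := dot82 hN (hKj 0) hzj
  have dz1 := dot82 hN (hKj 1) hzj
  rw [hKK] at d00 d11 d01
  rw [hKz] at dz0 dz1
  simp only [if_true] at d00 d11
  rw [if_neg (by decide)] at d01
  obtain ⟨z0, z1⟩ := two82 (z0 := z ⟨0, by omega⟩) (z1 := z ⟨1, by omega⟩)
    (p := K 0 ⟨0, by omega⟩) (q := K 1 ⟨0, by omega⟩) (r := K 0 ⟨1, by omega⟩) (s := K 1 ⟨1, by omega⟩)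
    (by linarith) (by linarith) (by linarith) (by linarith) (by linarith)
  have dzz := dot82 hN hzj hzj
  rw [z0, z1] at dzz
  have h4 : ∀ i, z i * z i = 0 := by
    have h5 : ∑ i, z i * z i = 0 := by
      rw [dzz]
      ring
    have h6 := (Finset.sum_eq_zero_iff_of_nonneg fun i _ => mul_self_nonneg (z i)).1 h5
    exact fun i => h6 i (Finset.mem_univ _)
  have h7 : z i = 0 := mul_self_eq_zero.1 (h4 i)
  rw [hz] at h7
  simp only at h7
  linarith

private theorem poly82 {a b c d e f g h v0 v1 : ℝ}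
    (H : ∀ x0 x1 t : ℝ,
      (a + x0 * v0 + (-(1 / 2) * x0 * x0 * e + (-(1 / 2) * x0 * x1 - t) * g)) *
        (d + x1 * v1 + ((-(1 / 2) * x0 * x1 + t) * f + -(1 / 2) * x1 * x1 * h)) -
      (b + x0 * v1 + (-(1 / 2) * x0 * x0 * f + (-(1 / 2) * x0 * x1 - t) * h)) *
        (c + x1 * v0 + ((-(1 / 2) * x0 * x1 + t) * e + -(1 / 2) * x1 * x1 * g)) = 0) :
    a * d - b * c = 0 ∧ e * h - f * g = 0 ∧ e * d - f * c = 0 ∧ h * a - g * b = 0 ∧
      a * f - b * e = 0 ∧ g * d - h * c = 0 := by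
  have p0 := H 0 0 0
  have p1 := H 0 0 1
  have p2 := H 0 0 (-1)
  have p3 := H 1 0 0
  have p4 := H (-1) 0 0
  have p5 := H 0 1 0
  have p6 := H 0 (-1) 0
  have p7 := H 1 1 0
  have p8 := H (-1) (-1) 0
  have e1 : a * d - b * c = 0 := by linear_combination p0
  have e2 : e * h - f * g = 0 := by linear_combination (1 / 2) * p1 + (1 / 2) * p2 - p0
  have e3 : e * d - f * c = 0 := by linear_combination 2 * p0 - p3 - p4
  have e4 : h * a - g * b = 0 := by linear_combination 2 * p0 - p5 - p6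
  have t1 : a * f - g * d - b * e + h * c = 0 := by linear_combination (1 / 2) * p1 - (1 / 2) * p2
  have t2 : f * a - e * b + g * d - h * c = 0 := by linear_combination 2 * p0 - p7 - p8 - e3 - e4
  refine ⟨e1, e2, e3, e4, ?_, ?_⟩
  · linear_combination (1 / 2) * t1 + (1 / 2) * t2
  · linear_combination (1 / 2) * t2 - (1 / 2) * t1

private theorem ker82 {a b c d e f g h : ℝ} (h1 : a * d - b * c = 0) (h2 : e * h - f * g = 0)
    (h3 : e * d - f * c = 0) (h4 : h * a - g * b = 0) (h5 : a * f - b * e = 0)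
    (h6 : g * d - h * c = 0) : ∃ q0 q1 : ℝ, (q0 ≠ 0 ∨ q1 ≠ 0) ∧ a * q0 + b * q1 = 0 ∧
      c * q0 + d * q1 = 0 ∧ e * q0 + f * q1 = 0 ∧ g * q0 + h * q1 = 0 := by
  by_cases hd : d = 0 ∧ c = 0
  · by_cases hb : b = 0 ∧ a = 0
    · obtain ⟨hd0, hc0⟩ := hd
      obtain ⟨hb0, ha0⟩ := hb
      by_cases hh : h = 0 ∧ g = 0
      · by_cases hf : f = 0 ∧ e = 0
        · refine ⟨1, 0, Or.inl one_ne_zero, ?_, ?_, ?_, ?_⟩
          · rw [ha0, hb0]; ring
          · rw [hc0, hd0]; ring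
          · rw [hf.1, hf.2]; ring
          · rw [hh.1, hh.2]; ring
        · refine ⟨-f, e, ?_, ?_, ?_, ?_, ?_⟩
          · by_contra hcon
            push Not at hcon
            exact hf ⟨neg_eq_zero.1 hcon.1, hcon.2⟩
          · rw [ha0, hb0]; ring
          · rw [hc0, hd0]; ring
          · ring
          · rw [hh.1, hh.2]; ring
      · refine ⟨h, -g, ?_, ?_, ?_, ?_, ?_⟩
        · by_contra hcon
          push Not at hcon
          exact hh ⟨hcon.1, neg_eq_zero.1 hcon.2⟩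
        · rw [ha0, hb0]; ring
        · rw [hc0, hd0]; ring
        · linear_combination h2
        · ring
    · refine ⟨-b, a, ?_, ?_, ?_, ?_, ?_⟩
      · by_contra hcon
        push Not at hcon
        exact hb ⟨neg_eq_zero.1 hcon.1, hcon.2⟩
      · ring
      · linear_combination h1
      · linear_combination h5
      · linear_combination h4
  · refine ⟨d, -c, ?_, ?_, ?_, ?_, ?_⟩
    · by_contra hcon
      push Not at hcon
      exact hd ⟨hcon.1, neg_eq_zero.1 hcon.2⟩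
    · linear_combination h1
    · ring
    · linear_combination h3
    · linear_combination h6

private theorem exists_z82 {N : ℕ} (hN : 5 ≤ N) (a : Matrix (Fin N) (Fin 2) ℝ) :
    ∃ z : Fin N → ℝ, (∀ j, ∑ i, a i j * z i = 0) ∧ (∀ j, ∑ i, a (jj N i) j * z i = 0) ∧
      ∑ i, z i * z i = 1 := by
  obtain ⟨M, hM⟩ : ∃ M : Matrix (Fin 2 ⊕ Fin 2) (Fin N) ℝ, M = Matrix.fromRows aᵀ (JR N * a)ᵀ :=
    ⟨_, rfl⟩
  have hk : LinearMap.ker M.mulVecLin ≠ ⊥ := by
    refine LinearMap.ker_ne_bot_of_finrank_lt ?_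
    rw [Module.finrank_pi, Module.finrank_pi]
    simp only [Fintype.card_sum, Fintype.card_fin]
    omega
  obtain ⟨z0, hz0, hne⟩ := (Submodule.ne_bot_iff _).1 hk
  rw [LinearMap.mem_ker, Matrix.mulVecLin_apply, hM] at hz0
  have e1 : ∀ j, ∑ i, a i j * z0 i = 0 := fun j => congrFun hz0 (Sum.inl j)
  have e2 : ∀ j, ∑ i, a (jj N i) j * z0 i = 0 := by
    intro j
    have h : ∑ i, (JR N * a) i j * z0 i = 0 := congrFun hz0 (Sum.inr j)
    rw [← h]
    exact Finset.sum_congr rfl fun i _ => by rw [J_mul82]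
  obtain ⟨S, hS⟩ : ∃ S, S = ∑ i, z0 i * z0 i := ⟨_, rfl⟩
  have hS0 : 0 < S := by
    rw [hS]
    obtain ⟨i, hi⟩ := Function.ne_iff.1 hne
    refine Finset.sum_pos' (fun i _ => mul_self_nonneg _) ⟨i, Finset.mem_univ _, ?_⟩
    exact mul_self_pos.2 hi
  have hs := Real.sqrt_pos.2 hS0
  refine ⟨fun i => (√S)⁻¹ * z0 i, fun j => ?_, fun j => ?_, ?_⟩
  · have : ∀ i, a i j * ((√S)⁻¹ * z0 i) = (√S)⁻¹ * (a i j * z0 i) := fun i => by ring
    rw [Finset.sum_congr rfl fun i _ => this i, ← Finset.mul_sum, e1, mul_zero]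
  · have : ∀ i, a (jj N i) j * ((√S)⁻¹ * z0 i) = (√S)⁻¹ * (a (jj N i) j * z0 i) := fun i => by ring
    rw [Finset.sum_congr rfl fun i _ => this i, ← Finset.mul_sum, e2, mul_zero]
  · have : ∀ i, (√S)⁻¹ * z0 i * ((√S)⁻¹ * z0 i) = (√S * √S)⁻¹ * (z0 i * z0 i) := fun i => by
      rw [mul_inv]
      ring
    rw [Finset.sum_congr rfl fun i _ => this i, ← Finset.mul_sum, ← hS, Real.mul_self_sqrt hS0.le,
      inv_mul_cancel₀ hS0.ne']

private theorem fin82 {N : ℕ} {a1 a2 h : Matrix (Fin N) (Fin 2) ℝ} (hh : hᵀ * (JR N * h) = 0)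
    (h1 : hᵀ * a1 = 1) (h2 : (hᵀ * a2).det ≠ 0) :
    ∃ w ∈ FrR N 2, (wᵀ * JR N * a1).det ≠ 0 ∧ (wᵀ * JR N * a2).det ≠ 0 := by
  have h1' : a1ᵀ * h = 1 := by
    have := congrArg Matrix.transpose h1
    rw [Matrix.transpose_mul, Matrix.transpose_transpose, Matrix.transpose_one] at this
    exact this
  have hdet : (hᵀ * h).det ≠ 0 := by
    intro h0
    obtain ⟨v, hv, hv0⟩ := Matrix.exists_mulVec_eq_zero_iff.2 h0
    apply hv
    have e1 : h *ᵥ v = 0 := by
      have e2 : (h *ᵥ v) ⬝ᵥ (h *ᵥ v) = 0 := by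
        rw [Matrix.dotProduct_mulVec, ← Matrix.mulVec_transpose, Matrix.mulVec_mulVec, hv0,
          zero_dotProduct]
      exact dotProduct_self_eq_zero.1 e2
    have e3 : v = (a1ᵀ * h) *ᵥ v := by rw [h1', Matrix.one_mulVec]
    rw [e3, ← Matrix.mulVec_mulVec, e1, Matrix.mulVec_zero]
  have eA : (JR N * h)ᵀ * (JR N * h) = hᵀ * h := by
    rw [Matrix.transpose_mul, J_T82, Matrix.mul_assoc, J_J82]
  obtain ⟨β, hβ, hw⟩ := exists_fr (N := N) (r := 2) (Or.inr rfl) (A := JR N * h) (by rw [eA]; exact hdet)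
    (by
      rw [Matrix.mul_assoc, J_J82, Matrix.transpose_mul, J_T82, Matrix.mul_assoc]
      exact hh)
  have key : ∀ a : Matrix (Fin N) (Fin 2) ℝ,
      ((JR N * h * β)ᵀ * JR N * a) = βᵀ * (hᵀ * a) := by
    intro a
    rw [Matrix.transpose_mul, Matrix.transpose_mul, J_T82]
    simp only [Matrix.mul_assoc]
    rw [J_J82]
  refine ⟨_, hw, ?_, ?_⟩
  · rw [key, h1, Matrix.mul_one, Matrix.det_transpose]
    exact hβ
  · rw [key, Matrix.det_mul, Matrix.det_transpose]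
    exact mul_ne_zero hβ h2

theorem trv2 {N : ℕ} (hN : 5 ≤ N) {a1 a2 : Matrix (Fin N) (Fin 2) ℝ} (h1 : a1 ∈ FrR N 2) (h2 : a2 ∈ FrR N 2) :
    ∃ w ∈ FrR N 2, (wᵀ * JR N * a1).det ≠ 0 ∧ (wᵀ * JR N * a2).det ≠ 0 := by
  classical
  obtain ⟨z, hz1, hz2, hz3⟩ := exists_z82 hN a1
  have hzJ := fact82 hN h1 hz1 hz2
  obtain ⟨ha, hb⟩ := h1
  rw [Matrix.mul_assoc] at hb
  -- abbreviations
  obtain ⟨K, hK⟩ : ∃ K, K = JR N * a1 := ⟨_, rfl⟩
  have hJK : JR N * K = a1 := by rw [hK, J_J82]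
  have hKT : Kᵀ = a1ᵀ * JR N := by rw [hK, Matrix.transpose_mul, J_T82]
  have k1 : a1ᵀ * K = 0 := by rw [hK]; exact hb
  have k2 : Kᵀ * K = 1 := by rw [hKT, Matrix.mul_assoc, hJK, ha]
  have k3 : Kᵀ * a1 = 0 := by rw [hKT, Matrix.mul_assoc]; exact hb
  by_contra hcon
  push Not at hcon
  have main : ∀ (x : Fin 2 → ℝ) (t : ℝ),
      (a1ᵀ * a2 + Matrix.vecMulVec x (fun k => ∑ i, z i * a2 i k) +
        (!![-(1 / 2) * x 0 * x 0, -(1 / 2) * x 0 * x 1 + t;
          -(1 / 2) * x 0 * x 1 - t, -(1 / 2) * x 1 * x 1] : Matrix (Fin 2) (Fin 2) ℝ)ᵀ *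
          (Kᵀ * a2)).det = 0 := by
    intro x t
    obtain ⟨C, hC⟩ : ∃ C : Matrix (Fin 2) (Fin 2) ℝ, C =
      !![-(1 / 2) * x 0 * x 0, -(1 / 2) * x 0 * x 1 + t;
        -(1 / 2) * x 0 * x 1 - t, -(1 / 2) * x 1 * x 1] := ⟨_, rfl⟩
    rw [← hC]
    obtain ⟨Z, hZ⟩ : ∃ Z, Z = Matrix.vecMulVec z x := ⟨_, rfl⟩
    have z1 : a1ᵀ * Z = 0 := by
      ext i j
      rw [hZ, Matrix.mul_apply]
      simp only [Matrix.transpose_apply, Matrix.vecMulVec_apply, Matrix.zero_apply]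
      have : ∀ k, a1 k i * (z k * x j) = a1 k i * z k * x j := fun k => by ring
      rw [Finset.sum_congr rfl fun k _ => this k, ← Finset.sum_mul, hz1, zero_mul]
    have z2 : Kᵀ * Z = 0 := by
      ext i j
      rw [hZ, Matrix.mul_apply]
      simp only [Matrix.transpose_apply, Matrix.vecMulVec_apply, Matrix.zero_apply]
      have : ∀ k, K k i * (z k * x j) = a1 (jj N k) i * z k * x j := fun k => by
        rw [hK, J_mul82]
        ring
      rw [Finset.sum_congr rfl fun k _ => this k, ← Finset.sum_mul, hz2, zero_mul]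
    have z3 : JR N * Z = Z := by
      ext i j
      rw [J_mul82, hZ, Matrix.vecMulVec_apply, Matrix.vecMulVec_apply, hzJ]
    have z4 : Zᵀ * Z = Matrix.vecMulVec x x := by
      ext i j
      rw [hZ, Matrix.mul_apply]
      simp only [Matrix.transpose_apply, Matrix.vecMulVec_apply]
      have : ∀ k, z k * x i * (z k * x j) = z k * z k * (x i * x j) := fun k => by ring
      rw [Finset.sum_congr rfl fun k _ => this k, ← Finset.sum_mul, hz3, one_mul]
    have z5 : Zᵀ * a1 = 0 := by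
      have := congrArg Matrix.transpose z1
      rwa [Matrix.transpose_mul, Matrix.transpose_transpose, Matrix.transpose_zero] at this
    have z6 : Zᵀ * K = 0 := by
      have := congrArg Matrix.transpose z2
      rwa [Matrix.transpose_mul, Matrix.transpose_transpose, Matrix.transpose_zero] at this
    have z7 : Zᵀ * a2 = Matrix.vecMulVec x (fun k => ∑ i, z i * a2 i k) := by
      ext i j
      rw [hZ, Matrix.mul_apply]
      simp only [Matrix.transpose_apply, Matrix.vecMulVec_apply]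
      rw [Finset.mul_sum]
      exact Finset.sum_congr rfl fun k _ => by ring
    obtain ⟨h, hh⟩ : ∃ h, h = a1 + Z + K * C := ⟨_, rfl⟩
    have hT : hᵀ = a1ᵀ + Zᵀ + Cᵀ * Kᵀ := by
      rw [hh, Matrix.transpose_add, Matrix.transpose_add, Matrix.transpose_mul]
    have hJh : JR N * h = K + Z + a1 * C := by
      rw [hh, Matrix.mul_add, Matrix.mul_add, z3, ← hK, ← Matrix.mul_assoc, hJK]
    have g1 : hᵀ * (JR N * h) = 0 := by
      rw [hT, hJh]
      simp only [Matrix.add_mul, Matrix.mul_add, Matrix.mul_assoc]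
      rw [← Matrix.mul_assoc a1ᵀ a1 C, ← Matrix.mul_assoc Zᵀ a1 C, ← Matrix.mul_assoc Kᵀ a1 C,
        k1, k2, k3, z1, z2, z4, z5, z6, ha]
      simp only [Matrix.zero_mul, Matrix.mul_zero, Matrix.one_mul, Matrix.mul_one, zero_add, add_zero]
      rw [hC]
      ext i j
      fin_cases i <;> fin_cases j <;>
        simp [Matrix.vecMulVec_apply] <;> ring
    have g2 : hᵀ * a1 = 1 := by
      rw [hT, Matrix.add_mul, Matrix.add_mul, ha, z5, Matrix.mul_assoc, k3, Matrix.mul_zero, add_zero,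
        add_zero]
    by_contra hne
    obtain ⟨w, hw, hw1, hw2⟩ := fin82 (a2 := a2) g1 g2 (by
      rw [hT, Matrix.add_mul, Matrix.add_mul, z7, Matrix.mul_assoc]
      exact hne)
    exact hw2 (hcon w hw hw1)
  obtain ⟨h2a, h2b⟩ := h2
  rw [Matrix.mul_assoc] at h2b
  obtain ⟨A, hA⟩ : ∃ A, A = a1ᵀ * a2 := ⟨_, rfl⟩
  obtain ⟨B, hB⟩ : ∃ B, B = Kᵀ * a2 := ⟨_, rfl⟩
  obtain ⟨v, hv⟩ : ∃ v : Fin 2 → ℝ, v = fun k => ∑ i, z i * a2 i k := ⟨_, rfl⟩
  rw [← hA, ← hB, ← hv] at main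
  obtain ⟨p1, p2, p3, p4, p5, p6⟩ := poly82 (a := A 0 0) (b := A 0 1) (c := A 1 0) (d := A 1 1)
    (e := B 0 0) (f := B 0 1) (g := B 1 0) (h := B 1 1) (v0 := v 0) (v1 := v 1) (by
      intro x0 x1 t
      have h := main ![x0, x1] t
      rw [Matrix.det_fin_two] at h
      simp only [Matrix.add_apply, Matrix.vecMulVec_apply] at h
      simp [Matrix.mul_apply, Fin.sum_univ_two] at h
      linear_combination h)
  obtain ⟨q0, q1, hq, r1, r2, r3, r4⟩ := ker82 p1 p2 p3 p4 p5 p6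
  obtain ⟨y, hy⟩ : ∃ y : Fin N → ℝ, y = fun i => a2 i 0 * q0 + a2 i 1 * q1 := ⟨_, rfl⟩
  have eA : ∀ j, ∑ i, a1 i j * y i = A j 0 * q0 + A j 1 * q1 := by
    intro j
    rw [hA, hy, Matrix.mul_apply, Matrix.mul_apply, Finset.sum_mul, Finset.sum_mul,
      ← Finset.sum_add_distrib]
    refine Finset.sum_congr rfl fun i _ => ?_
    simp only [Matrix.transpose_apply]
    ring
  have eB : ∀ j, ∑ i, a1 (jj N i) j * y i = B j 0 * q0 + B j 1 * q1 := by
    intro j
    rw [hB, hy, Matrix.mul_apply, Matrix.mul_apply, Finset.sum_mul, Finset.sum_mul,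
      ← Finset.sum_add_distrib]
    refine Finset.sum_congr rfl fun i _ => ?_
    simp only [Matrix.transpose_apply, hK, J_mul82]
    ring
  have hyJ := fact82 hN (y := y) (a := a1) ⟨ha, by rw [Matrix.mul_assoc]; exact hb⟩
    (fun j => by
      rw [eA]
      fin_cases j
      · exact r1
      · exact r2)
    (fun j => by
      rw [eB]
      fin_cases j
      · exact r3
      · exact r4)
  have haa : ∀ j k, ∑ i, a2 i j * a2 i k = if j = k then 1 else 0 := by
    intro j k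
    have h := congrFun (congrFun h2a j) k
    rw [Matrix.mul_apply, Matrix.one_apply] at h
    exact h
  have hab : ∀ j k, ∑ i, a2 i j * a2 (jj N i) k = 0 := by
    intro j k
    have h := congrFun (congrFun h2b j) k
    rw [Matrix.mul_apply] at h
    simp only [J_mul82, Matrix.transpose_apply, Matrix.zero_apply] at h
    exact h
  have s1 : ∑ i, y i * y i = q0 ^ 2 + q1 ^ 2 := by
    have e : ∀ i, y i * y i = q0 ^ 2 * (a2 i 0 * a2 i 0) + 2 * q0 * q1 * (a2 i 0 * a2 i 1) +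
        q1 ^ 2 * (a2 i 1 * a2 i 1) := fun i => by
      rw [hy]
      ring
    rw [Finset.sum_congr rfl fun i _ => e i, Finset.sum_add_distrib, Finset.sum_add_distrib,
      ← Finset.mul_sum, ← Finset.mul_sum, ← Finset.mul_sum, haa, haa, haa]
    simp
  have s2 : ∑ i, y i * y i = 0 := by
    have e : ∀ i, y i * y i = q0 ^ 2 * (a2 i 0 * a2 (jj N i) 0) + q0 * q1 * (a2 i 0 * a2 (jj N i) 1) +
        q0 * q1 * (a2 i 1 * a2 (jj N i) 0) + q1 ^ 2 * (a2 i 1 * a2 (jj N i) 1) := fun i => by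
      have : y i * y i = y i * y (jj N i) := by rw [hyJ]
      rw [this, hy]
      ring
    rw [Finset.sum_congr rfl fun i _ => e i, Finset.sum_add_distrib, Finset.sum_add_distrib,
      Finset.sum_add_distrib, ← Finset.mul_sum, ← Finset.mul_sum, ← Finset.mul_sum, ← Finset.mul_sum,
      hab, hab, hab, hab]
    ring
  rw [s1] at s2
  rcases hq with hq | hq
  · have : 0 < q0 ^ 2 := by positivity
    nlinarith [sq_nonneg q1]
  · have : 0 < q1 ^ 2 := by positivity
    nlinarith [sq_nonneg q0]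

end Pool.Agent.Helper43.LF
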