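import Pool.Agent.Helper43.LF.Abs
import Pool.Agent.Helper43.LF.Mov
import Pool.Agent.Helper43.LF.Cov
import Pool.Agent.Helper43.LF.Trv1
import Pool.Agent.Helper43.LF.Trv2
import Pool.Agent.Helper43.LF.Asy
import Pool.Agent.Helper43.LF.Mov2
import Pool.Agent.Helper43.LF.Sub

/-!
# Layer LF: Lemma F for the strata of the points and of the lines

`lemF`: if `b` has mass in the stratum, then `1_A T V_g φ = 0` for all `g`, `A` a ball of positions, implies `φ = 0`.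
`lemF_pt`, `lemF_ln`: for the sets of the positions which are far from a line, from a point.
-/

set_option autoImplicit false
set_option linter.unusedSectionVars false

open MeasureTheory Filter Topology Matrix

namespace Pool.Agent.Helper43.LF

open Pool.Agent.Helper84 Pool.Agent.Helper84.GN Pool.Agent.Helper84.GN.S3 Pool.Agent.Helper84.GN.S3.X
open Pool.Agent.Helper84.NI Pool.Agent.Helper84.GVN Pool.Agent.Helper90.RK
open Pool.Agent.Helper96.RK hiding toReg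
open Pool.Agent.Helper66.FR Pool.Agent.Helper84.FR Pool.Agent.Helper55.FR
open Pool.Agent.Helper78.BM Pool.Agent.Helper55.OB

variable {G1 X G Λ : Type} [Group G1] [TopologicalSpace G1] [IsTopologicalGroup G1] [MeasurableSpace X] [MulAction G1 X]
  [MeasurableConstSMul G1 X] [Group G] [Group Λ] [Countable Λ] {μ : Measure X} [SMulInvariantMeasure G1 X μ]
  [IsProbabilityMeasure μ] {a : Cocy G1 X Λ} {E : Emb Λ G} {b : ℕ → G1} {N : ℕ} {P : PH G N} {S : Sv P}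

/-- A common transversal frame. -/
theorem trv (hN : 5 ≤ N) {r : ℕ} (hr : r = 1 ∨ r = 2) {a1 a2 : Matrix (Fin N) (Fin r) ℝ} (h1 : a1 ∈ FrR N r)
    (h2 : a2 ∈ FrR N r) : ∃ w ∈ FrR N r, (wᵀ * JR N * a1).det ≠ 0 ∧ (wᵀ * JR N * a2).det ≠ 0 := by
  rcases hr with rfl | rfl
  · exact trv1 hN h1 h2
  · exact trv2 hN h1 h2

/-- **Lemma F.** -/
theorem lemF (hS : SO2 P S) (T : Str S) {r : ℕ} (hr : r = 1 ∨ r = 2) (hT : Sep T r) (hP : Prox P r)
    (hI : CocI μ a) (hF : FullE E) {U : Set G1} (hE : ErgU μ a E U) (h0 : XPpr (GN.toReg T) (vec μ a E b) ≠ 0)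
    {q : Matrix (Fin N) (Fin r) ℝ} (hq : q ∈ FrR N r) {ρ : ℝ} (hρ : 0 < ρ) {φ : XL μ (L2 G)}
    (hφ : φ ∈ NA μ a E (GN.toReg T) b (Bl S q ρ)) : φ = 0 := by
  haveI : Nonempty {a : Matrix (Fin N) (Fin r) ℝ // a ∈ FrR N r} := ⟨⟨q, hq⟩⟩
  refine lemF_abs hI hF hE h0 (Q := {a : Matrix (Fin N) (Fin r) ℝ // a ∈ FrR N r}) (fun q ρ => Bl S q.1 ρ)
    (fun q ρ ρ' h γ hγ => lt_of_lt_of_le hγ h) (fun q1 q2 => ?_) (fun k => ?_) (fun ρ hρ => ?_) ⟨q, hq⟩ hρ hφ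
  · obtain ⟨w, hw, hw1, hw2⟩ := trv hS.hN hr q1.2 q2.2
    exact mov_pair hS T hr hT hP q1.2 q2.2 hw hw1 hw2
  · obtain ⟨q, hq, q', hq', h⟩ := mov_one hS T hr hT k
    exact ⟨⟨q, hq⟩, ⟨q', hq'⟩, h⟩
  · obtain ⟨F, hF⟩ := cover_fr hS hr ρ hρ
    exact ⟨F, fun n => Eventually.of_forall hF⟩

/-- Lemma F for the points which are far from a line. -/
theorem lemF_pt (hS : SO2 P S) (hP : Prox P 1) (hI : CocI μ a) (hF : FullE E) {U : Set G1} (hE : ErgU μ a E U)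
    (h0 : XPpr (R1 S) (vec μ a E b) ≠ 0) {ε : ℝ} (hε : ε < 1) (γ0 : G) {φ : XL μ (L2 G)}
    (hφ : ∀ g : G1, iUX (R1 S) {γ | ε ≤ ns ((1 - pl S γ0) * px S γ)} (Tb μ a E (R1 S) b (Vq μ a E g φ)) = 0) : φ = 0 := by
  obtain ⟨q, hq, ρ, hρ, hsub⟩ := sub_pt hS hε γ0
  exact lemF hS (chStr S (K1 N) []) (Or.inl rfl) (sep1 S hS.hN) hP hI hF hE h0 hq hρ
    (NA_anti (fun n => Eventually.of_forall fun γ hγ => hsub hγ) hφ)

/-- Lemma F for the lines which are far from a point. -/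
theorem lemF_ln (hS : SO2 P S) (hP : Prox P 2) (hI : CocI μ a) (hF : FullE E) {U : Set G1} (hE : ErgU μ a E U)
    (h0 : XPpr (R2 S) (vec μ a E b) ≠ 0) {ε : ℝ} (hε : ε < 1) (γ0 : G) {φ : XL μ (L2 G)}
    (hφ : ∀ g : G1, iUX (R2 S) {γ | ε ≤ ns ((1 - pl S γ) * px S γ0)} (Tb μ a E (R2 S) b (Vq μ a E g φ)) = 0) : φ = 0 := by
  obtain ⟨q, hq, ρ, hρ, hsub⟩ := sub_ln hS hε γ0
  exact lemF hS (chStr S (K2 N) []) (Or.inr rfl) (sep2 S hS.hN) hP hI hF hE h0 hq hρ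
    (NA_anti (fun n => Eventually.of_forall fun γ hγ => hsub hγ) hφ)

end Pool.Agent.Helper43.LF
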