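import Pool.Agent.Helper43.LF.Com
import Pool.Agent.Helper43.LF.Defs
import Pool.Agent.Helper35.TZ.Conn

/-!
# Layer LF, block LF21: lifts are continuous at `1` up to the sign

PROOF of `lift_one`. Suppose not: there are `ε > 0` and `g_n → 1` in `autC b` (the space is first countable: subgroup of `GL`, whose topology is metrizable / second countable, `exists_seq_forall_of_frequently`) with `nn (r g_n - 1) > ε` and `nn (- r g_n - 1) > ε`. `r g_n ≠ 0` (form). `ρ_n = r g_n / √(nn (r g_n))`, `nn ρ_n = 1`: a subsequence converges to `ρ`,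
`nn ρ = 1`. `ρ_n f x = f (g_n x) ρ_n` and `f (g_n x) → f x` (`g ↦ toLin b b g x` and `f` are linear in a finite dimensional space, so continuous), so `ρ` commutes with `so2 N` (`f` surjective): `ρ = c`, `c² N = 1`. `ρ_nᵀ J ρ_n = J / nn (r g_n)` tends to `c² J`, so `nn (r g_n) → c⁻² = N` (an entry of `J` equal to `1`), so along the subsequence
`r g_n = √(nn (r g_n)) ρ_n → √N c = ± 1`. Contradiction. (A proof with filters instead of sequences, or a direct argument, is fine.)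
-/

set_option autoImplicit false
set_option linter.unusedSectionVars false

open Filter Topology Matrix

namespace Pool.Agent.Helper43.LF

open Pool.Agent.Helper55.OB
open Pool.Agent.Helper35.TZ (autC)

variable {L : Type} [LieRing L] [LieAlgebra ℝ L] {M N : ℕ} {b : Module.Basis (Fin M) ℝ L}

private theorem JR28_symm (N : ℕ) : ∀ i, JR N i (jj N i) = 1 := fun i => by
  unfold JR
  rw [Matrix.of_apply, if_pos rfl]

private theorem nn28_smul {m r : ℕ} (c : ℝ) (A : Matrix (Fin m) (Fin r) ℝ) : nn (c • A) = c ^ 2 * nn A := by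
  unfold nn
  rw [Finset.mul_sum]
  refine Finset.sum_congr rfl fun i _ => ?_
  rw [Finset.mul_sum]
  refine Finset.sum_congr rfl fun j _ => ?_
  rw [Matrix.smul_apply, smul_eq_mul, mul_pow]

private theorem nn28_nonneg {m r : ℕ} (A : Matrix (Fin m) (Fin r) ℝ) : 0 ≤ nn A :=
  Finset.sum_nonneg fun _ _ => Finset.sum_nonneg fun _ _ => sq_nonneg _

private theorem nn28_zero {m r : ℕ} {A : Matrix (Fin m) (Fin r) ℝ} (h : nn A = 0) : A = 0 := by
  unfold nn at h
  rw [Finset.sum_eq_zero_iff_of_nonneg fun _ _ => Finset.sum_nonneg fun _ _ => sq_nonneg _] at h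
  ext i j
  have h1 := h i (Finset.mem_univ i)
  rw [Finset.sum_eq_zero_iff_of_nonneg fun _ _ => sq_nonneg _] at h1
  exact pow_eq_zero_iff (two_ne_zero) |>.1 (h1 j (Finset.mem_univ j))

private theorem nn28_cont {m r : ℕ} : Continuous (nn : Matrix (Fin m) (Fin r) ℝ → ℝ) := by
  unfold nn
  refine continuous_finsetSum _ fun i _ => continuous_finsetSum _ fun j _ => ?_
  exact ((continuous_id.matrix_elem i j)).pow 2

private theorem nn28_entry {m r : ℕ} (A : Matrix (Fin m) (Fin r) ℝ) (i : Fin m) (j : Fin r) : A i j ^ 2 ≤ nn A := by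
  unfold nn
  have h1 : A i j ^ 2 ≤ ∑ j, A i j ^ 2 :=
    Finset.single_le_sum (f := fun j => A i j ^ 2) (fun _ _ => sq_nonneg _) (Finset.mem_univ j)
  have h2 : ∑ j, A i j ^ 2 ≤ ∑ i, ∑ j, A i j ^ 2 :=
    Finset.single_le_sum (f := fun i => ∑ j, A i j ^ 2) (fun _ _ => Finset.sum_nonneg fun _ _ => sq_nonneg _)
      (Finset.mem_univ i)
  exact h1.trans h2

private theorem nn28_one {N : ℕ} : nn (1 : Matrix (Fin N) (Fin N) ℝ) = N := by
  unfold nn
  have h : ∀ i : Fin N, ∑ j, (1 : Matrix (Fin N) (Fin N) ℝ) i j ^ 2 = 1 := by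
    intro i
    rw [Finset.sum_eq_single i]
    · rw [Matrix.one_apply_eq, one_pow]
    · intro j _ hj
      rw [Matrix.one_apply_ne (Ne.symm hj)]
      norm_num
    · intro h
      exact absurd (Finset.mem_univ i) h
  rw [Finset.sum_congr rfl fun i _ => h i]
  simp

theorem lift_one (hN : 5 ≤ N) (f : L ≃ₗ⁅ℝ⁆ so2 N) (r : autC b → Matrix (Fin N) (Fin N) ℝ)
    (hform : ∀ g, (r g)ᵀ * JR N * r g = JR N)
    (had : ∀ (g : autC b) (x : L), r g * (f x : Matrix (Fin N) (Fin N) ℝ) =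
      (f (Matrix.toLin b b ((g : GL (Fin M) ℝ) : Matrix (Fin M) (Fin M) ℝ) x) : Matrix (Fin N) (Fin N) ℝ) * r g)
    {ε : ℝ} (hε : 0 < ε) : ∀ᶠ g in 𝓝 (1 : autC b), nn (r g - 1) ≤ ε ∨ nn (-r g - 1) ≤ ε := by
  classical
  by_contra hcon
  rw [Filter.not_eventually] at hcon
  haveI hne : NeBot (𝓝 (1 : autC b) ⊓ 𝓟 {g | ¬(nn (r g - 1) ≤ ε ∨ nn (-r g - 1) ≤ ε)}) := frequently_iff_neBot.1 hcon
  obtain ⟨U, hU, hUP⟩ : ∃ U : Ultrafilter (autC b), (U : Filter (autC b)) ≤ 𝓝 1 ∧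
      ∀ᶠ g in (U : Filter (autC b)), ¬(nn (r g - 1) ≤ ε ∨ nn (-r g - 1) ≤ ε) :=
    ⟨Ultrafilter.of _, (Ultrafilter.of_le _).trans inf_le_left,
      ((Ultrafilter.of_le _).trans inf_le_right) (mem_principal_self _)⟩
  have hN0 : 0 < N := by omega
  let i0 : Fin N := ⟨0, hN0⟩
  have hJ0 : JR N i0 (jj N i0) = 1 := JR28_symm N i0
  have hpos : ∀ g, 0 < nn (r g) := by
    intro g
    refine lt_of_le_of_ne (nn28_nonneg _) fun h => ?_
    have h1 := nn28_zero h.symm
    have h2 := hform g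
    rw [h1, Matrix.mul_zero] at h2
    have h3 := congrFun (congrFun h2 i0) (jj N i0)
    rw [hJ0, Matrix.zero_apply] at h3
    exact zero_ne_one h3
  let k : autC b → ℝ := fun g => √(nn (r g))
  have hk : ∀ g, 0 < k g := fun g => Real.sqrt_pos.2 (hpos g)
  have hk2 : ∀ g, k g ^ 2 = nn (r g) := fun g => Real.sq_sqrt (hpos g).le
  let ρ : autC b → Matrix (Fin N) (Fin N) ℝ := fun g => (k g)⁻¹ • r g
  have hρr : ∀ g, r g = k g • ρ g := by
    intro g
    show r g = k g • ((k g)⁻¹ • r g)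
    rw [smul_smul, mul_inv_cancel₀ (hk g).ne', one_smul]
  have hρn : ∀ g, nn (ρ g) = 1 := by
    intro g
    show nn ((k g)⁻¹ • r g) = 1
    rw [nn28_smul, inv_pow, hk2, inv_mul_cancel₀ (hpos g).ne']
  -- compactness
  have hK : IsCompact (Set.pi Set.univ fun _ : Fin N => Set.pi Set.univ fun _ : Fin N => Set.Icc (-1 : ℝ) 1) :=
    isCompact_univ_pi fun _ => isCompact_univ_pi fun _ => isCompact_Icc
  obtain ⟨ρ0, hlim⟩ : ∃ ρ0 : Matrix (Fin N) (Fin N) ℝ, Tendsto ρ (U : Filter (autC b)) (𝓝 ρ0) := by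
    obtain ⟨σ, -, hσ⟩ : ∃ σ ∈ (Set.pi Set.univ fun _ : Fin N => Set.pi Set.univ fun _ : Fin N => Set.Icc (-1 : ℝ) 1),
        ((U.map ρ : Ultrafilter (Fin N → Fin N → ℝ)) : Filter (Fin N → Fin N → ℝ)) ≤ 𝓝 σ := by
      refine hK.ultrafilter_le_nhds _ ?_
      rw [le_principal_iff, Ultrafilter.coe_map, Filter.mem_map]
      refine Filter.univ_mem' fun g => ?_
      intro i _ j _
      have h1 := nn28_entry (ρ g) i j
      rw [hρn, sq_le_one_iff_abs_le_one, abs_le] at h1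
      exact ⟨h1.1, h1.2⟩
    exact ⟨σ, hσ⟩
  have hn1 : nn ρ0 = 1 := by
    have h1 := (nn28_cont.tendsto ρ0).comp hlim
    refine tendsto_nhds_unique h1 ?_
    refine tendsto_const_nhds.congr fun g => ?_
    exact (hρn g).symm
  -- the limit commutes with so2
  have hcomm : ∀ x : L, ρ0 * (f x : Matrix (Fin N) (Fin N) ℝ) =
      (f x : Matrix (Fin N) (Fin N) ℝ) * ρ0 := by
    intro x
    let φ : Matrix (Fin M) (Fin M) ℝ →ₗ[ℝ] Matrix (Fin N) (Fin N) ℝ :=
      { toFun := fun A => (f (Matrix.toLin b b A x) : Matrix (Fin N) (Fin N) ℝ)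
        map_add' := fun A B => by
          rw [map_add, LinearMap.add_apply, map_add]
          rfl
        map_smul' := fun c A => by
          rw [map_smul, LinearMap.smul_apply, map_smul]
          rfl }
    have hφ : Continuous φ := LinearMap.continuous_of_finiteDimensional φ
    have h1 : Tendsto (fun g : autC b => ((g : GL (Fin M) ℝ) : Matrix (Fin M) (Fin M) ℝ)) (U : Filter (autC b))
        (𝓝 (1 : Matrix (Fin M) (Fin M) ℝ)) := by
      have h2 : Continuous fun g : autC b => ((g : GL (Fin M) ℝ) : Matrix (Fin M) (Fin M) ℝ) :=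
        Units.continuous_val.comp continuous_subtype_val
      have h3 := h2.tendsto 1
      exact h3.mono_left hU
    have h2 : Tendsto (fun g : autC b => φ ((g : GL (Fin M) ℝ) : Matrix (Fin M) (Fin M) ℝ)) (U : Filter (autC b))
        (𝓝 (φ 1)) := (hφ.tendsto _).comp h1
    have h3 : φ 1 = (f x : Matrix (Fin N) (Fin N) ℝ) := by
      show (f (Matrix.toLin b b 1 x) : Matrix (Fin N) (Fin N) ℝ) = _
      rw [Matrix.toLin_one]
      rfl
    rw [h3] at h2
    have h4 : Tendsto (fun g => ρ g * (f x : Matrix (Fin N) (Fin N) ℝ)) (U : Filter (autC b))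
        (𝓝 (ρ0 * (f x : Matrix (Fin N) (Fin N) ℝ))) := hlim.mul tendsto_const_nhds
    have h5 : Tendsto (fun g : autC b => φ ((g : GL (Fin M) ℝ) : Matrix (Fin M) (Fin M) ℝ) * ρ g) (U : Filter (autC b))
        (𝓝 ((f x : Matrix (Fin N) (Fin N) ℝ) * ρ0)) := h2.mul hlim
    refine tendsto_nhds_unique h4 (h5.congr fun g => ?_)
    show (f (Matrix.toLin b b ((g : GL (Fin M) ℝ) : Matrix (Fin M) (Fin M) ℝ) x) : Matrix (Fin N) (Fin N) ℝ) *
      ((k g)⁻¹ • r g) = (k g)⁻¹ • r g * (f x : Matrix (Fin N) (Fin N) ℝ)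
    rw [Matrix.mul_smul, ← had g x, Matrix.smul_mul]
  obtain ⟨c, hc⟩ := comm_so2 hN (T := ρ0) fun X hX => by
    have h1 := hcomm (f.symm ⟨X, hX⟩)
    rw [LieEquiv.apply_symm_apply] at h1
    exact h1
  have hcN : c ^ 2 * N = 1 := by
    have h1 := hn1
    rw [hc, nn28_smul, nn28_one] at h1
    exact h1
  have hNpos : (0 : ℝ) < N := by exact_mod_cast hN0
  -- the norm of `r g`
  have hkl : Tendsto (fun g => (nn (r g))⁻¹) (U : Filter (autC b)) (𝓝 (c ^ 2)) := by
    have h1 : Tendsto (fun g => (ρ g)ᵀ * JR N * ρ g) (U : Filter (autC b))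
        (𝓝 (ρ0ᵀ * JR N * ρ0)) :=
      (((continuous_id.matrix_transpose.tendsto _).comp hlim).mul tendsto_const_nhds).mul hlim
    have h2 : Tendsto (fun g => ((ρ g)ᵀ * JR N * ρ g) i0 (jj N i0)) (U : Filter (autC b))
        (𝓝 ((ρ0ᵀ * JR N * ρ0) i0 (jj N i0))) :=
      ((continuous_id.matrix_elem i0 (jj N i0)).tendsto _).comp h1
    have h3 : (ρ0ᵀ * JR N * ρ0) i0 (jj N i0) = c ^ 2 := by
      rw [hc, Matrix.transpose_smul, Matrix.transpose_one, Matrix.smul_mul, Matrix.smul_mul, Matrix.mul_smul,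
        Matrix.one_mul, Matrix.mul_one, smul_smul, Matrix.smul_apply, hJ0, smul_eq_mul, mul_one, sq]
    rw [h3] at h2
    refine h2.congr fun g => ?_
    show (((k g)⁻¹ • r g)ᵀ * JR N * ((k g)⁻¹ • r g)) i0 (jj N i0) = _
    rw [Matrix.transpose_smul, Matrix.smul_mul, Matrix.smul_mul, Matrix.mul_smul, hform, smul_smul,
      Matrix.smul_apply, hJ0, smul_eq_mul, mul_one, ← sq, inv_pow, hk2]
  have hc0 : c ≠ 0 := by
    intro h
    rw [h] at hcN
    norm_num at hcN
  have hkk : Tendsto k (U : Filter (autC b)) (𝓝 (|c|⁻¹)) := by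
    have h1 : Tendsto (fun g => √((nn (r g))⁻¹)) (U : Filter (autC b)) (𝓝 (√(c ^ 2))) :=
      (Real.continuous_sqrt.tendsto _).comp hkl
    rw [Real.sqrt_sq_eq_abs] at h1
    have h2 := h1.inv₀ (abs_ne_zero.2 hc0)
    refine h2.congr fun g => ?_
    rw [Real.sqrt_inv, inv_inv]
  have hr : Tendsto r (U : Filter (autC b)) (𝓝 ((|c|⁻¹ * c) • (1 : Matrix (Fin N) (Fin N) ℝ))) := by
    have h1 := hkk.smul hlim
    rw [hc, smul_smul] at h1
    exact h1.congr fun g => (hρr g).symm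
  rcases lt_or_gt_of_ne hc0 with h0 | h0
  · have e : |c|⁻¹ * c = -1 := by
      rw [abs_of_neg h0]
      field_simp
    rw [e] at hr
    have h1 : Tendsto (fun g => nn (-r g - 1)) (U : Filter (autC b))
        (𝓝 (nn (-((-1 : ℝ) • (1 : Matrix (Fin N) (Fin N) ℝ)) - 1))) :=
      (nn28_cont.tendsto _).comp (hr.neg.sub tendsto_const_nhds)
    have h2 : nn (-((-1 : ℝ) • (1 : Matrix (Fin N) (Fin N) ℝ)) - 1) = 0 := by
      have h3 : -((-1 : ℝ) • (1 : Matrix (Fin N) (Fin N) ℝ)) - 1 = (0 : ℝ) • 1 := by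
        rw [neg_smul, one_smul, neg_neg, sub_self, zero_smul]
      rw [h3, nn28_smul]
      norm_num
    rw [h2] at h1
    have h3 := h1.eventually (gt_mem_nhds hε)
    obtain ⟨g, h4, h5⟩ := (hUP.and h3).exists
    exact h4 (Or.inr h5.le)
  · have e : |c|⁻¹ * c = 1 := by
      rw [abs_of_pos h0]
      field_simp
    rw [e, one_smul] at hr
    have h1 : Tendsto (fun g => nn (r g - 1)) (U : Filter (autC b))
        (𝓝 (nn ((1 : Matrix (Fin N) (Fin N) ℝ) - 1))) :=
      (nn28_cont.tendsto _).comp (hr.sub tendsto_const_nhds)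
    have h2 : nn ((1 : Matrix (Fin N) (Fin N) ℝ) - 1) = 0 := by
      have h3 : (1 : Matrix (Fin N) (Fin N) ℝ) - 1 = (0 : ℝ) • 1 := by
        rw [sub_self, zero_smul]
      rw [h3, nn28_smul]
      norm_num
    rw [h2] at h1
    have h3 := h1.eventually (gt_mem_nhds hε)
    obtain ⟨g, h4, h5⟩ := (hUP.and h3).exists
    exact h4 (Or.inl h5.le)

end Pool.Agent.Helper43.LF
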