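import Pool.Agent.Helper43.LF.Com
import Pool.Agent.Helper43.LF.Defs
import Pool.Agent.Helper35.TZ.Conn
import Mathlib.Analysis.Normed.Algebra.MatrixExponential

/-!
# Layer LF, block LF20: lifts of exponentials

`f : L ≃ so2 N`, `r : autC b → matrices` with `r g * f x = f (g x) * r g` and `(r g)ᵀ J r g = J`. PROOF of `lift_exp`. `x = f⁻¹ Y`, `g = ex (toMatrix b b (ad x)) ∈ autC b` (`(isAdj_component b).exp_ad x`, `Helper66/BD/Conn.lean`, see `eC` in `Helper55/OB/Iface.lean`). CLAIM: `exp Y * f z = f (g z) * exp Y` for all `z : L`, where `g z = toLin b b g z`. Indeed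
`F(t) = exp (-t Y) * f (exp (t ad x) z) * exp (t Y)` has derivative `exp (-t Y) (- Y f(..) + f (⁅x, ..⁆) + f(..) Y) exp (t Y) = 0` (`f ⁅x, w⁆ = Y f(w) - f(w) Y`), so `F(1) = F(0) = f z` (`is_const_of_deriv_eq_zero`); (or: power series, or an existing lemma on `exp (ad)`: look at `Helper42/TZ`, `Helper55/TZ/AdRep.lean`,
`Helper84/GN/*`, `Helper81`). So `T = exp (-Y) * r g` commutes with all `f z`, that is with `so2 N` (`r g f z = f (g z) r g = exp Y f z exp (-Y) r g`), so `T = c` (`comm_so2`), `r g = c exp Y`. `exp Y` preserves the form (`(exp Y)ᵀ J exp Y = J`: `Yᵀ J = - J Y` gives `(exp Y)ᵀ J = exp (Yᵀ) J = J exp (-Y)`), so `c² J = J`, `c = ± 1` (`J ≠ 0`).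
-/

set_option autoImplicit false
set_option linter.unusedSectionVars false

open Filter Topology Matrix

namespace Pool.Agent.Helper43.LF

open Pool.Agent.Helper55.OB
open Pool.Agent.Helper35.TZ (autC)

variable {L : Type} [LieRing L] [LieAlgebra ℝ L] {M N : ℕ} {b : Module.Basis (Fin M) ℝ L}

open scoped Matrix.Norms.Operator in
/-- `exp(ad x)` is the conjugation with `exp x`. -/
private theorem exp_ad_h12 (e : L →ₗ[ℝ] Matrix (Fin N) (Fin N) ℝ) (he : ∀ x y, e ⁅x, y⁆ = e x * e y - e y * e x)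
    (b : Module.Basis (Fin M) ℝ L) (x y : L) :
    e (toLin b b (NormedSpace.exp (LinearMap.toMatrix b b (LieAlgebra.ad ℝ L x))) y) =
      NormedSpace.exp (e x) * (e y * NormedSpace.exp (-(e x))) := by
  obtain ⟨T, hT⟩ : ∃ T : Matrix (Fin M) (Fin M) ℝ, T = LinearMap.toMatrix b b (LieAlgebra.ad ℝ L x) := ⟨_, rfl⟩
  rw [← hT]
  let ΛL : Matrix (Fin M) (Fin M) ℝ →ₗ[ℝ] Matrix (Fin N) (Fin N) ℝ := e ∘ₗ (LinearMap.applyₗ y) ∘ₗ (Matrix.toLin b b).toLinearMap
  let Λ : Matrix (Fin M) (Fin M) ℝ →L[ℝ] Matrix (Fin N) (Fin N) ℝ := ⟨ΛL, LinearMap.continuous_of_finiteDimensional _⟩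
  have hΛ : ∀ M, Λ M = e (toLin b b M y) := fun M => rfl
  have hΛT : ∀ M, Λ (T * M) = e x * Λ M - Λ M * e x := by
    intro M
    rw [hΛ, hΛ, toLin_mul b b b, LinearMap.comp_apply, hT, Matrix.toLin_toMatrix, LieAlgebra.ad_apply, he]
  have hX : ∀ s : ℝ, HasDerivAt (fun s : ℝ => Λ (NormedSpace.exp (s • T))) (e x * Λ (NormedSpace.exp (s • T)) - Λ (NormedSpace.exp (s • T)) * e x) s := by
    intro s
    have h1 : HasDerivAt (fun s : ℝ => Λ (NormedSpace.exp (s • T))) (Λ (T * NormedSpace.exp (s • T))) s :=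
      Λ.hasFDerivAt.comp_hasDerivAt s (hasDerivAt_exp_smul_const' (𝕂 := ℝ) T s)
    rw [hΛT] at h1
    exact h1
  have hP : ∀ s : ℝ, HasDerivAt (fun s : ℝ => NormedSpace.exp (s • (-(e x))) * Λ (NormedSpace.exp (s • T)) * NormedSpace.exp (s • e x)) 0 s := by
    intro s
    have h1 := ((hasDerivAt_exp_smul_const (𝕂 := ℝ) (-(e x)) s).mul (hX s)).mul (hasDerivAt_exp_smul_const' (𝕂 := ℝ) (e x) s)
    refine h1.congr_deriv ?_
    have key : ∀ a u v w : Matrix (Fin N) (Fin N) ℝ, (u * -a * w + u * (a * w - w * a)) * v + (u * w) * (a * v) = 0 := by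
      intro a u v w
      noncomm_ring
    exact key (e x) (NormedSpace.exp (s • (-(e x)))) (NormedSpace.exp (s • (e x))) (Λ (NormedSpace.exp (s • T)))
  have hc : NormedSpace.exp ((1 : ℝ) • (-(e x))) * Λ (NormedSpace.exp ((1 : ℝ) • T)) * NormedSpace.exp ((1 : ℝ) • e x) =
      NormedSpace.exp ((0 : ℝ) • (-(e x))) * Λ (NormedSpace.exp ((0 : ℝ) • T)) * NormedSpace.exp ((0 : ℝ) • e x) :=
    is_const_of_deriv_eq_zero (fun s => (hP s).differentiableAt) (fun s => (hP s).deriv) 1 0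
  simp only [one_smul, zero_smul, NormedSpace.exp_zero, Matrix.one_mul, Matrix.mul_one] at hc
  have e1 : NormedSpace.exp (e x) * NormedSpace.exp (-(e x)) = 1 := by
    rw [← Matrix.exp_add_of_commute _ _ (Commute.neg_right (Commute.refl (e x))), add_neg_cancel, NormedSpace.exp_zero]
  have e2 : Λ (1 : Matrix (Fin M) (Fin M) ℝ) = e y := by
    rw [hΛ, toLin_one]
    rfl
  rw [e2] at hc
  rw [← hΛ, ← hc]
  calc Λ (NormedSpace.exp T) = (NormedSpace.exp (e x) * NormedSpace.exp (-(e x))) * Λ (NormedSpace.exp T) *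
        (NormedSpace.exp (e x) * NormedSpace.exp (-(e x))) := by rw [e1, Matrix.one_mul, Matrix.mul_one]
    _ = _ := by simp only [Matrix.mul_assoc]

open scoped Matrix.Norms.Operator in
/-- The exponentials preserve the form. -/
private theorem exp_form_h12 {Y : Matrix (Fin N) (Fin N) ℝ} (hY : Y ∈ so2 N) :
    (NormedSpace.exp Y)ᵀ * JR N * NormedSpace.exp Y = JR N := by
  have hP : ∀ s : ℝ, HasDerivAt (fun s : ℝ => NormedSpace.exp (s • Yᵀ) * JR N * NormedSpace.exp (s • Y)) 0 s := by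
    intro s
    have h1 := ((hasDerivAt_exp_smul_const (𝕂 := ℝ) (Yᵀ) s).mul_const (JR N)).mul (hasDerivAt_exp_smul_const' (𝕂 := ℝ) Y s)
    refine h1.congr_deriv ?_
    have key : ∀ u v : Matrix (Fin N) (Fin N) ℝ, (u * Yᵀ * JR N) * v + (u * JR N) * (Y * v) = 0 := by
      intro u v
      have h2 : (u * Yᵀ * JR N) * v + (u * JR N) * (Y * v) = u * (Yᵀ * JR N + JR N * Y) * v := by noncomm_ring
      rw [h2, mem_so2.1 hY, Matrix.mul_zero, Matrix.zero_mul]
    exact key _ _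
  have hc : NormedSpace.exp ((1 : ℝ) • Yᵀ) * JR N * NormedSpace.exp ((1 : ℝ) • Y) =
      NormedSpace.exp ((0 : ℝ) • Yᵀ) * JR N * NormedSpace.exp ((0 : ℝ) • Y) :=
    is_const_of_deriv_eq_zero (fun s => (hP s).differentiableAt) (fun s => (hP s).deriv) 1 0
  simp only [one_smul, zero_smul, NormedSpace.exp_zero, Matrix.one_mul, Matrix.mul_one] at hc
  rw [← Matrix.exp_transpose]
  exact hc

theorem lift_exp (hN : 5 ≤ N) (f : L ≃ₗ⁅ℝ⁆ so2 N) (r : autC b → Matrix (Fin N) (Fin N) ℝ)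
    (hform : ∀ g, (r g)ᵀ * JR N * r g = JR N)
    (had : ∀ (g : autC b) (x : L), r g * (f x : Matrix (Fin N) (Fin N) ℝ) =
      (f (Matrix.toLin b b ((g : GL (Fin M) ℝ) : Matrix (Fin M) (Fin M) ℝ) x) : Matrix (Fin N) (Fin N) ℝ) * r g)
    {Y : Matrix (Fin N) (Fin N) ℝ} (hY : Y ∈ so2 N) : ∃ g : autC b, r g = NormedSpace.exp Y ∨ r g = -NormedSpace.exp Y := by
  obtain ⟨x, hx⟩ : ∃ x : L, (f x : Matrix (Fin N) (Fin N) ℝ) = Y := ⟨f.symm ⟨Y, hY⟩, by rw [LieEquiv.apply_symm_apply]⟩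
  let e : L →ₗ[ℝ] Matrix (Fin N) (Fin N) ℝ :=
    { toFun := fun z => (f z : Matrix (Fin N) (Fin N) ℝ)
      map_add' := fun z w => by
        rw [map_add]
        rfl
      map_smul' := fun t z => by
        rw [map_smul]
        rfl }
  have hef : ∀ z, e z = (f z : Matrix (Fin N) (Fin N) ℝ) := fun z => rfl
  have hel : ∀ z w, e ⁅z, w⁆ = e z * e w - e w * e z := by
    intro z w
    rw [hef, hef, hef, LieEquiv.map_lie]
    rfl
  have hex : e x = Y := hx
  let g : autC b := ⟨Pool.Agent.Helper96.SA.ex (LinearMap.toMatrix b b (LieAlgebra.ad ℝ L x)), (Pool.Agent.Helper66.BD.isAdj_component b).exp_ad x⟩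
  have hg : ((g : GL (Fin M) ℝ) : Matrix (Fin M) (Fin M) ℝ) = NormedSpace.exp (LinearMap.toMatrix b b (LieAlgebra.ad ℝ L x)) := rfl
  have hE1 : NormedSpace.exp Y * NormedSpace.exp (-Y) = (1 : Matrix (Fin N) (Fin N) ℝ) := by
    rw [← Matrix.exp_add_of_commute _ _ (Commute.neg_right (Commute.refl Y)), add_neg_cancel, NormedSpace.exp_zero]
  have hE2 : NormedSpace.exp (-Y) * NormedSpace.exp Y = (1 : Matrix (Fin N) (Fin N) ℝ) := by
    rw [← Matrix.exp_add_of_commute _ _ (Commute.neg_left (Commute.refl Y)), neg_add_cancel, NormedSpace.exp_zero]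
  have hcom : ∀ X ∈ so2 N, (NormedSpace.exp (-Y) * r g) * X = X * (NormedSpace.exp (-Y) * r g) := by
    intro X hX
    obtain ⟨z, hz⟩ : ∃ z : L, (f z : Matrix (Fin N) (Fin N) ℝ) = X := ⟨f.symm ⟨X, hX⟩, by rw [LieEquiv.apply_symm_apply]⟩
    have h1 := had g z
    have h2 := exp_ad_h12 e hel b x z
    rw [hef, hex, hef] at h2
    rw [hg, h2, hz] at h1
    calc (NormedSpace.exp (-Y) * r g) * X = NormedSpace.exp (-Y) * (r g * X) := Matrix.mul_assoc _ _ _
      _ = NormedSpace.exp (-Y) * (NormedSpace.exp Y * (X * NormedSpace.exp (-Y)) * r g) := by rw [h1]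
      _ = (NormedSpace.exp (-Y) * NormedSpace.exp Y) * (X * NormedSpace.exp (-Y) * r g) := by simp only [Matrix.mul_assoc]
      _ = X * (NormedSpace.exp (-Y) * r g) := by rw [hE2, Matrix.one_mul, Matrix.mul_assoc]
  obtain ⟨c, hc⟩ := comm_so2 hN hcom
  have hr : r g = c • NormedSpace.exp Y := by
    calc r g = (NormedSpace.exp Y * NormedSpace.exp (-Y)) * r g := by rw [hE1, Matrix.one_mul]
      _ = NormedSpace.exp Y * (NormedSpace.exp (-Y) * r g) := Matrix.mul_assoc _ _ _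
      _ = c • NormedSpace.exp Y := by rw [hc, Matrix.mul_smul, Matrix.mul_one]
  have h3 : (c * c) • JR N = JR N := by
    have h4 := hform g
    rw [hr, transpose_smul, Matrix.smul_mul, Matrix.smul_mul, Matrix.mul_smul, exp_form_h12 hY, smul_smul] at h4
    exact h4
  have h5 : c * c = 1 := by
    have i0 : Fin N := ⟨0, by omega⟩
    have h6 := congrFun (congrFun h3 i0) (jj N i0)
    have h7 : JR N i0 (jj N i0) = 1 := by simp [JR]
    rw [Matrix.smul_apply, h7, smul_eq_mul, mul_one] at h6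
    exact h6
  refine ⟨g, ?_⟩
  rcases mul_self_eq_one_iff.1 h5 with h6 | h6
  · left
    rw [hr, h6, one_smul]
  · right
    rw [hr, h6, neg_smul, one_smul]

end Pool.Agent.Helper43.LF
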