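import Pool.Agent.Helper96.FR.Lat3

/-!
# Layer LF, block LF7: Selberg's property of lattices

PROOF (`selberg`). Shrink `U`: choose an open `V ∋ 1` with `V⁻¹ = V` and `V ⊂ U` (e.g. `interior U ∩ (interior U)⁻¹`). Let `O = {x : G / Γ | ∃ v ∈ V, x = v • o}`, `o = (1 : G)`: open in `G ⧸ Γ` (the image of the open set `V` under the open quotient map, `QuotientGroup.isOpenMap_coe`).
`ν O > 0`: if `ν O = 0` then `ν (g • O) = 0` for all `g` (invariance), and countably many `g_i V` cover `G` (second countable: `TopologicalSpace.countable_cover_nhds`), so the `g_i • O` cover `G ⧸ Γ` and `ν univ = 0`, contradiction.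
The sets `O_i = g^(i (M+1)) • O = (fun x => g^(-i(M+1)) • x) ⁻¹' O`, `i ∈ ℕ`, are Borel with the same measure `ν O > 0` and `ν univ < ∞`: two of them meet (`exists_nonempty_inter_of_measure_univ_lt_sum_measure`-like lemma of Mathlib, or `MeasureTheory.exists_nonempty_inter_of_measure_univ_lt_tsum_measure`): `i < j`,
`g^(i(M+1)) v Γ = g^(j(M+1)) v' Γ`, so `v⁻¹ g^m v' ∈ Γ` with `m = (j - i)(M + 1) ≥ M`, `v⁻¹, v' ∈ V ⊂ U`.
-/

set_option autoImplicit false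
set_option linter.unusedSectionVars false

open MeasureTheory Filter Topology
open scoped Pointwise ENNReal

namespace Pool.Agent.Helper43.LF

open Pool.Agent.Helper96.FR

theorem selberg {G : Type} [Group G] [TopologicalSpace G] [IsTopologicalGroup G]
    [SecondCountableTopology G] [T2Space G] (Γ : Subgroup G) (hΓ : Pool.Agent.Helper96.FR.Lattice Γ)
    {U : Set G} (hU : U ∈ 𝓝 (1 : G)) (g : G) (M : ℕ) :
    ∃ m : ℕ, M ≤ m ∧ ∃ u ∈ U, ∃ u' ∈ U, u * g ^ m * u' ∈ Γ := by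
  obtain ⟨_, ν, hν0, hν1, hνi⟩ := hΓ
  let mQ : MeasurableSpace (G ⧸ Γ) := borel (G ⧸ Γ)
  have bQ : @BorelSpace (G ⧸ Γ) _ mQ := @BorelSpace.mk _ _ mQ rfl
  have h1U : (1 : G) ∈ interior U := mem_interior_iff_mem_nhds.2 hU
  obtain ⟨V, hVo, hV1, hVU, hVi⟩ : ∃ V : Set G, IsOpen V ∧ (1 : G) ∈ V ∧ V ⊆ U ∧ ∀ v ∈ V, v⁻¹ ∈ V := by
    refine ⟨interior U ∩ (interior U)⁻¹, isOpen_interior.inter isOpen_interior.inv, ⟨h1U, ?_⟩,
      fun v hv => interior_subset hv.1, fun v hv => ⟨hv.2, ?_⟩⟩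
    · rw [Set.mem_inv, inv_one]
      exact h1U
    · rw [Set.mem_inv, inv_inv]
      exact hv.1
  let O : Set (G ⧸ Γ) := (fun x : G => (x : G ⧸ Γ)) '' V
  have hOo : IsOpen O := QuotientGroup.isOpenMap_coe V hVo
  have hOm : MeasurableSet[mQ] O := hOo.measurableSet
  have hgO : ∀ g : G, IsOpen ((fun x : G ⧸ Γ => g • x) ⁻¹' O) := fun g =>
    hOo.preimage (continuous_const_smul g)
  have hpos : ν O ≠ 0 := by
    intro h0
    obtain ⟨s, hs, hs2⟩ := TopologicalSpace.countable_cover_nhds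
      (f := fun g : G => (fun x : G => g⁻¹ * x) ⁻¹' V) (fun g => by
        refine (hVo.preimage (continuous_const_mul g⁻¹)).mem_nhds ?_
        show g⁻¹ * g ∈ V
        rw [inv_mul_cancel]
        exact hV1)
    have hcov : (Set.univ : Set (G ⧸ Γ)) ⊆ ⋃ g ∈ s, (fun x : G ⧸ Γ => g⁻¹ • x) ⁻¹' O := by
      intro x _
      obtain ⟨y, rfl⟩ := QuotientGroup.mk_surjective x
      have hy : y ∈ ⋃ g ∈ s, (fun x : G => g⁻¹ * x) ⁻¹' V := by
        rw [hs2]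
        trivial
      obtain ⟨g, hg, hy'⟩ := Set.mem_iUnion₂.1 hy
      exact Set.mem_iUnion₂.2 ⟨g, hg, ⟨g⁻¹ * y, hy', rfl⟩⟩
    apply hν0
    refine le_antisymm ?_ bot_le
    calc ν Set.univ ≤ ν (⋃ g ∈ s, (fun x : G ⧸ Γ => g⁻¹ • x) ⁻¹' O) := measure_mono hcov
      _ = 0 := (measure_biUnion_null_iff hs).2 fun g _ => by rw [hνi _ _ hOm, h0]
  have key : ∀ i j : ℕ, i < j → (((fun x : G ⧸ Γ => (g ^ (i * (M + 1)))⁻¹ • x) ⁻¹' O) ∩
      ((fun x : G ⧸ Γ => (g ^ (j * (M + 1)))⁻¹ • x) ⁻¹' O)).Nonempty →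
      ∃ m : ℕ, M ≤ m ∧ ∃ u ∈ U, ∃ u' ∈ U, u * g ^ m * u' ∈ Γ := by
    rintro i j hij ⟨x, ⟨v, hv, h1⟩, ⟨v', hv', h2⟩⟩
    obtain ⟨y, rfl⟩ := QuotientGroup.mk_surjective x
    have h3 : v⁻¹ * ((g ^ (i * (M + 1)))⁻¹ * y) ∈ Γ := QuotientGroup.eq.1 h1
    have h4 : v'⁻¹ * ((g ^ (j * (M + 1)))⁻¹ * y) ∈ Γ := QuotientGroup.eq.1 h2
    obtain ⟨d, rfl⟩ : ∃ d, j = i + (d + 1) := ⟨j - i - 1, by omega⟩
    refine ⟨(d + 1) * (M + 1), by nlinarith, v⁻¹, hVU (hVi v hv), v', hVU hv', ?_⟩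
    have h5 := Γ.mul_mem h3 (Γ.inv_mem h4)
    have h6 : v⁻¹ * ((g ^ (i * (M + 1)))⁻¹ * y) * (v'⁻¹ * ((g ^ ((i + (d + 1)) * (M + 1)))⁻¹ * y))⁻¹ =
        v⁻¹ * g ^ ((d + 1) * (M + 1)) * v' := by
      rw [add_mul, pow_add]
      group
    rwa [h6] at h5
  have hsum : ν Set.univ < ∑' i : ℕ, ν ((fun x : G ⧸ Γ => (g ^ (i * (M + 1)))⁻¹ • x) ⁻¹' O) := by
    have h1 : ∀ i : ℕ, ν ((fun x : G ⧸ Γ => (g ^ (i * (M + 1)))⁻¹ • x) ⁻¹' O) = ν O := fun i =>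
      hνi _ _ hOm
    rw [tsum_congr h1, ENNReal.tsum_const_eq_top_of_ne_zero hpos]
    exact lt_top_iff_ne_top.2 hν1
  obtain ⟨i, j, hij, hne⟩ := exists_nonempty_inter_of_measure_univ_lt_tsum_measure ν
    (fun i => ((hgO (g ^ (i * (M + 1)))⁻¹).measurableSet).nullMeasurableSet) hsum
  rcases lt_or_gt_of_ne hij with h | h
  · exact key i j h hne
  · exact key j i h (by rwa [Set.inter_comm])

end Pool.Agent.Helper43.LF
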