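import Pool.Agent.Helper43.LF.Pos
import Pool.Agent.Helper43.LF.Sel
import Mathlib.Analysis.Normed.Algebra.MatrixExponential

/-!
# Layer LF, block LF18: proximal elements of a lattice

`M : G2 → Matrix (Fin N) (Fin N) ℝ`: matrices of the whole group, multiplicative and continuous at `1` up to the sign. PROOF. Let `m = wᵀ J a` (invertible), `Π₊ = a m⁻¹ wᵀ J`, `Π₋ = w (mᵀ)⁻¹ aᵀ J` (`aᵀ J w = mᵀ` by `JR_symm`). `Π₊² = Π₊`, `Π₋² = Π₋`, `Π₊ Π₋ = 0 = Π₋ Π₊`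
(`wᵀ J w = 0 = aᵀ J a`). `Y = Π₊ - Π₋`. `exp_hyp`: `exp (t Y) = exp (t Π₊) exp (- t Π₋)` (commute) `= (1 + (e^t - 1) Π₊) (1 + (e^(-t) - 1) Π₋) = hyp a w t` (for an idempotent `Π`: `exp (t Π) = 1 + (e^t - 1) Π`, series). `Yᵀ ∈ so2 N`: `Y J + J Yᵀ = 0`: `J Yᵀ = J (J w m⁻ᵀ aᵀ) - J (J a m⁻¹ wᵀ)
= w m⁻ᵀ aᵀ - a m⁻¹ wᵀ` and `Y J = a m⁻¹ wᵀ - w m⁻ᵀ aᵀ` (`J² = 1`). By `hexp` there is `g` with `M g = ± exp (Yᵀ)`. By `hone` choose `U ∈ 𝓝 1` with `nn (± M u - 1) ≤ ε` for `u ∈ U`. `selberg`: `m ≥ M₀`, `u, u' ∈ U`, `k = u g^m u' ∈ Γ`. By `hmul`, `hres`: `PR P k = ± M u (M g)^m M u' = ± M u exp (m Yᵀ) M u'`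
(`M (g^m) = ± (M g)^m` by induction; for `m = 0` use `m ≥ 1`, or `M 1 = ± 1`: choose `M₀ ≥ 1`), transpose: `(PR P k)ᵀ = ± (M u')ᵀ (hyp a w m) (M u)ᵀ` (`Matrix.exp_transpose`, `exp (m Yᵀ)ᵀ = exp (m Y)`), and put the signs into `u`, `u'`, `c`.
-/

set_option autoImplicit false

open Filter Topology Matrix

namespace Pool.Agent.Helper43.LF

open Pool.Agent.Helper84 Pool.Agent.Helper84.GN Pool.Agent.Helper84.GN.S3
open Pool.Agent.Helper84.NI Pool.Agent.Helper84.GVN Pool.Agent.Helper90.RK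
open Pool.Agent.Helper55.OB

private theorem exp_idem86 {A : Type*} [NormedRing A] [NormedAlgebra ℝ A] [CompleteSpace A]
    (p : A) (hp : p * p = p) (t : ℝ) :
    NormedSpace.exp (t • p) = 1 + (Real.exp t - 1) • p := by
  have h1 := NormedSpace.exp_series_hasSum_exp' (𝕂 := ℝ) (t • p)
  have h2 : HasSum (fun n : ℕ => ((n.factorial : ℝ)⁻¹ • t ^ n)) (Real.exp t) := by
    rw [Real.exp_eq_exp_ℝ]
    exact NormedSpace.exp_series_hasSum_exp' (𝕂 := ℝ) t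
  have h3 := h2.smul_const p
  have h4 : ∀ n : ℕ, p ^ (n + 1) = p := by
    intro n
    induction n with
    | zero => rw [zero_add, pow_one]
    | succ n ih => rw [pow_succ, ih, hp]
  have h5 : HasSum (fun n : ℕ => if n = 0 then (1 - p : A) else 0) (1 - p) := hasSum_ite_eq 0 (1 - p)
  have h6 := h3.add h5
  have h7 : (fun n : ℕ => ((n.factorial : ℝ)⁻¹ • t ^ n) • p + if n = 0 then (1 - p : A) else 0)
      = fun n : ℕ => (n.factorial : ℝ)⁻¹ • (t • p) ^ n := by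
    funext n
    rcases n with _ | n
    · simp
    · rw [if_neg (Nat.succ_ne_zero n), add_zero, smul_pow, h4, smul_assoc]
  rw [h7] at h6
  have h8 := h1.unique h6
  rw [h8, sub_smul, one_smul]
  abel

private theorem mexp_idem86 {N : ℕ} (p : Matrix (Fin N) (Fin N) ℝ) (hp : p * p = p) (t : ℝ) :
    NormedSpace.exp (t • p) = 1 + (Real.exp t - 1) • p :=
  open scoped Norms.Operator in exp_idem86 p hp t

/-- The projection on the span of `a`. -/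
private noncomputable def Pp86 {N r : ℕ} (a w : Matrix (Fin N) (Fin r) ℝ) : Matrix (Fin N) (Fin N) ℝ :=
  a * (wᵀ * JR N * a)⁻¹ * wᵀ * JR N

private theorem Pp_idem86 {N r : ℕ} {a w : Matrix (Fin N) (Fin r) ℝ} (h : (wᵀ * JR N * a).det ≠ 0) :
    Pp86 a w * Pp86 a w = Pp86 a w := by
  have h1 : (wᵀ * JR N * a)⁻¹ * (wᵀ * JR N * a) = 1 := Matrix.nonsing_inv_mul _ (isUnit_iff_ne_zero.2 h)
  unfold Pp86
  calc a * (wᵀ * JR N * a)⁻¹ * wᵀ * JR N * (a * (wᵀ * JR N * a)⁻¹ * wᵀ * JR N)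
      = a * ((wᵀ * JR N * a)⁻¹ * (wᵀ * JR N * a)) * (wᵀ * JR N * a)⁻¹ * wᵀ * JR N := by
        simp only [Matrix.mul_assoc]
    _ = a * (wᵀ * JR N * a)⁻¹ * wᵀ * JR N := by rw [h1, Matrix.mul_one]

private theorem Pp_zero86 {N r : ℕ} {a w : Matrix (Fin N) (Fin r) ℝ} (h : wᵀ * JR N * w = 0) :
    Pp86 a w * Pp86 w a = 0 := by
  unfold Pp86
  calc a * (wᵀ * JR N * a)⁻¹ * wᵀ * JR N * (w * (aᵀ * JR N * w)⁻¹ * aᵀ * JR N)
      = a * (wᵀ * JR N * a)⁻¹ * (wᵀ * JR N * w) * (aᵀ * JR N * w)⁻¹ * aᵀ * JR N := by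
        simp only [Matrix.mul_assoc]
    _ = 0 := by rw [h, Matrix.mul_zero, Matrix.zero_mul, Matrix.zero_mul, Matrix.zero_mul]

private theorem tr86 {N r : ℕ} (a w : Matrix (Fin N) (Fin r) ℝ) : (wᵀ * JR N * a)ᵀ = aᵀ * JR N * w := by
  rw [Matrix.transpose_mul, Matrix.transpose_mul, Matrix.transpose_transpose, JR_symm, Matrix.mul_assoc]

private theorem det86 {N r : ℕ} {a w : Matrix (Fin N) (Fin r) ℝ} (h : (wᵀ * JR N * a).det ≠ 0) :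
    (aᵀ * JR N * w).det ≠ 0 := by
  rw [← tr86, Matrix.det_transpose]
  exact h

private theorem so86 {N r : ℕ} (hN : 5 ≤ N) {a w : Matrix (Fin N) (Fin r) ℝ} :
    (Pp86 a w - Pp86 w a)ᵀ ∈ so2 N := by
  rw [mem_so2, Matrix.transpose_transpose]
  have h1 : ∀ b v : Matrix (Fin N) (Fin r) ℝ, Pp86 b v * JR N = b * (vᵀ * JR N * b)⁻¹ * vᵀ := by
    intro b v
    unfold Pp86
    rw [Matrix.mul_assoc _ (JR N) (JR N), JR_sq hN, Matrix.mul_one]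
  have h2 : ∀ b v : Matrix (Fin N) (Fin r) ℝ, JR N * (Pp86 b v)ᵀ = v * (bᵀ * JR N * v)⁻¹ * bᵀ := by
    intro b v
    have h3 : (Pp86 b v)ᵀ = JR N * (v * (bᵀ * JR N * v)⁻¹ * bᵀ) := by
      unfold Pp86
      rw [Matrix.transpose_mul, Matrix.transpose_mul, Matrix.transpose_mul, Matrix.transpose_transpose,
        JR_symm, Matrix.transpose_nonsing_inv, tr86]
      simp only [Matrix.mul_assoc]
    rw [h3, ← Matrix.mul_assoc, JR_sq hN, Matrix.one_mul]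
  rw [Matrix.sub_mul, Matrix.transpose_sub, Matrix.mul_sub, h1, h1, h2, h2]
  abel

theorem exp_hyp {N r : ℕ} (hN : 5 ≤ N) {a w : Matrix (Fin N) (Fin r) ℝ} (ha : a ∈ FrR N r) (hw : w ∈ FrR N r)
    (h : (wᵀ * JR N * a).det ≠ 0) (t : ℝ) :
    NormedSpace.exp (t • (a * (wᵀ * JR N * a)⁻¹ * wᵀ * JR N - w * (aᵀ * JR N * w)⁻¹ * aᵀ * JR N)) = hyp a w t := by
  have i1 := Pp_idem86 h
  have i2 := Pp_idem86 (det86 h)
  have z1 : Pp86 a w * Pp86 w a = 0 := Pp_zero86 hw.2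
  have z2 : Pp86 w a * Pp86 a w = 0 := Pp_zero86 ha.2
  show NormedSpace.exp (t • (Pp86 a w - Pp86 w a)) = 1 + (Real.exp t - 1) • Pp86 a w +
    (Real.exp (-t) - 1) • Pp86 w a
  have e1 : t • (Pp86 a w - Pp86 w a) = t • Pp86 a w + (-t) • Pp86 w a := by
    rw [smul_sub, neg_smul, sub_eq_add_neg]
  have hc : Commute (t • Pp86 a w) ((-t) • Pp86 w a) := by
    show t • Pp86 a w * ((-t) • Pp86 w a) = (-t) • Pp86 w a * (t • Pp86 a w)
    rw [Matrix.smul_mul, Matrix.mul_smul, Matrix.smul_mul, Matrix.mul_smul, z1, z2]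
    simp only [smul_zero]
  rw [e1, Matrix.exp_add_of_commute _ _ hc, mexp_idem86 _ i1, mexp_idem86 _ i2]
  rw [Matrix.mul_add, Matrix.mul_one, Matrix.add_mul, Matrix.one_mul, Matrix.smul_mul, Matrix.mul_smul, z1,
    smul_zero, smul_zero, add_zero]

private def Sg86 (c : ℝ) : Prop := c = 1 ∨ c = -1

private theorem Sg86.mul {c d : ℝ} (hc : Sg86 c) (hd : Sg86 d) : Sg86 (c * d) := by
  rcases hc with rfl | rfl <;> rcases hd with rfl | rfl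
  · left; ring
  · right; ring
  · right; ring
  · left; ring

private theorem Sg86.pow {c : ℝ} (hc : Sg86 c) (n : ℕ) : Sg86 (c ^ n) := by
  induction n with
  | zero => left; exact pow_zero c
  | succ n ih => rw [pow_succ]; exact ih.mul hc

private theorem Sg86.sq {c : ℝ} (hc : Sg86 c) : c * c = 1 := by
  rcases hc with rfl | rfl <;> ring

private theorem nn_tr86 {m : ℕ} (A : Matrix (Fin m) (Fin m) ℝ) : nn Aᵀ = nn A := by
  unfold nn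
  rw [Finset.sum_comm]
  rfl

theorem prox_of {G2 : Type} [Group G2] [TopologicalSpace G2] [IsTopologicalGroup G2]
    [SecondCountableTopology G2] [T2Space G2] (Γ : Subgroup G2) (hΓ : Pool.Agent.Helper96.FR.Lattice Γ) {N r : ℕ}
    (hN : 5 ≤ N) (P : PH Γ N) (M : G2 → Matrix (Fin N) (Fin N) ℝ)
    (hmul : ∀ g h, M (g * h) = M g * M h ∨ M (g * h) = -(M g * M h))
    (hone : ∀ ε : ℝ, 0 < ε → ∀ᶠ g in 𝓝 (1 : G2), nn (M g - 1) ≤ ε ∨ nn (-M g - 1) ≤ ε)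
    (hres : ∀ γ : Γ, PR P γ = M γ ∨ PR P γ = -M γ)
    (hexp : ∀ Y ∈ so2 N, ∃ g : G2, M g = NormedSpace.exp Y ∨ M g = -NormedSpace.exp Y) : Prox P r := by
  intro a ha w hw hdet ε hε M0
  obtain ⟨Y, hY⟩ : ∃ Y, Y = Pp86 a w - Pp86 w a := ⟨_, rfl⟩
  have hYso : Yᵀ ∈ so2 N := by rw [hY]; exact so86 hN
  have of_or : ∀ A B : Matrix (Fin N) (Fin N) ℝ, A = B ∨ A = -B → ∃ c : ℝ, Sg86 c ∧ A = c • B := by
    intro A B h
    rcases h with h | h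
    · exact ⟨1, Or.inl rfl, by rw [one_smul]; exact h⟩
    · exact ⟨-1, Or.inr rfl, by rw [neg_smul, one_smul]; exact h⟩
  obtain ⟨g, hg⟩ := hexp _ hYso
  obtain ⟨c0, hc0, hg0⟩ := of_or _ _ hg
  have hpow : ∀ n : ℕ, ∃ c : ℝ, Sg86 c ∧ M (g ^ (n + 1)) = c • (M g) ^ (n + 1) := by
    intro n
    induction n with
    | zero => exact ⟨1, Or.inl rfl, by rw [zero_add, pow_one, pow_one, one_smul]⟩
    | succ n ih =>
      obtain ⟨c, hc, h1⟩ := ih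
      obtain ⟨c', hc', h2⟩ := of_or _ _ (hmul (g ^ (n + 1)) g)
      refine ⟨c' * c, hc'.mul hc, ?_⟩
      rw [pow_succ g (n + 1), h2, h1, pow_succ (M g) (n + 1), Matrix.smul_mul, smul_smul]
  have hexpn : ∀ n : ℕ, (NormedSpace.exp Yᵀ) ^ n = (hyp a w n)ᵀ := by
    intro n
    have h1 : NormedSpace.exp ((n : ℝ) • Y) = hyp a w n := by
      rw [hY]
      exact exp_hyp hN ha hw hdet n
    rw [← Matrix.exp_nsmul, ← h1, ← Matrix.exp_transpose, Matrix.transpose_smul, Nat.cast_smul_eq_nsmul]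
  obtain ⟨m, hm, u, hu, u', hu', hk⟩ := selberg Γ hΓ (hone ε hε) g (max 1 ⌈M0⌉₊)
  have hm1 : 1 ≤ m := (le_max_left _ _).trans hm
  have hmM : M0 ≤ m := (Nat.le_ceil M0).trans (by exact_mod_cast (le_max_right _ _).trans hm)
  obtain ⟨n, rfl⟩ : ∃ n, m = n + 1 := ⟨m - 1, by omega⟩
  obtain ⟨c1, hc1, h1⟩ := of_or _ _ (hres ⟨u * g ^ (n + 1) * u', hk⟩)
  obtain ⟨c2, hc2, h2⟩ := of_or _ _ (hmul (u * g ^ (n + 1)) u')
  obtain ⟨c3, hc3, h3⟩ := of_or _ _ (hmul u (g ^ (n + 1)))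
  obtain ⟨c4, hc4, h4⟩ := hpow n
  have hsgn : ∀ v : G2, (nn (M v - 1) ≤ ε ∨ nn (-M v - 1) ≤ ε) → ∃ s : ℝ, Sg86 s ∧ nn (s • (M v)ᵀ - 1) ≤ ε := by
    intro v hv
    rcases hv with h | h
    · refine ⟨1, Or.inl rfl, ?_⟩
      have e1 : (1 : ℝ) • (M v)ᵀ - 1 = (M v - 1)ᵀ := by
        rw [one_smul, Matrix.transpose_sub, Matrix.transpose_one]
      rw [e1, nn_tr86]
      exact h
    · refine ⟨-1, Or.inr rfl, ?_⟩
      have e1 : (-1 : ℝ) • (M v)ᵀ - 1 = (-M v - 1)ᵀ := by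
        rw [neg_smul, one_smul, Matrix.transpose_sub, Matrix.transpose_one, Matrix.transpose_neg]
      rw [e1, nn_tr86]
      exact h
  obtain ⟨s, hs, hs1⟩ := hsgn u hu
  obtain ⟨s', hs', hs1'⟩ := hsgn u' hu'
  have hfin : (PR P (⟨u * g ^ (n + 1) * u', hk⟩ : Γ))ᵀ =
      (c1 * c2 * c3 * c4 * c0 ^ (n + 1)) • ((M u')ᵀ * hyp a w ((n + 1 : ℕ) : ℝ) * (M u)ᵀ) := by
    rw [h1]
    show (c1 • M (u * g ^ (n + 1) * u'))ᵀ = _
    rw [h2, h3, h4, hg0, smul_pow, hexpn]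
    simp only [Matrix.transpose_smul, Matrix.transpose_mul, Matrix.transpose_transpose, Matrix.mul_smul,
      Matrix.smul_mul, smul_smul, Matrix.mul_assoc]
    congr 1
    ring
  refine ⟨⟨u * g ^ (n + 1) * u', hk⟩, ((n + 1 : ℕ) : ℝ), s' • (M u')ᵀ, s • (M u)ᵀ,
    c1 * c2 * c3 * c4 * c0 ^ (n + 1) * (s' * s), hmM, hs1', hs1, ?_, ?_⟩
  · exact ((((hc1.mul hc2).mul hc3).mul hc4).mul (hc0.pow _)).mul (hs'.mul hs)
  · rw [hfin]
    simp only [Matrix.mul_smul, Matrix.smul_mul, smul_smul]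
    congr 1
    have e1 := hs.sq
    have e2 := hs'.sq
    calc c1 * c2 * c3 * c4 * c0 ^ (n + 1) = c1 * c2 * c3 * c4 * c0 ^ (n + 1) * ((s' * s') * (s * s)) := by
          rw [e1, e2]; ring
      _ = _ := by ring

end Pool.Agent.Helper43.LF
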