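import Pool.Agent.Helper43.LF.Mat
import Pool.Agent.Helper43.LF.Prx
import Pool.Agent.Helper43.LF.LiftE
import Pool.Agent.Helper43.LF.LiftC
import Pool.Agent.Helper43.LF.Op
import Pool.Agent.Helper35.TZ.Fin2

/-!
# Layer LF: final statements

`prox_lift`: the lattices of `so2 N` are proximal. `mat_pt`, `mat_ln`: matching, from the inequality of layer TB and the big cell. `full_pt`, `full_ln`: Lemma F for the points off a line, the lines off a point, with an operator.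
-/

set_option autoImplicit false
set_option linter.unusedSectionVars false

open MeasureTheory Filter Topology Matrix

namespace Pool.Agent.Helper43.LF

open Pool.Agent.Helper84 Pool.Agent.Helper84.GN Pool.Agent.Helper84.GN.S3 Pool.Agent.Helper84.GN.S3.X
open Pool.Agent.Helper84.NI Pool.Agent.Helper84.GVN Pool.Agent.Helper90.RK
open Pool.Agent.Helper96.RK hiding toReg
open Pool.Agent.Helper66.FR Pool.Agent.Helper84.FR Pool.Agent.Helper55.FR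
open Pool.Agent.Helper78.BM Pool.Agent.Helper55.OB
open Pool.Agent.Helper35.TZ (autC)

section Prox

variable {L : Type} [LieRing L] [LieAlgebra ℝ L] {M N : ℕ} {b : Module.Basis (Fin M) ℝ L}

/-- The lattices of `so2 N` are proximal. -/
theorem prox_lift (hN : 5 ≤ N) (f : L ≃ₗ⁅ℝ⁆ so2 N) (r : autC b → Matrix (Fin N) (Fin N) ℝ)
    (hmul : ∀ g h, r (g * h) = r g * r h ∨ r (g * h) = -(r g * r h))
    (hform : ∀ g, (r g)ᵀ * JR N * r g = JR N)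
    (had : ∀ (g : autC b) (x : L), r g * (f x : Matrix (Fin N) (Fin N) ℝ) =
      (f (Matrix.toLin b b ((g : GL (Fin M) ℝ) : Matrix (Fin M) (Fin M) ℝ) x) : Matrix (Fin N) (Fin N) ℝ) * r g)
    {Γ : Subgroup (autC b)} (hL : Pool.Agent.Helper96.FR.Lattice Γ) {P : PH Γ N}
    (hPr : ∀ γ : Γ, P.ι γ = (r (γ : autC b)).map Complex.ofReal) (k : ℕ) : Prox P k := by
  obtain ⟨i1, i2, i3⟩ := Pool.Agent.Helper35.TZ.lcs_autC b
  refine prox_of Γ hL hN P r hmul (fun ε hε => lift_one hN f r hform had hε) (fun γ => Or.inl ?_)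
    (fun Y hY => lift_exp hN f r hform had hY)
  ext i j
  change (P.ι γ i j).re = _
  rw [hPr]
  exact Complex.ofReal_re _

end Prox

variable {G1 X G Λ : Type} [Group G1] [TopologicalSpace G1] [IsTopologicalGroup G1] [MeasurableSpace X] [MulAction G1 X]
  [MeasurableConstSMul G1 X] [Group G] [Group Λ] [Countable Λ] {μ : Measure X} [SMulInvariantMeasure G1 X μ]
  [IsProbabilityMeasure μ] {a : Cocy G1 X Λ} {E : Emb Λ G} {N : ℕ} {P : PH G N} {S : Sv P}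

theorem Opp.symm {r : ℕ} {c : ℝ} {γ γ' : G} (h : Opp r S c γ γ') : Opp r S c γ' γ := by
  unfold Opp at h ⊢
  have e : ((Vr r S γ')ᵀ * JR N * Vr r S γ) = ((Vr r S γ)ᵀ * JR N * Vr r S γ')ᵀ := by
    rw [Matrix.transpose_mul, Matrix.transpose_mul, Matrix.transpose_transpose, JR_symm, Matrix.mul_assoc]
  rw [e, Matrix.det_transpose]
  exact h

theorem one_mem_Zs {R : Reg G} {pd : PD G} {b b' : ℕ → G1} {r : ℕ}
    (hTB : ∀ (f f' : G → ℂ) (c : ℝ), (∀ γ, ‖f γ‖ ≤ 1) → (∀ γ, ‖f' γ‖ ≤ 1) → 0 < c →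
      (∀ γ γ', f γ ≠ 0 → f' γ' ≠ 0 → Opp r S c γ γ') → ∀ φ,
        ContinuousLinearMap.adjoint (Tb μ a E R b') (Mf μ R f (Tb μ a E R b'
          (ContinuousLinearMap.adjoint (Tb μ a E R b) (Mf μ R f' (Tb μ a E R b φ))))) = 0) :
    (1 : G1) ∈ Zs μ a E R pd b b' r S := by
  intro f f' _ _ hf hf' c hc hop φ ψ
  have h1 := hTB (fun γ => (starRingEnd ℂ) (f' γ)) f c (fun γ => by rw [RCLike.norm_conj]; exact hf' γ) hf hc
    (fun γ γ' h h' => (hop γ' γ h' fun h0 => h (by rw [h0, map_zero])).symm) φ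
  rw [vg_one, ContinuousLinearMap.adjoint_inner_right]
  have h2 := Mf_adj (μ := μ) (R := R) (f := fun γ => (starRingEnd ℂ) (f' γ)) (C := 1)
    (fun γ => by rw [RCLike.norm_conj]; exact hf' γ)
    (Tb μ a E R b' (ContinuousLinearMap.adjoint (Tb μ a E R b) (Mf μ R f (Tb μ a E R b φ)))) (Tb μ a E R b' ψ)
  simp only [Complex.conj_conj] at h2
  rw [← h2, ← ContinuousLinearMap.adjoint_inner_left, h1, inner_zero_left]

/-- The big cell of a pair of sequences, in the form of layer BC. -/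
theorem bigC_of {b b' : ℕ → G1} (h : ∀ Z : Set G1, IsClosed Z → 1 ∈ Z → (∀ q ∈ cen b, ∀ z ∈ Z, q * z ∈ Z) →
    (∀ q ∈ Ctr b, ∀ z ∈ Z, q * z ∈ Z) → (∀ q ∈ cen b', ∀ z ∈ Z, z * q ∈ Z) →
    (∀ q ∈ Ctr (fun n => (b' n)⁻¹), ∀ z ∈ Z, z * q ∈ Z) → Z = Set.univ) : BigC (fun n => (b' n)⁻¹) b := by
  intro Z h1 h2 h3 h4 h5 h6 g
  have hc : ∀ q ∈ cen b', q ∈ cen fun n => (b' n)⁻¹ := by
    intro q hq
    rw [mem_cen] at hq ⊢
    intro n
    have h := hq n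
    rw [inv_mul_eq_iff_eq_mul, ← mul_assoc, h, mul_inv_cancel_right]
  have h7 := h Z h1 h2 (fun q hq z hz => h6 z hz q hq) (fun q hq z hz => h5 z hz q hq)
    (fun q hq z hz => h4 z hz q (hc q hq)) fun q hq z hz => h3 z hz q hq
  rw [h7]
  exact Set.mem_univ g

/-- **Matching, points.** -/
theorem mat_pt (hS : SO2 P S) (hP : Prox P 1) (hI : CocI μ a) (hF : FullE E) {U : Set G1} (hE : ErgU μ a E U)
    (h3 : Tendsto (fun g : G1 => μ {x | a.a g x ≠ 1}) (𝓝 1) (𝓝 0)) (hK : Kcont G1 μ) {b b' : ℕ → G1} (hBC : BigC (fun n => (b' n)⁻¹) b)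
    (hTB : ∀ (f f' : G → ℂ) (C c : ℝ), (∀ γ, ‖f γ‖ ≤ C) → (∀ γ, ‖f' γ‖ ≤ C) → 0 < c →
      (∀ γ γ', f γ ≠ 0 → f' γ' ≠ 0 → c ≤ ‖(px S γ * JJ N * px S γ' * JJ N).trace‖) → ∀ φ,
        ContinuousLinearMap.adjoint (Tb μ a E (R1 S) b) (Mf μ (R1 S) f (Tb μ a E (R1 S) b
          (ContinuousLinearMap.adjoint (Tb μ a E (R1 S) fun n => (b' n)⁻¹) (Mf μ (R1 S) f'
            (Tb μ a E (R1 S) (fun n => (b' n)⁻¹) φ))))) = 0) :
    XPpr (R1 S) (vec μ a E b) = 0 ∨ XPpr (R1 S) (vec μ a E fun n => (b' n)⁻¹) = 0 := by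
  by_contra hcon
  rw [not_or] at hcon
  refine hcon.1 (matching hS (chStr S (K1 N) []) (Or.inl rfl) (sep1 S hS.hN) hP hI hF hE h3 hK hBC ?_ hcon.2)
  refine one_mem_Zs fun f f' c hf hf' hc hop φ => hTB f f' 1 (c ^ 2) hf hf' (by positivity) (fun γ γ' h h' => ?_) φ
  rw [op1_eq hS, ← sq_abs (Matrix.det _)]
  exact pow_le_pow_left₀ hc.le (hop γ γ' h h') 2

/-- **Matching, lines.** -/
theorem mat_ln (hS : SO2 P S) (hP : Prox P 2) (hI : CocI μ a) (hF : FullE E) {U : Set G1} (hE : ErgU μ a E U)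
    (h3 : Tendsto (fun g : G1 => μ {x | a.a g x ≠ 1}) (𝓝 1) (𝓝 0)) (hK : Kcont G1 μ) {b b' : ℕ → G1} (hBC : BigC (fun n => (b' n)⁻¹) b)
    (hTB : ∀ (f f' : G → ℂ) (C c : ℝ), (∀ γ, ‖f γ‖ ≤ C) → (∀ γ, ‖f' γ‖ ≤ C) → 0 < c →
      (∀ γ γ', f γ ≠ 0 → f' γ' ≠ 0 →
        c ≤ ‖(pl S γ * JJ N * pl S γ' * JJ N).trace ^ 2 - ((pl S γ * JJ N * pl S γ' * JJ N) ^ 2).trace‖) → ∀ φ,
        ContinuousLinearMap.adjoint (Tb μ a E (R2 S) b) (Mf μ (R2 S) f (Tb μ a E (R2 S) b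
          (ContinuousLinearMap.adjoint (Tb μ a E (R2 S) fun n => (b' n)⁻¹) (Mf μ (R2 S) f'
            (Tb μ a E (R2 S) (fun n => (b' n)⁻¹) φ))))) = 0) :
    XPpr (R2 S) (vec μ a E b) = 0 ∨ XPpr (R2 S) (vec μ a E fun n => (b' n)⁻¹) = 0 := by
  by_contra hcon
  rw [not_or] at hcon
  refine hcon.1 (matching hS (chStr S (K2 N) []) (Or.inr rfl) (sep2 S hS.hN) hP hI hF hE h3 hK hBC ?_ hcon.2)
  refine one_mem_Zs fun f f' c hf hf' hc hop φ => hTB f f' 1 (2 * c ^ 2) hf hf' (by positivity) (fun γ γ' h h' => ?_) φ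
  rw [op2_eq hS, ← sq_abs (Matrix.det _)]
  exact mul_le_mul_of_nonneg_left (pow_le_pow_left₀ hc.le (hop γ γ' h h') 2) zero_le_two

/-- **Lemma F, points off a line** (`c` does not depend on the line). -/
theorem full_pt (hS : SO2 P S) (hP : Prox P 1) (hI : CocI μ a) (hF : FullE E) {U : Set G1} (hE : ErgU μ a E U) {b : ℕ → G1}
    (h0 : XPpr (R1 S) (vec μ a E b) ≠ 0) : ∃ c : ℝ, 0 < c ∧ ∀ (γ0 : G) (Y : XL μ (L2 G) →L[ℂ] XL μ (L2 G)),
      (∀ (g : G1) (φ : XL μ (L2 G)), iUX (R1 S) {γ | c ≤ ns ((1 - pl S γ0) * px S γ)} (Tb μ a E (R1 S) b (Vq μ a E g (Y φ))) = 0) →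
        ∀ φ, Y φ = 0 :=
  ⟨1 / 2, by norm_num, fun γ0 _ hY φ => lemF_pt hS hP hI hF hE h0 (by norm_num) γ0 fun g => hY g φ⟩

/-- **Lemma F, lines off a point** (`c` does not depend on the point). -/
theorem full_ln (hS : SO2 P S) (hP : Prox P 2) (hI : CocI μ a) (hF : FullE E) {U : Set G1} (hE : ErgU μ a E U) {b : ℕ → G1}
    (h0 : XPpr (R2 S) (vec μ a E b) ≠ 0) : ∃ c : ℝ, 0 < c ∧ ∀ (γ0 : G) (Y : XL μ (L2 G) →L[ℂ] XL μ (L2 G)),
      (∀ (g : G1) (φ : XL μ (L2 G)), iUX (R2 S) {γ | c ≤ ns ((1 - pl S γ) * px S γ0)} (Tb μ a E (R2 S) b (Vq μ a E g (Y φ))) = 0) →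
        ∀ φ, Y φ = 0 :=
  ⟨1 / 2, by norm_num, fun γ0 _ hY φ => lemF_ln hS hP hI hF hE h0 (by norm_num) γ0 fun g => hY g φ⟩

end Pool.Agent.Helper43.LF
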