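import Pool.Agent.Helper43.LF.Fin
import Pool.Agent.Helper20.TB.Fin

/-!
# Layer LF: matching for a pair of sequences

`match_pair`: layers TB, BC and LF together: two sequences with the big cell property and regular products are not of the same type.
-/

set_option autoImplicit false
set_option linter.unusedSectionVars false

open MeasureTheory Filter Topology Matrix

namespace Pool.Agent.Helper43.LF

open Pool.Agent.Helper84 Pool.Agent.Helper84.GN Pool.Agent.Helper84.GN.S3 Pool.Agent.Helper84.GN.S3.X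
open Pool.Agent.Helper84.NI Pool.Agent.Helper84.GVN Pool.Agent.Helper90.RK
open Pool.Agent.Helper96.RK hiding toReg
open Pool.Agent.Helper66.FR Pool.Agent.Helper84.FR Pool.Agent.Helper55.FR
open Pool.Agent.Helper78.BM Pool.Agent.Helper55.OB
open Pool.Agent.Helper43.TA (ms ms_tendsto)
open Pool.Agent.Helper20.TB (Reg2 tb_pt tb_ln mass_inv)

variable {G1 X G Λ : Type} [Group G1] [TopologicalSpace G1] [IsTopologicalGroup G1] [MeasurableSpace X] [MulAction G1 X]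
  [MeasurableConstSMul G1 X] [Group G] [Group Λ] [Countable Λ] {μ : Measure X} [SMulInvariantMeasure G1 X μ]
  [IsProbabilityMeasure μ] {a : Cocy G1 X Λ} {E : Emb Λ G} {N : ℕ} {P : PH G N} {S : Sv P}

/-- Regularity of the products, in the form of layer TB. -/
theorem reg2_of {b b' : ℕ → G1} (h : ∀ C ε : ℝ, 0 < ε → ∀ᶠ n in (hyperfilter ℕ : Filter ℕ), ∀ᶠ m in (hyperfilter ℕ : Filter ℕ),
    ‖cl μ (ind ℂ {γ | ∃ i : Fin N, (i : ℕ) < 2 ∧ lg S γ i ≤ C}) (zx μ a E (b n * b' m))‖ ≤ ε) :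
    Reg2 μ a E S b fun n => (b' n)⁻¹ := by
  intro C ε hε
  refine (h C (√ε) (Real.sqrt_pos.2 hε)).mono fun n hn => ?_
  have h1 := ms_tendsto (μ := μ) (a := a) (E := E) {γ | ∃ i : Fin N, (i : ℕ) < 2 ∧ lg S γ i ≤ C} fun m => b n * ((b' m)⁻¹)⁻¹
  refine le_of_tendsto h1 (hn.mono fun m hm => ?_)
  rw [inv_inv]
  calc ‖cl μ (ind ℂ {γ | ∃ i : Fin N, (i : ℕ) < 2 ∧ lg S γ i ≤ C}) (zx μ a E (b n * b' m))‖ ^ 2 ≤ √ε ^ 2 :=
        pow_le_pow_left₀ (norm_nonneg _) hm 2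
    _ = ε := Real.sq_sqrt hε.le

/-- **Matching for a pair of sequences.** -/
theorem match_pair (hS : SO2 P S) (hP : ∀ k, Prox P k) (hI : CocI μ a) (hF : FullE E) {U : Set G1} (hE : ErgU μ a E U)
    (h3 : Tendsto (fun g : G1 => μ {x | a.a g x ≠ 1}) (𝓝 1) (𝓝 0)) (hK : Kcont G1 μ)
    (hF2 : ∀ l : Λ, Tendsto (fun g : G1 => μ {x | a.a g x = l}) (cocompact G1) (𝓝 0)) {b b' : ℕ → G1}
    (hb : Tendsto b (hyperfilter ℕ : Filter ℕ) (cocompact G1)) (hb' : Tendsto b' (hyperfilter ℕ : Filter ℕ) (cocompact G1))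
    (hreg : ∀ C ε : ℝ, 0 < ε → ∀ᶠ n in (hyperfilter ℕ : Filter ℕ), ∀ᶠ m in (hyperfilter ℕ : Filter ℕ),
      ‖cl μ (ind ℂ {γ | ∃ i : Fin N, (i : ℕ) < 2 ∧ lg S γ i ≤ C}) (zx μ a E (b n * b' m))‖ ≤ ε)
    (hBC : BigC (fun n => (b' n)⁻¹) b) :
    (XPpr (R1 S) (vec μ a E b) = 0 ∨ XPpr (R1 S) (vec μ a E b') = 0) ∧
      (XPpr (R2 S) (vec μ a E b) = 0 ∨ XPpr (R2 S) (vec μ a E b') = 0) := by
  have hr := reg2_of hreg
  have hi : Tendsto (fun n => (b' n)⁻¹) (hyperfilter ℕ : Filter ℕ) (cocompact G1) := by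
    refine Tendsto.comp ?_ hb'
    exact (Homeomorph.inv G1).isClosedEmbedding.tendsto_cocompact
  obtain ⟨m1, m2⟩ := mass_inv (μ := μ) (a := a) (E := E) hS b'
  constructor
  · rcases mat_pt hS (hP 1) hI hF hE h3 hK hBC fun f f' C c hf hf' hc hop φ => tb_pt hS hF2 hb hi hr f f' C c hf hf' hc hop φ with h | h
    · exact Or.inl h
    · refine Or.inr (norm_eq_zero.1 ?_)
      rw [← m1, h, norm_zero]
  · rcases mat_ln hS (hP 2) hI hF hE h3 hK hBC fun f f' C c hf hf' hc hop φ => tb_ln hS hF2 hb hi hr f f' C c hf hf' hc hop φ with h | h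
    · exact Or.inl h
    · refine Or.inr (norm_eq_zero.1 ?_)
      rw [← m2, h, norm_zero]

end Pool.Agent.Helper43.LF
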