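import Pool.Agent.Helper43.LF.Defs

/-!
# Layer LF, block LF3: the commutant of the right algebra

`S` a bounded operator of `ℓ²(G)` commuting with all `R_l = jjR E l`, `E` full. Then `S` commutes with the right translations; we need `‖S δ_k‖ = ‖S δ_1‖`. PROOF. Claim: `(S δ_m)(k) = (S δ_1)(k m⁻¹)` for all `k`, `m ∈ G` (then the norms are equal: the
map `k ↦ k m⁻¹` is a bijection; e.g. `S δ_m = rhoU m⁻¹ (S δ_1)`-type identity and `LinearIsometryEquiv.norm_map`, or `permU`).
Fix `k`. Let `η = S δ_1 ∈ ℓ²`, `θ = S* δ_k` (`ContinuousLinearMap.adjoint`), `θ(j) = conj ((S δ_j)(k))`. Let `ζ ∈ ℓ²` be `ζ(m) = conj (η(k m⁻¹))` (a permutation of `η` and conjugation: `cj (permU e η)` for the bijection `e`, see `inner_conv78`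
in `Helper78/BM/Erg.lean`). For `R = R_l`: `⟨θ, R δ_1⟩ = ⟨δ_k, S R δ_1⟩ = ⟨δ_k, R S δ_1⟩ = (R η)(k)`. `R` commutes with the left translations `lamU g` (`(E.conj.comm l).jjU_lam`, see the use in `Tb_cen`, `Helper78/BM/Cen.lean`), so
`(R δ_h)(k) = (lamU h (R δ_1))(k) = (R δ_1)(h⁻¹ k)` and `(R η)(k) = ∑_h η(h) (R δ_h)(k) = ∑_h η(h) (R δ_1)(h⁻¹ k) = ⟨ζ, R δ_1⟩` (`m = h⁻¹ k`, `h = k m⁻¹`; sum: `hasSum_clm` in `Erg.lean`, the `tsum` of the inner product and an `Equiv`).
So `θ - ζ` is orthogonal to all `R_l δ_1 = (E.conj.U l)⁻¹ δ_1 = E.conj.U l⁻¹ δ_1` (`jjR_one`), so `θ = ζ` (`FullE.conj`). At `m`: `conj ((S δ_m)(k)) = conj (η(k m⁻¹))`.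
-/

set_option autoImplicit false
set_option linter.unusedSectionVars false

open MeasureTheory Filter Topology

namespace Pool.Agent.Helper43.LF

open Pool.Agent.Helper84 Pool.Agent.Helper84.GN Pool.Agent.Helper84.GN.S3 Pool.Agent.Helper84.GN.S3.X
open Pool.Agent.Helper84.NI Pool.Agent.Helper84.GVN Pool.Agent.Helper90.RK
open Pool.Agent.Helper96.RK hiding toReg
open Pool.Agent.Helper66.FR Pool.Agent.Helper84.FR Pool.Agent.Helper55.FR
open Pool.Agent.Helper78.BM

variable {G Λ : Type} [Group G] [Group Λ] {E : Emb Λ G}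

private theorem inner_conv63 (v y : L2 G) (e : G ≃ G) :
    HasSum (fun h => y h * v (e.symm h)) (inner ℂ (cj (permU e v)) y) := by
  have h := lp.hasSum_inner (𝕜 := ℂ) (cj (permU e v)) y
  convert! h using 2 with i
  simp

theorem norm_comm_dl (hF : FullE E) (S : L2 G →L[ℂ] L2 G) (hS : ∀ (l : Λ) (f : L2 G), S (jjR E l f) = jjR E l (S f)) (k : G) :
    ‖S (dl k)‖ = ‖S (dl 1)‖ := by
  have hcl : ∀ x m : G, S (dl m) x = S (dl 1) (x * m⁻¹) := by
    intro x m
    let e : G ≃ G :=
      { toFun := fun h => h⁻¹ * x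
        invFun := fun h => x * h⁻¹
        left_inv := fun h => by group
        right_inv := fun h => by group }
    have key : ContinuousLinearMap.adjoint S (dl x) - cj (permU e (S (dl 1))) = 0 := by
      refine hF.conj _ fun l => ?_
      have hy : jjR E l⁻¹ (dl 1) = E.conj.U l (dl 1) := by
        rw [jjR_one, map_inv, inv_inv]
      -- the value at `x`
      have a1 : HasSum (fun h => S (dl 1) h * (E.conj.U l (dl 1) : L2 G) (h⁻¹ * x))
          (jjR E l⁻¹ (S (dl 1)) x) := by
        have h := hasSum_clm ((jjR E l⁻¹).toContinuousLinearEquiv : L2 G →L[ℂ] L2 G) (S (dl 1)) x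
        convert! h using 2 with h
        have h1 : jjR E l⁻¹ (dl h) = lamU h (jjR E l⁻¹ (dl 1)) := by
          have h2 := (E.conj.comm l⁻¹).jjU_lam h (dl 1)
          rw [lamU_dl, mul_one] at h2
          exact h2
        rw [hy] at h1
        have h3 := congrArg (fun f : L2 G => f x) h1
        simp only [lamU_apply] at h3
        exact congrArg _ h3.symm
      have b1 := inner_conv63 (S (dl 1)) (E.conj.U l (dl 1)) e
      have c1 : inner ℂ (cj (permU e (S (dl 1)))) (E.conj.U l (dl 1)) = jjR E l⁻¹ (S (dl 1)) x := by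
        have h1 := (Equiv.hasSum_iff e).2 b1
        refine h1.unique ?_
        convert! a1 using 2 with h
        simp [e, mul_comm]
      have c2 : inner ℂ (ContinuousLinearMap.adjoint S (dl x)) (E.conj.U l (dl 1)) =
          jjR E l⁻¹ (S (dl 1)) x := by
        rw [ContinuousLinearMap.adjoint_inner_left, inner_dl_left, ← hy, hS]
      have c3 : (inner ℂ (ContinuousLinearMap.adjoint S (dl x) - cj (permU e (S (dl 1))))
          (E.conj.U l (dl 1)) : ℂ) = 0 := by
        rw [inner_sub_left, c1, c2, sub_self]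
      rw [← inner_conj_symm, c3, map_zero]
    have h1 : ContinuousLinearMap.adjoint S (dl x) m = cj (permU e (S (dl 1))) m := by
      rw [sub_eq_zero.1 key]
    have h2 : ContinuousLinearMap.adjoint S (dl x) m = (starRingEnd ℂ) (S (dl m) x) := by
      rw [← inner_dl_left, ContinuousLinearMap.adjoint_inner_right, inner_dl_right]
    rw [h2] at h1
    simp only [cj_apply, permU_apply] at h1
    exact (starRingEnd ℂ).injective h1
  have h : S (dl k) = rhoU k⁻¹ (S (dl 1)) := by
    apply l2_ext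
    intro x
    rw [rhoU_apply]
    exact hcl x k
  rw [h, LinearIsometryEquiv.norm_map]

end Pool.Agent.Helper43.LF
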