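import Pool.Agent.Helper43.LF.LMb
import Pool.Agent.Helper43.LF.LMc

/-!
# Layer LF, block LF4: the trace property

`Y` commutes with `xE D` and `V_g`. `lm`: `‖Y (cst δ_k)‖ = ‖Y (cst δ_1)‖`. PROOF: by `exists_cst` choose for every `w` a vector `Y0 w` with `Y (cst (R_m w)) = cst (R_m (Y0 w))` for all `m`; `m = 1`: `Y (cst w) = cst (Y0 w)`; `cst` is a linear isometry, so `Y0` is
linear and bounded (`Y0 = (adjoint of cst) ∘ Y ∘ cst`: define `Y0` like this and check `cst (Y0 w) = Y (cst w)`), and `Y0 (R_m w) = R_m (Y0 w)` by injectivity of `cst`. Apply `norm_comm_dl`.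
`lm_zero`: if `Y (cst δ_1) = 0` then `Y (cst δ_k) = 0` for all `k`, `Y (xE s (cst δ_k)) = xE s 0 = 0`, so `Y = 0` (`xl_clm_ext`, used in `Tb_cen`).
-/

set_option autoImplicit false
set_option linter.unusedSectionVars false

open MeasureTheory Filter Topology

namespace Pool.Agent.Helper43.LF

open Pool.Agent.Helper84 Pool.Agent.Helper84.GN Pool.Agent.Helper84.GN.S3 Pool.Agent.Helper84.GN.S3.X
open Pool.Agent.Helper84.NI Pool.Agent.Helper84.GVN Pool.Agent.Helper90.RK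
open Pool.Agent.Helper96.RK hiding toReg
open Pool.Agent.Helper66.FR Pool.Agent.Helper84.FR Pool.Agent.Helper55.FR
open Pool.Agent.Helper78.BM

variable {G1 X G Λ : Type} [Group G1] [MeasurableSpace X] [MulAction G1 X]
  [MeasurableConstSMul G1 X] [Group G] [Group Λ] [Countable Λ] {μ : Measure X} [SMulInvariantMeasure G1 X μ]
  [IsProbabilityMeasure μ] {a : Cocy G1 X Λ} {E : Emb Λ G}

theorem lm (hI : CocI μ a) (hF : FullE E) {Y : XL μ (L2 G) →L[ℂ] XL μ (L2 G)}
    (hD : ∀ D : Set X, MeasurableSet D → ∀ φ, Y (xE μ (L2 G) D φ) = xE μ (L2 G) D (Y φ))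
    (hV : ∀ (g : G1) φ, Y (Vq μ a E g φ) = Vq μ a E g (Y φ)) (k : G) :
    ‖Y (cst μ (dl k))‖ = ‖Y (cst μ (dl 1))‖ := by
  choose Y0 hY0 using fun w => exists_cst (E := E) hI hD hV w
  have h1 : ∀ w, Y (cst μ w) = cst μ (Y0 w) := fun w => by
    have h := hY0 w 1
    rwa [map_one, LinearIsometryEquiv.coe_one, id, id] at h
  let C : L2 G →L[ℂ] XL μ (L2 G) := (cst μ).toContinuousLinearMap
  have hC : ∀ v : L2 G, ContinuousLinearMap.adjoint C (cst μ v) = v := by
    intro v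
    refine ext_inner_left ℂ fun u => ?_
    rw [ContinuousLinearMap.adjoint_inner_right]
    exact (cst μ).inner_map_map u v
  let S : L2 G →L[ℂ] L2 G := (ContinuousLinearMap.adjoint C).comp (Y.comp C)
  have hS : ∀ w, S w = Y0 w := fun w => by
    change ContinuousLinearMap.adjoint C (Y (cst μ w)) = _
    rw [h1, hC]
  have hS' : ∀ (l : Λ) (f : L2 G), S (jjR E l f) = jjR E l (S f) := fun l f => by
    rw [hS f]
    change ContinuousLinearMap.adjoint C (Y (cst μ (jjR E l f))) = _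
    rw [hY0, hC]
  have h2 := norm_comm_dl hF S hS' k
  rw [h1, h1, LinearIsometry.norm_map, LinearIsometry.norm_map, ← hS, ← hS]
  exact h2

theorem lm_zero (hI : CocI μ a) (hF : FullE E) {Y : XL μ (L2 G) →L[ℂ] XL μ (L2 G)}
    (hD : ∀ D : Set X, MeasurableSet D → ∀ φ, Y (xE μ (L2 G) D φ) = xE μ (L2 G) D (Y φ))
    (hV : ∀ (g : G1) φ, Y (Vq μ a E g φ) = Vq μ a E g (Y φ)) (h0 : Y (cst μ (dl 1)) = 0) (φ : XL μ (L2 G)) :
    Y φ = 0 := by
  have h1 : ∀ k : G, Y (cst μ (dl k)) = 0 := fun k => by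
    rw [← norm_eq_zero, lm hI hF hD hV k, h0, norm_zero]
  have h2 : Y = 0 := by
    refine xl_clm_ext fun s hs k => ?_
    rw [hD s hs, h1 k, map_zero]
    rfl
  rw [h2]
  rfl

end Pool.Agent.Helper43.LF
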