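import Pool.Agent.Helper43.LF.Defs

/-!
# Layer LF, block LF2: the operators commuting with the base and the right algebra are constant fields

Let `Y` commute with `xE D` and `V_g = vg μ a (jjR E) g`. PROOF that `Y (1 ⊗ w) = 1 ⊗ c`, `Y (1 ⊗ R_m w) = 1 ⊗ R_m c` (`R = jjR E`).
1. For all `g` and `w`: for almost all `x`: `Y (cst (R_(a(g,x)) w)) (g • x) = R_(a(g,x)) (Y (cst w) x)`. Indeed `V_g (cst w) y = R_(a(g, g⁻¹y)) w` (`vg_apply`, `cst_apply`); for `l : Λ` and `D_l = {y | a(g, g⁻¹y) = l}` (measurable) one has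
`xE D_l (V_g (cst w)) = xE D_l (cst (R_l w))`; apply `Y`: `xE D_l (V_g (Y (cst w))) = xE D_l (Y (cst (R_l w)))`. So for almost all `y ∈ D_l` (all `l`, `Λ` is countable): `R_l (Y (cst w) (g⁻¹y)) = Y (cst (R_l w)) y` with `l = a(g, g⁻¹y)`; put `y = g • x`
(quasi measure preserving). (See `comm_fld` in `Helper78/BM/Erg.lean` for the style.)
2. `φ m x = R_m⁻¹ (Y (cst (R_m w)) x)` (choose the strongly measurable representative of the element of `Lp`: `Lp.stronglyMeasurable`; the composition with a continuous map is strongly measurable). By 1 with `R_(l⁻¹ m) w`, `l = a(g, x)` (for all `m`, countable):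
`φ m (g • x) = R_m⁻¹ (Y (cst (R_l R_(l⁻¹ m) w)) (g • x)) = R_m⁻¹ R_l (Y (cst (R_(l⁻¹m) w)) x) = R_(l⁻¹ m)⁻¹ (Y (cst (R_(l⁻¹m) w)) x) = φ (l⁻¹ m) x`. By `CocI` there is `c` with `φ m x = c` for almost all `x`, all `m`.
So `Y (cst (R_m w)) x = R_m c` almost everywhere: `Y (cst (R_m w)) = cst (R_m c)` (`xl_ext`, `cst_apply`).
-/

set_option autoImplicit false
set_option linter.unusedSectionVars false

open MeasureTheory Filter Topology

namespace Pool.Agent.Helper43.LF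

open Pool.Agent.Helper84 Pool.Agent.Helper84.GN Pool.Agent.Helper84.GN.S3 Pool.Agent.Helper84.GN.S3.X
open Pool.Agent.Helper84.NI Pool.Agent.Helper84.GVN Pool.Agent.Helper90.RK
open Pool.Agent.Helper96.RK hiding toReg
open Pool.Agent.Helper66.FR Pool.Agent.Helper84.FR Pool.Agent.Helper55.FR
open Pool.Agent.Helper78.BM

variable {G1 X G Λ : Type} [Group G1] [MeasurableSpace X] [MulAction G1 X]
  [MeasurableConstSMul G1 X] [Group G] [Group Λ] [Countable Λ] {μ : Measure X} [SMulInvariantMeasure G1 X μ]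
  [IsProbabilityMeasure μ] {a : Cocy G1 X Λ} {E : Emb Λ G}

private theorem step26 {Y : XL μ (L2 G) →L[ℂ] XL μ (L2 G)}
    (hD : ∀ D : Set X, MeasurableSet D → ∀ φ, Y (xE μ (L2 G) D φ) = xE μ (L2 G) D (Y φ))
    (hV : ∀ (g : G1) φ, Y (Vq μ a E g φ) = Vq μ a E g (Y φ)) (g : G1) (w : L2 G) :
    ∀ᵐ x ∂μ, Y (cst μ (jjR E (a.a g x) w)) (g • x) = jjR E (a.a g x) (Y (cst μ w) x) := by
  have hm : ∀ l : Λ, MeasurableSet {y : X | a.a g (g⁻¹ • y) = l} := fun l =>
    (measurable_const_smul g⁻¹) (a.meas g l)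
  have h1 : ∀ l : Λ, xE μ (L2 G) {y | a.a g (g⁻¹ • y) = l} (Vq μ a E g (cst μ w)) =
      xE μ (L2 G) {y | a.a g (g⁻¹ • y) = l} (cst μ (jjR E l w)) := by
    intro l
    refine xl_ext ?_
    filter_upwards [xE_apply (hm l) (Vq μ a E g (cst μ w)), xE_apply (hm l) (cst μ (jjR E l w) : XL μ (L2 G)),
      vg_apply a (jjR E) g (cst μ w : XL μ (L2 G)), cst_apply (μ := μ) (jjR E l w),
      (measurePreserving_smul g⁻¹ μ).quasiMeasurePreserving.ae (cst_apply (μ := μ) (w : L2 G))] with y e1 e2 e3 e4 e5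
    rw [e1, e2, e4]
    by_cases hy : y ∈ {y : X | a.a g (g⁻¹ • y) = l}
    · have hy' : a.a g (g⁻¹ • y) = l := hy
      have e6 : Vq μ a E g (cst μ w) y = jjR E l w := by
        change vg μ a (jjR E) g (cst μ w) y = _
        rw [e3, hy', e5]
      rw [e6]
    · rw [Set.indicator_of_notMem hy, zero_smul, zero_smul]
  have h2 : ∀ᵐ y ∂μ, ∀ l : Λ, a.a g (g⁻¹ • y) = l →
      Y (cst μ (jjR E l w)) y = jjR E l (Y (cst μ w) (g⁻¹ • y)) := by
    rw [ae_all_iff]
    intro l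
    have h3 : xE μ (L2 G) {y | a.a g (g⁻¹ • y) = l} (Vq μ a E g (Y (cst μ w))) =
        xE μ (L2 G) {y | a.a g (g⁻¹ • y) = l} (Y (cst μ (jjR E l w))) := by
      rw [← hV, ← hD _ (hm l), ← hD _ (hm l), h1]
    filter_upwards [xE_apply (hm l) (Vq μ a E g (Y (cst μ w))), xE_apply (hm l) (Y (cst μ (jjR E l w))),
      vg_apply a (jjR E) g (Y (cst μ w))] with y e1 e2 e3 hy
    have e : ({y : X | a.a g (g⁻¹ • y) = l}.indicator (fun _ => (1 : ℂ)) y) = 1 :=
      Set.indicator_of_mem (show y ∈ {y : X | a.a g (g⁻¹ • y) = l} from hy) _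
    rw [e, one_smul] at e1 e2
    have e4 : vg μ a (jjR E) g (Y (cst μ w)) y = Y (cst μ (jjR E l w)) y := by
      rw [← e2, ← h3, e1]
    rw [← e4, e3, hy]
  have h4 := (measurePreserving_smul g μ).quasiMeasurePreserving.ae h2
  filter_upwards [h4] with x hx
  have h5 := hx (a.a g x) (by rw [inv_smul_smul])
  rw [inv_smul_smul] at h5
  exact h5

theorem exists_cst (hI : CocI μ a) {Y : XL μ (L2 G) →L[ℂ] XL μ (L2 G)}
    (hD : ∀ D : Set X, MeasurableSet D → ∀ φ, Y (xE μ (L2 G) D φ) = xE μ (L2 G) D (Y φ))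
    (hV : ∀ (g : G1) φ, Y (Vq μ a E g φ) = Vq μ a E g (Y φ)) (w : L2 G) :
    ∃ c : L2 G, ∀ m : Λ, Y (cst μ (jjR E m w)) = cst μ (jjR E m c) := by
  obtain ⟨c, hc⟩ := hI (L2 G) inferInstance inferInstance (fun m x => jjR E m⁻¹ (Y (cst μ (jjR E m w)) x))
    (fun m => (jjR E m⁻¹).continuous.comp_stronglyMeasurable (Lp.stronglyMeasurable _)) (fun g => by
      have h1 : ∀ᵐ x ∂μ, ∀ n : Λ, Y (cst μ (jjR E (a.a g x) (jjR E n w))) (g • x) =
          jjR E (a.a g x) (Y (cst μ (jjR E n w)) x) := by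
        rw [ae_all_iff]
        exact fun n => step26 hD hV g (jjR E n w)
      filter_upwards [h1] with x hx m
      have h2 := hx ((a.a g x)⁻¹ * m)
      have h3 : jjR E (a.a g x) (jjR E ((a.a g x)⁻¹ * m) w) = jjR E m w := by
        change (jjR E (a.a g x) * jjR E ((a.a g x)⁻¹ * m)) w = _
        rw [← map_mul, mul_inv_cancel_left]
      rw [h3] at h2
      rw [h2]
      change (jjR E m⁻¹ * jjR E (a.a g x)) _ = _
      rw [← map_mul]
      congr 2
      rw [mul_inv_rev, inv_inv])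
  refine ⟨c, fun m => xl_ext ?_⟩
  filter_upwards [hc, cst_apply (μ := μ) (jjR E m c)] with x h1 h2
  rw [h2, ← h1 m]
  change _ = (jjR E m * jjR E m⁻¹) _
  rw [← map_mul, mul_inv_cancel, map_one]
  rfl

end Pool.Agent.Helper43.LF
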