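import Pool.Agent.Helper43.LF.Defs

/-!
# Layer LF, block LF16: the set `Zs` is closed and stable

PROOFS. `isClosed_Zs`: intersection of the closed sets `{g | inner (Vq g x) y = 0}`: `g ↦ Vq g x = vgR μ a (jjR E) g x` is continuous (`contVec_vg` and `tendsto_contVec`, `Helper78/BM/Erg.lean`).
Let `Φ = T* f T` for `b`, `Φ' = T'* f' T'` for `b'`. Right multiplication by `q ∈ Ctr b`: `V_(g q) Φ φ = V_g V_q Φ φ = V_g Φ (V_q φ)` (`adj_contr`, `vg_mul`). By `q ∈ cen b`: the same with `Φ (V_q φ) = V_q (Φ φ)`: `adj_comm` with `u = Vq q`, `s = oL q`, `M = M' = Mf f`: `Tb_cen`, `oL_Mf` (`AV.of_uc`), and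
`inner (oL q x) (oL q y) = inner x y`: by `opL_adj` (`Helper84/FR/SG.lean` and `Helper66/FR/Tw.lean`): `inner (opL h ξ) η = inner ξ (opL h⁻¹ η)`, `opL_mul`, `opL_one` (`opL 1 ξ = U 1 ξ`; for `U = CRep.ext (XAU R) E` the operator `U 1` is the identity). (See also `adj_cen`, `adj_oL_Mf` in `Helper45/DC/Trans.lean`.)
Left multiplication by `q ∈ Ctr b'` or `cen b'`: `inner (V_(q g) x) (Φ' ψ) = inner (V_g x) (V_q⁻¹ Φ' ψ) = inner (V_g x) (Φ' (V_q⁻¹ ψ))`; `q⁻¹ ∈ Ctr b'` (`b q⁻¹ b⁻¹ = (b q b⁻¹)⁻¹ → 1`), `q⁻¹ ∈ cen b'`; unitarity: `inner_Vq`, `Vq_inv`.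
-/

set_option autoImplicit false
set_option linter.unusedSectionVars false

open MeasureTheory Filter Topology

namespace Pool.Agent.Helper43.LF

open Pool.Agent.Helper84 Pool.Agent.Helper84.GN Pool.Agent.Helper84.GN.S3 Pool.Agent.Helper84.GN.S3.X
open Pool.Agent.Helper84.NI Pool.Agent.Helper84.GVN Pool.Agent.Helper90.RK
open Pool.Agent.Helper96.RK hiding toReg
open Pool.Agent.Helper66.FR Pool.Agent.Helper84.FR Pool.Agent.Helper55.FR
open Pool.Agent.Helper78.BM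

variable {G1 X G Λ : Type} [Group G1] [TopologicalSpace G1] [IsTopologicalGroup G1] [MeasurableSpace X] [MulAction G1 X]
  [MeasurableConstSMul G1 X] [Group G] [Group Λ] [Countable Λ] {μ : Measure X} [SMulInvariantMeasure G1 X μ]
  [IsProbabilityMeasure μ] {a : Cocy G1 X Λ} {E : Emb Λ G} {R : Reg G} {pd : PD G} {b b' : ℕ → G1} {N : ℕ} {P : PH G N}
  {S : Sv P} {r : ℕ}

private theorem inner_Vq_left27 (q : G1) (φ ψ : XL μ (L2 G)) :
    inner ℂ (Vq μ a E q φ) ψ = inner ℂ φ (Vq μ a E q⁻¹ ψ) := by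
  rw [← inner_Vq (a := a) (E := E) q φ (Vq μ a E q⁻¹ ψ), Vq_inv']

/-- `oL q` is isometric on the range of `Tb`. -/
private theorem oL_iso27 (q : cen b) (z : XL μ (L2 G)) (w : XUa μ R) :
    inner ℂ (oL μ a E R b q (Tb μ a E R b z)) (oL μ a E R b q w) = inner ℂ (Tb μ a E R b z) w := by
  have hU : UHom (xmUa μ b R) (CRep.ext (XAU R) E) := uhomU
  have h1 : oL μ a E R b 1 (Tb μ a E R b z) = Tb μ a E R b z := by
    rw [← Tb_cen]
    change Tb μ a E R b (Vq μ a E (1 : G1) z) = _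
    rw [vg_one]
  have h2 : oL μ a E R b q⁻¹ (oL μ a E R b q w) = oL μ a E R b 1 w := by
    have h := opL_mul (xmUa μ b R) (cres a (cen b)) hU q⁻¹ q w
    rw [inv_mul_cancel] at h
    exact h.symm
  have h3 : inner ℂ (oL μ a E R b q (Tb μ a E R b z)) (oL μ a E R b q w) =
      inner ℂ (Tb μ a E R b z) (oL μ a E R b q⁻¹ (oL μ a E R b q w)) :=
    opL_adj (xmUa μ b R) (cres a (cen b)) hU q _ _
  have h4 : inner ℂ (oL μ a E R b 1 (Tb μ a E R b z)) w = inner ℂ (Tb μ a E R b z) (oL μ a E R b 1⁻¹ w) :=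
    opL_adj (xmUa μ b R) (cres a (cen b)) hU 1 _ _
  rw [h3, h2, ← h1]
  conv_rhs => rw [h1, ← h1, h4, inv_one]
  rw [h1]

private theorem adj_cen27 (hP : PLf R pd) {f : G → ℂ} (hf : AV R pd f) (q : cen b) (φ : XL μ (L2 G)) :
    ContinuousLinearMap.adjoint (Tb μ a E R b) (Mf μ R f (Tb μ a E R b (Vq μ a E (q : G1) φ))) =
      Vq μ a E (q : G1) (ContinuousLinearMap.adjoint (Tb μ a E R b) (Mf μ R f (Tb μ a E R b φ))) := by
  refine ext_inner_left ℂ fun y => ?_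
  obtain ⟨z, rfl⟩ : ∃ z, Vq μ a E (q : G1) z = y := ⟨Vq μ a E (q : G1)⁻¹ y, Vq_inv' _ y⟩
  rw [ContinuousLinearMap.adjoint_inner_right, Tb_cen, Tb_cen, ← oL_Mf hP hf, oL_iso27, inner_Vq,
    ContinuousLinearMap.adjoint_inner_right]

private theorem inv_ctr27 {q : G1} (hq : q ∈ Ctr b) : q⁻¹ ∈ Ctr b := by
  have h : Tendsto (fun n => b n * q * (b n)⁻¹) (hyperfilter ℕ : Filter ℕ) (𝓝 1) := hq
  have h1 := h.inv
  rw [inv_one] at h1
  change Tendsto (fun n => b n * q⁻¹ * (b n)⁻¹) (hyperfilter ℕ : Filter ℕ) (𝓝 1)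
  refine h1.congr fun n => ?_
  group

theorem isClosed_Zs (h3 : Tendsto (fun g : G1 => μ {x | a.a g x ≠ 1}) (𝓝 1) (𝓝 0)) (hK : Kcont G1 μ) :
    IsClosed (Zs μ a E R pd b b' r S) := by
  have hc : ∀ φ : XL μ (L2 G), Continuous fun g : G1 => Vq μ a E g φ := by
    intro φ
    rw [continuous_iff_continuousAt]
    intro g
    exact tendsto_contVec (contVec_vg (a := a) h3 hK (jjR E) φ) g
  unfold Zs
  simp only [Set.ofPred_forall]
  refine isClosed_iInter fun f => isClosed_iInter fun f' => isClosed_iInter fun _ => isClosed_iInter fun _ =>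
    isClosed_iInter fun _ => isClosed_iInter fun _ => isClosed_iInter fun c => isClosed_iInter fun _ =>
    isClosed_iInter fun _ => isClosed_iInter fun φ => isClosed_iInter fun ψ => ?_
  exact isClosed_eq ((hc _).inner continuous_const) continuous_const

theorem Zs_ctr (h3 : Tendsto (fun g : G1 => μ {x | a.a g x ≠ 1}) (𝓝 1) (𝓝 0)) {g q : G1}
    (hg : g ∈ Zs μ a E R pd b b' r S) (hq : q ∈ Ctr b) : g * q ∈ Zs μ a E R pd b b' r S := by
  intro f f' hf hf' h1 h1' c hc hO φ ψ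
  have e : Vq μ a E (g * q) (ContinuousLinearMap.adjoint (Tb μ a E R b) (Mf μ R f (Tb μ a E R b φ))) =
      Vq μ a E g (ContinuousLinearMap.adjoint (Tb μ a E R b) (Mf μ R f (Tb μ a E R b (Vq μ a E q φ)))) := by
    rw [vg_mul, adj_contr h3 f hq φ]
  rw [e]
  exact hg f f' hf hf' h1 h1' c hc hO (Vq μ a E q φ) ψ

theorem Zs_cen (hP : PLf R pd) {g q : G1} (hg : g ∈ Zs μ a E R pd b b' r S) (hq : q ∈ cen b) :
    g * q ∈ Zs μ a E R pd b b' r S := by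
  intro f f' hf hf' h1 h1' c hc hO φ ψ
  have e : Vq μ a E (g * q) (ContinuousLinearMap.adjoint (Tb μ a E R b) (Mf μ R f (Tb μ a E R b φ))) =
      Vq μ a E g (ContinuousLinearMap.adjoint (Tb μ a E R b) (Mf μ R f (Tb μ a E R b (Vq μ a E q φ)))) := by
    rw [vg_mul, adj_cen27 hP (AV.of_uc hf h1) ⟨q, hq⟩ φ]
  rw [e]
  exact hg f f' hf hf' h1 h1' c hc hO (Vq μ a E q φ) ψ

theorem Zs_ctr' (h3 : Tendsto (fun g : G1 => μ {x | a.a g x ≠ 1}) (𝓝 1) (𝓝 0)) {g q : G1}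
    (hg : g ∈ Zs μ a E R pd b b' r S) (hq : q ∈ Ctr b') : q * g ∈ Zs μ a E R pd b b' r S := by
  intro f f' hf hf' h1 h1' c hc hO φ ψ
  have e : Vq μ a E q⁻¹ (ContinuousLinearMap.adjoint (Tb μ a E R b') (Mf μ R f' (Tb μ a E R b' ψ))) =
      ContinuousLinearMap.adjoint (Tb μ a E R b') (Mf μ R f' (Tb μ a E R b' (Vq μ a E q⁻¹ ψ))) :=
    (adj_contr h3 f' (inv_ctr27 hq) ψ).symm
  rw [vg_mul, inner_Vq_left27, e]
  exact hg f f' hf hf' h1 h1' c hc hO φ (Vq μ a E q⁻¹ ψ)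

theorem Zs_cen' (hP : PLf R pd) {g q : G1} (hg : g ∈ Zs μ a E R pd b b' r S) (hq : q ∈ cen b') :
    q * g ∈ Zs μ a E R pd b b' r S := by
  intro f f' hf hf' h1 h1' c hc hO φ ψ
  have e : Vq μ a E q⁻¹ (ContinuousLinearMap.adjoint (Tb μ a E R b') (Mf μ R f' (Tb μ a E R b' ψ))) =
      ContinuousLinearMap.adjoint (Tb μ a E R b') (Mf μ R f' (Tb μ a E R b' (Vq μ a E q⁻¹ ψ))) :=
    (adj_cen27 hP (AV.of_uc hf' h1') ⟨q⁻¹, (cen b').inv_mem hq⟩ ψ).symm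
  rw [vg_mul, inner_Vq_left27, e]
  exact hg f f' hf hf' h1 h1' c hc hO φ (Vq μ a E q⁻¹ ψ)

end Pool.Agent.Helper43.LF
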