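import Pool.Agent.Helper43.LF.FA
import Pool.Agent.Helper43.LF.Zst
import Pool.Agent.Helper43.LF.Bmp

/-!
# Layer LF, block LF17: matching

`BigC b b'`: the big cell property (layer BC). `matching`. PROOF. `Zs` contains `1` (`hTB`, layer TB), is closed and stable (block LF16, `plf_pos`), so it is everything. Suppose `XPpr R (vec b) ≠ 0` and `XPpr R (vec b') ≠ 0`, `R = toReg T`. Let `ρ` be as in `opp_balls`. Let `q ∈ FrR N r`, `h` the bump (`exists_bump`) of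
`Bl S (J q) ρ`, `h'` the bump of `Bl S q ρ`: `f = h²`, `f' = h'²` are opposite with constant `1/2` (`UC.mul`). Let `η = T'* f' T' ψ`. For all `g`, `φ`: `inner (V_g T* f T φ) η = 0`; replace `g` by `g⁻¹`: `inner (T* f T φ) (V_g η) = 0` (`inner_Vq`, `Vq_inv'`), with `φ = V_g η`: `0 = inner (T* f T V_g η) (V_g η)
= inner (Mf f (T V_g η)) (T V_g η) = ‖Mf h (T V_g η)‖²` (`Mf_mul`, `Mf_adj`, `h` real), so `iUX (Bl S (J q) (ρ/2)) (T V_g η) = 0` (`1_A = 1_A h`, `Mf_ind`, `Mf_mul`) for all `g`: `η ∈ NA b (Bl S (J q) (ρ/2))`, so `η = 0` by `lemF` (mass of `b`). So `T'* f' T' ψ = 0` for all `ψ`, `‖Mf h' (T' ψ)‖² = inner (T' ψ) (Mf f' (T' ψ)) = 0`,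
so `iUX (Bl S q (ρ/2)) (T' ψ) = 0` for all `q ∈ FrR`; `cover_fr` (`ρ q = ρ/2`) and `cover_zero`: `T' ψ = 0`; `ψ = cst δ_1`: `XPpr R (vec b') = 0` (`Tb_one`).
-/

set_option autoImplicit false
set_option linter.unusedSectionVars false

open MeasureTheory Filter Topology Matrix

namespace Pool.Agent.Helper43.LF

open Pool.Agent.Helper84 Pool.Agent.Helper84.GN Pool.Agent.Helper84.GN.S3 Pool.Agent.Helper84.GN.S3.X
open Pool.Agent.Helper84.NI Pool.Agent.Helper84.GVN Pool.Agent.Helper90.RK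
open Pool.Agent.Helper96.RK hiding toReg
open Pool.Agent.Helper66.FR Pool.Agent.Helper84.FR Pool.Agent.Helper55.FR
open Pool.Agent.Helper78.BM Pool.Agent.Helper55.OB

variable {G1 X G Λ : Type} [Group G1] [TopologicalSpace G1] [IsTopologicalGroup G1] [MeasurableSpace X] [MulAction G1 X]
  [MeasurableConstSMul G1 X] [Group G] [Group Λ] [Countable Λ] {μ : Measure X} [SMulInvariantMeasure G1 X μ]
  [IsProbabilityMeasure μ] {a : Cocy G1 X Λ} {E : Emb Λ G} {b b' : ℕ → G1} {N : ℕ} {P : PH G N} {S : Sv P}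

/-- The big cell property: closed sets stable under the parabolic groups on both sides are everything. -/
def BigC (b b' : ℕ → G1) : Prop := ∀ Z : Set G1, IsClosed Z → 1 ∈ Z → (∀ g ∈ Z, ∀ q ∈ Ctr b, g * q ∈ Z) →
  (∀ g ∈ Z, ∀ q ∈ cen b, g * q ∈ Z) → (∀ g ∈ Z, ∀ q ∈ Ctr b', q * g ∈ Z) → (∀ g ∈ Z, ∀ q ∈ cen b', q * g ∈ Z) →
  ∀ g, g ∈ Z

omit [Group Λ] [Countable Λ] [TopologicalSpace G1] [IsTopologicalGroup G1] [MeasurableConstSMul G1 X] [MulAction G1 X] [Group G1]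
  [SMulInvariantMeasure G1 X μ] [IsProbabilityMeasure μ] in
private theorem bump_inner17 {R : Reg G} {h : G → ℝ} (h01 : ∀ γ, 0 ≤ h γ ∧ h γ ≤ 1) (y : XUa μ R) :
    inner ℂ (Mf μ R (fun γ => (h γ : ℂ) * (h γ : ℂ)) y) y =
      (inner ℂ (Mf μ R (fun γ => (h γ : ℂ)) y) (Mf μ R (fun γ => (h γ : ℂ)) y) : ℂ) := by
  have hb : ∀ γ, ‖(h γ : ℂ)‖ ≤ 1 := fun γ => by
    rw [Complex.norm_real, Real.norm_eq_abs, abs_of_nonneg (h01 γ).1]
    exact (h01 γ).2
  rw [← Mf_mul hb hb, Mf_adj hb]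
  simp only [Complex.conj_ofReal]

private theorem bump_ball17 {R : Reg G} {h : G → ℝ} (h01 : ∀ γ, 0 ≤ h γ ∧ h γ ≤ 1) {A : Set G}
    (hA : ∀ γ ∈ A, h γ = 1) {y : XUa μ R}
    (hy : (inner ℂ (Mf μ R (fun γ => (h γ : ℂ) * (h γ : ℂ)) y) y : ℂ) = 0) : iUX R A y = 0 := by
  classical
  have hb : ∀ γ, ‖(h γ : ℂ)‖ ≤ 1 := fun γ => by
    rw [Complex.norm_real, Real.norm_eq_abs, abs_of_nonneg (h01 γ).1]
    exact (h01 γ).2
  rw [bump_inner17 h01, inner_self_eq_zero] at hy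
  have hi : ∀ γ, ‖A.indicator (fun _ => (1 : ℂ)) γ‖ ≤ 1 := fun γ => by
    unfold Set.indicator
    split_ifs <;> simp
  have e : (A.indicator fun _ => (1 : ℂ)) = fun γ => A.indicator (fun _ => (1 : ℂ)) γ * (h γ : ℂ) := by
    funext γ
    unfold Set.indicator
    split_ifs with h1
    · rw [hA γ h1]
      simp
    · simp
  rw [Mf_ind, e, ← Mf_mul hi hb, hy, map_zero]

/-- **Matching.** -/
theorem matching (hS : SO2 P S) (T : Str S) {r : ℕ} (hr : r = 1 ∨ r = 2) (hT : Sep T r) (hP : Prox P r)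
    (hI : CocI μ a) (hF : FullE E) {U : Set G1} (hE : ErgU μ a E U)
    (h3 : Tendsto (fun g : G1 => μ {x | a.a g x ≠ 1}) (𝓝 1) (𝓝 0)) (hK : Kcont G1 μ) (hBC : BigC b b')
    (hTB : (1 : G1) ∈ Zs μ a E (GN.toReg T) (posPD S T.b) b b' r S)
    (h0 : XPpr (GN.toReg T) (vec μ a E b) ≠ 0) : XPpr (GN.toReg T) (vec μ a E b') = 0 := by
  obtain ⟨ρ, hρ, hopp⟩ := opp_balls hS hr
  have hZ : ∀ g, g ∈ Zs μ a E (GN.toReg T) (posPD S T.b) b b' r S :=
    hBC _ (isClosed_Zs h3 hK) hTB (fun g hg q hq => Zs_ctr h3 hg hq) (fun g hg q hq => Zs_cen (plf_pos T) hg hq)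
      (fun g hg q hq => Zs_ctr' h3 hg hq) (fun g hg q hq => Zs_cen' (plf_pos T) hg hq)
  have key : ∀ q ∈ FrR N r, ∀ ψ : XL μ (L2 G),
      iUX (GN.toReg T) (Bl S q (ρ / 2)) (Tb μ a E (GN.toReg T) b' ψ) = 0 := by
    intro q hq ψ
    obtain ⟨h, h01, h1, hs, huc⟩ := exists_bump hS T hr hT (J_mem hS.hN hq) hρ
    obtain ⟨h', h01', h1', hs', huc'⟩ := exists_bump hS T hr hT hq hρ
    have hb : ∀ γ, ‖(h γ : ℂ)‖ ≤ 1 := fun γ => by
      rw [Complex.norm_real, Real.norm_eq_abs, abs_of_nonneg (h01 γ).1]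
      exact (h01 γ).2
    have hb' : ∀ γ, ‖(h' γ : ℂ)‖ ≤ 1 := fun γ => by
      rw [Complex.norm_real, Real.norm_eq_abs, abs_of_nonneg (h01' γ).1]
      exact (h01' γ).2
    have hη : ContinuousLinearMap.adjoint (Tb μ a E (GN.toReg T) b')
        (Mf μ (GN.toReg T) (fun γ => (h' γ : ℂ) * (h' γ : ℂ)) (Tb μ a E (GN.toReg T) b' ψ)) = 0 := by
      refine lemF hS T hr hT hP hI hF hE h0 (J_mem hS.hN hq) (half_pos hρ) fun g => ?_
      have h2 := hZ g⁻¹ (fun γ => (h γ : ℂ) * (h γ : ℂ)) (fun γ => (h' γ : ℂ) * (h' γ : ℂ)) (UC.mul huc huc hb hb)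
        (UC.mul huc' huc' hb' hb') (fun γ => by
          rw [norm_mul]
          exact mul_le_one₀ (hb γ) (norm_nonneg _) (hb γ)) (fun γ => by
          rw [norm_mul]
          exact mul_le_one₀ (hb' γ) (norm_nonneg _) (hb' γ)) (1 / 2) (by norm_num) (fun γ γ' h3 h4 => by
          refine hopp q hq γ (hs γ fun h5 => h3 ?_) γ' (hs' γ' fun h5 => h4 ?_)
          · rw [h5]
            simp
          · rw [h5]
            simp)
        (Vq μ a E g (ContinuousLinearMap.adjoint (Tb μ a E (GN.toReg T) b')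
          (Mf μ (GN.toReg T) (fun γ => (h' γ : ℂ) * (h' γ : ℂ)) (Tb μ a E (GN.toReg T) b' ψ)))) ψ
      rw [← inner_Vq (μ := μ) (a := a) (E := E) g, Vq_inv', ContinuousLinearMap.adjoint_inner_left] at h2
      exact bump_ball17 h01 h1 h2
    refine bump_ball17 h01' h1' ?_
    rw [← ContinuousLinearMap.adjoint_inner_left, hη, inner_zero_left]
  obtain ⟨F, hFc⟩ := cover_fr hS hr (fun _ => ρ / 2) (fun _ => half_pos hρ)
  rw [← Tb_one (μ := μ) (a := a) (E := E) (R := GN.toReg T) (b := b')]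
  exact cover_zero F (fun q => Bl S q.1 (ρ / 2)) (fun n => Eventually.of_forall hFc) fun q _ => key q.1 q.2 _

end Pool.Agent.Helper43.LF
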