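import Pool.Agent.Helper43.LF.Defs

/-!
# Layer LF, block LF11: the frames `Vr`

Under `SO2 P S` the matrices `kR γ`, `P.ι k` are real (`cjM M = M`, `cjM` is the entrywise conjugation): entries `z = (z.re : ℂ)`. `Vr_mem`: the columns `j < r ≤ 2` of the unitary real matrix `kR γ` are orthonormal (`(kR)ᴴ kR = 1`, `S.uR`), isotropic: `(kR)ᵀ JJ kR = JJ` (`formR`) and `JJ` has zero entries `(i, j)` for
`i, j < 2` (`jj N i = N - 1 - i ≥ 3` for `i < 2`, `N ≥ 5`); sums of complex numbers that are casts of reals (`JJ` is the cast of `JR`). `PR_form`: `(PR P k)ᵀ J (PR P k) = J` and `PR P k J (PR P k)ᵀ = J` (from the first: `J (PR)ᵀ J` is a left inverse of `PR`, hence a right inverse;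
`JR N * JR N = 1`: `jj` is an involution). `JR_symm`, `JR_sq`.
-/

set_option autoImplicit false

open Filter Topology Matrix

namespace Pool.Agent.Helper43.LF

open Pool.Agent.Helper84 Pool.Agent.Helper84.GN Pool.Agent.Helper84.GN.S3
open Pool.Agent.Helper84.NI Pool.Agent.Helper84.GVN Pool.Agent.Helper90.RK
open Pool.Agent.Helper55.OB

variable {G : Type} [Group G] {N : ℕ} {P : PH G N} {S : Sv P}

private theorem jj_jj86 (N : ℕ) (i : Fin N) : jj N (jj N i) = i := by
  unfold jj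
  have hi := i.isLt
  by_cases h : (i : ℕ) < 2 ∨ N ≤ (i : ℕ) + 2
  · rw [if_pos h]
    have h2 : ((i.rev : Fin N) : ℕ) < 2 ∨ N ≤ ((i.rev : Fin N) : ℕ) + 2 := by
      rw [Fin.val_rev]
      omega
    rw [if_pos h2, Fin.rev_rev]
  · rw [if_neg h, if_neg h]

theorem JR_symm (N : ℕ) : (JR N)ᵀ = JR N := by
  ext i j
  rw [Matrix.transpose_apply]
  unfold JR
  rw [Matrix.of_apply, Matrix.of_apply]
  by_cases h : i = jj N j
  · rw [if_pos h, if_pos (by rw [h, jj_jj86])]
  · rw [if_neg h, if_neg (fun h2 => h (by rw [h2, jj_jj86]))]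

private theorem JR_sq86 (N : ℕ) : JR N * JR N = 1 := by
  ext i j
  rw [Matrix.mul_apply]
  unfold JR
  simp only [Matrix.of_apply, ite_mul, one_mul, zero_mul, Finset.sum_ite_eq', Finset.mem_univ, if_true]
  rw [jj_jj86, Matrix.one_apply]
  by_cases h : i = j
  · rw [if_pos h, if_pos h.symm]
  · rw [if_neg h, if_neg (fun h2 => h h2.symm)]

theorem JR_sq {N : ℕ} (hN : 5 ≤ N) : JR N * JR N = 1 := JR_sq86 N

private theorem JJ_eq86 (N : ℕ) : JJ N = (JR N).map Complex.ofReal := by
  ext i j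
  rw [Matrix.map_apply]
  unfold JJ JR
  rw [Matrix.of_apply, Matrix.of_apply]
  split_ifs
  · rw [Complex.ofReal_one]
  · rw [Complex.ofReal_zero]

/-- The real part of a matrix. -/
private noncomputable def re86 {m : ℕ} (A : Matrix (Fin m) (Fin m) ℂ) : Matrix (Fin m) (Fin m) ℝ := A.map Complex.re

private theorem map_re86 {m : ℕ} {A : Matrix (Fin m) (Fin m) ℂ} (h : Pool.Agent.Helper9.Lin.cjM A = A) :
    (re86 A).map Complex.ofReal = A := by
  ext i j
  rw [Matrix.map_apply]
  unfold re86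
  rw [Matrix.map_apply]
  have h1 : starRingEnd ℂ (A i j) = A i j := by
    rw [← Pool.Agent.Helper9.Lin.cjM_apply, h]
  exact Complex.conj_eq_iff_re.1 h1

private theorem map_inj86 {m k : ℕ} {A B : Matrix (Fin m) (Fin k) ℝ} (h : A.map Complex.ofReal = B.map Complex.ofReal) : A = B := by
  ext i j
  have h1 := congrFun (congrFun h i) j
  rw [Matrix.map_apply, Matrix.map_apply] at h1
  exact Complex.ofReal_injective h1

private theorem map_mul86 {m k l : ℕ} (A : Matrix (Fin m) (Fin k) ℝ) (B : Matrix (Fin k) (Fin l) ℝ) :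
    (A * B).map Complex.ofReal = A.map Complex.ofReal * B.map Complex.ofReal := by
  have h := Matrix.map_mul (L := A) (M := B) (f := Complex.ofRealHom)
  exact h

private theorem map_tr86 {m k : ℕ} (A : Matrix (Fin m) (Fin k) ℝ) :
    (Aᵀ).map Complex.ofReal = (A.map Complex.ofReal)ᵀ := rfl

private theorem map_one86 (m : ℕ) : ((1 : Matrix (Fin m) (Fin m) ℝ)).map Complex.ofReal = 1 := by
  ext i j
  rw [Matrix.map_apply, Matrix.one_apply, Matrix.one_apply]
  split_ifs
  · rw [Complex.ofReal_one]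
  · rw [Complex.ofReal_zero]

private theorem form86 {m : ℕ} {A : Matrix (Fin m) (Fin m) ℂ} (h : Pool.Agent.Helper9.Lin.cjM A = A)
    (hf : Aᵀ * JJ m * A = JJ m) : (re86 A)ᵀ * JR m * re86 A = JR m := by
  refine map_inj86 ?_
  rw [map_mul86, map_mul86, map_tr86, map_re86 h, ← JJ_eq86]
  exact hf

private theorem unit86 {m : ℕ} {A : Matrix (Fin m) (Fin m) ℂ} (h : Pool.Agent.Helper9.Lin.cjM A = A)
    (hu : Aᴴ * A = 1) : (re86 A)ᵀ * re86 A = 1 := by
  refine map_inj86 ?_
  rw [map_mul86, map_tr86, map_re86 h, map_one86]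
  have h1 : Aᴴ = Aᵀ := by
    ext i j
    rw [Matrix.conjTranspose_apply, Matrix.transpose_apply]
    have h2 : starRingEnd ℂ (A j i) = A j i := by
      rw [← Pool.Agent.Helper9.Lin.cjM_apply, h]
    exact h2
  rw [← h1]
  exact hu

theorem Vr_mem (hS : SO2 P S) {r : ℕ} (hr : r = 1 ∨ r = 2) (γ : G) : Vr r S γ ∈ FrR N r := by
  have hN := hS.hN
  have hrN : r ≤ N := by omega
  have hV : Vr r S γ = (re86 (S.kR γ)).submatrix id (Fin.castLE hrN) := by
    ext i j
    unfold Vr re86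
    rw [Matrix.of_apply, Matrix.submatrix_apply, Matrix.map_apply, dif_pos (lt_of_lt_of_le j.isLt hrN)]
    rfl
  have h1 := unit86 (hS.realR γ) (S.uR γ)
  have h2 := form86 (hS.realR γ) (hS.formR γ)
  refine ⟨?_, ?_⟩
  · have h3 : (Vr r S γ)ᵀ * Vr r S γ = ((re86 (S.kR γ))ᵀ * re86 (S.kR γ)).submatrix (Fin.castLE hrN) (Fin.castLE hrN) := by
      rw [hV]
      rfl
    rw [h3, h1]
    ext i j
    rw [Matrix.submatrix_apply, Matrix.one_apply, Matrix.one_apply]
    by_cases h : i = j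
    · rw [if_pos h, if_pos (by rw [h])]
    · rw [if_neg h, if_neg (fun h4 => h (Fin.castLE_injective hrN h4))]
  · have h3 : (Vr r S γ)ᵀ * JR N * Vr r S γ =
        ((re86 (S.kR γ))ᵀ * JR N * re86 (S.kR γ)).submatrix (Fin.castLE hrN) (Fin.castLE hrN) := by
      rw [hV]
      rfl
    rw [h3, h2]
    ext i j
    rw [Matrix.submatrix_apply, Matrix.zero_apply]
    unfold JR
    rw [Matrix.of_apply, if_neg]
    intro h4
    have h5 := congrArg (fun x : Fin N => (x : ℕ)) h4
    have hi := i.isLt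
    have hj := j.isLt
    unfold jj at h5
    have h6 : ((Fin.castLE hrN i : Fin N) : ℕ) < 2 ∨ N ≤ ((Fin.castLE hrN i : Fin N) : ℕ) + 2 := by
      left
      rw [Fin.val_castLE]
      omega
    rw [if_pos h6] at h5
    rw [Fin.val_rev, Fin.val_castLE, Fin.val_castLE] at h5
    omega

private theorem PR_eq86 (k : G) : PR P k = re86 (P.ι k) := rfl

theorem PR_form (hS : SO2 P S) (k : G) : (PR P k)ᵀ * JR N * PR P k = JR N := by
  rw [PR_eq86]
  exact form86 (hS.real k) (hS.form k)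

theorem PR_form' (hS : SO2 P S) (k : G) : PR P k * JR N * (PR P k)ᵀ = JR N := by
  have h1 := PR_form hS k
  have h2 : (JR N * (PR P k)ᵀ * JR N) * PR P k = 1 := by
    rw [Matrix.mul_assoc (JR N) _ (JR N), Matrix.mul_assoc, h1, JR_sq86]
  have h3 := mul_eq_one_comm.1 h2
  have h4 : PR P k * JR N * (PR P k)ᵀ * JR N = 1 := by
    rw [← h3]
    simp only [Matrix.mul_assoc]
  calc PR P k * JR N * (PR P k)ᵀ = PR P k * JR N * (PR P k)ᵀ * (JR N * JR N) := by
        rw [JR_sq86, Matrix.mul_one]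
    _ = PR P k * JR N * (PR P k)ᵀ * JR N * JR N := by
        simp only [Matrix.mul_assoc]
    _ = JR N := by
        rw [h4, Matrix.one_mul]

end Pool.Agent.Helper43.LF
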